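import Mathlib

/-!
# Basic tools for a well order all of whose proper initial segments are countable
-/

set_option autoImplicit false

namespace Run7.h95

open Set

universe u v

/-- Recursion along a well order with a local requirement at every step. -/
theorem exists_rec {Ω : Type u} {X : Type v} [LinearOrder Ω] [WellFoundedLT Ω] [Nonempty X]
    (Q : Ω → (Ω → X) → X → Prop)
    (hcongr : ∀ γ f f' x, (∀ β < γ, f β = f' β) → Q γ f x → Q γ f' x)
    (hex : ∀ γ f, (∀ β < γ, Q β f (f β)) → ∃ x, Q γ f x) :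
    ∃ f : Ω → X, ∀ γ, Q γ f (f γ) := by
  classical
  let d : X := Classical.arbitrary X
  let st : ∀ γ : Ω, ((β : Ω) → β < γ → X) → X := fun γ prev =>
    if h : ∃ x, Q γ (fun i => if h : i < γ then prev i h else d) x then h.choose else d
  let f : Ω → X := (wellFounded_lt (α := Ω)).fix st
  have hf : ∀ γ, f γ = st γ (fun β _ => f β) := fun γ => by
    show (wellFounded_lt (α := Ω)).fix st γ = _
    rw [WellFounded.fix_eq]
  refine ⟨f, fun γ => ?_⟩
  induction γ using WellFoundedLT.induction with
  | ind γ ih =>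
    have h1 : ∃ x, Q γ (fun i => if h : i < γ then f i else d) x := by
      obtain ⟨x, hx⟩ := hex γ f ih
      exact ⟨x, hcongr γ f _ x (fun β hβ => by simp [hβ]) hx⟩
    rw [hf γ]
    have h2 : st γ (fun β _ => f β) = h1.choose := dif_pos h1
    rw [h2]
    exact hcongr γ _ f _ (fun β hβ => by simp [hβ]) h1.choose_spec

section

variable {Ω : Type u} [LinearOrder Ω]

/-- countable initial segments, uncountable: the order looks like `ω₁` -/
structure Om1 (Ω : Type u) [LinearOrder Ω] : Prop where
  seg : ∀ a : Ω, (Iio a).Countable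
  unc : ¬ (univ : Set Ω).Countable

theorem Om1.iic (h : Om1 Ω) (a : Ω) : (Iic a).Countable := by
  have : Iic a = insert a (Iio a) := by
    ext x
    simp [le_iff_eq_or_lt]
  rw [this]
  exact (h.seg a).insert a

theorem Om1.bdd (h : Om1 Ω) {s : Set Ω} (hs : s.Countable) : ∃ b, ∀ a ∈ s, a < b := by
  by_contra hc
  push Not at hc
  apply h.unc
  have h1 : (⋃ a ∈ s, Iic a).Countable := hs.biUnion fun a _ => h.iic a
  refine h1.mono fun x _ => ?_
  obtain ⟨a, ha, hx⟩ := hc x
  exact mem_biUnion ha hx

theorem Om1.exists_gt (h : Om1 Ω) (a : Ω) : ∃ b, a < b := by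
  obtain ⟨b, hb⟩ := h.bdd (countable_singleton a)
  exact ⟨b, hb a rfl⟩

theorem Om1.unb (h : Om1 Ω) {s : Set Ω} (hs : ¬ s.Countable) (b : Ω) : ∃ a ∈ s, b < a := by
  by_contra hc
  push Not at hc
  exact hs ((h.iic b).mono fun x hx => hc x hx)

theorem Om1.of_unb (h : Om1 Ω) {s : Set Ω} (hs : ∀ b, ∃ a ∈ s, b ≤ a) : ¬ s.Countable := by
  intro hc
  obtain ⟨b, hb⟩ := h.bdd hc
  obtain ⟨a, ha, hab⟩ := hs b
  exact absurd (hb a ha) (not_lt.2 hab)

theorem Om1.nonempty (h : Om1 Ω) : Nonempty Ω := by
  by_contra hc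
  rw [not_nonempty_iff] at hc
  exact h.unc (Set.toFinite _).countable

/-- an uncountable set split into countably many pieces has an uncountable piece -/
theorem exists_unc {α : Type u} {ι : Type v} [Countable ι] {s : Set α} (hs : ¬ s.Countable)
    (f : α → ι) : ∃ i, ¬ {x ∈ s | f x = i}.Countable := by
  by_contra hc
  push Not at hc
  apply hs
  have : s ⊆ ⋃ i, {x ∈ s | f x = i} := fun x hx => mem_iUnion.2 ⟨f x, hx, rfl⟩
  exact (countable_iUnion hc).mono this

/-- an infinite subset of a well order contains an increasing sequence -/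
theorem exists_strictMono [WellFoundedLT Ω] {s : Set Ω} (hs : s.Infinite) :
    ∃ b : ℕ → Ω, StrictMono b ∧ ∀ n, b n ∈ s := by
  let f : ℕ → Ω := fun n => (hs.natEmbedding s n : Ω)
  have hf : Function.Injective f := fun a b hab =>
    (hs.natEmbedding s).injective (Subtype.ext hab)
  obtain ⟨g, hg⟩ := exists_increasing_or_nonincreasing_subseq (· < ·) f
  rcases hg with hg | hg
  · exact ⟨fun n => f (g n), fun a b hab => hg a b hab, fun n => (hs.natEmbedding s (g n)).2⟩
  · exfalso
    have h1 : ∀ n, f (g (n + 1)) < f (g n) := by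
      intro n
      have h2 := hg n (n + 1) (Nat.lt_succ_self n)
      rcases lt_trichotomy (f (g n)) (f (g (n + 1))) with h | h | h
      · exact absurd h h2
      · have h3 := g.injective (hf h)
        omega
      · exact h
    obtain ⟨m, ⟨n, hn⟩, hmin⟩ := wellFounded_lt.has_min (range fun n => f (g n)) ⟨_, 0, rfl⟩
    have h3 := h1 n
    have h4 := hmin (f (g (n + 1))) ⟨n + 1, rfl⟩
    have h5 : f (g n) = m := hn
    rw [h5] at h3
    exact h4 h3

end

end Run7.h95
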