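import Pool.Agent.Run7.h95.Height

/-!
# The tree of finite modifications of a coherent sequence of integer valued functions
-/

set_option autoImplicit false

namespace Run7.h95

open Set

/-- `h` is a function into `Ω`; there are families which are separated with respect to `h`. -/
theorem exists_sep {Ω : Type} [LinearOrder Ω] [WellFoundedLT Ω] (hΩ : Om1 Ω) {I : Type}
    [Nonempty I] (P : Ω → I → Prop) (hP : ∀ η, ∃ w, P η w)
    (hmono : ∀ η η' w, η ≤ η' → P η' w → P η w) (h : I → Ω) :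
    ∃ w : Ω → I, (∀ β, P β (w β)) ∧ ∀ β β', β < β' → P (h (w β)) (w β') := by
  obtain ⟨w, hw⟩ := exists_rec (Ω := Ω) (X := I)
    (fun β w x => P β x ∧ ∀ β' < β, P (h (w β')) x) (by
      intro γ f f' x hff hx
      refine ⟨hx.1, fun β hβ => ?_⟩
      rw [← hff β hβ]
      exact hx.2 β hβ) (by
      intro γ f _
      obtain ⟨b, hb⟩ := hΩ.bdd (((hΩ.seg γ).image fun β => h (f β)).insert γ)
      obtain ⟨x, hx⟩ := hP b
      refine ⟨x, hmono _ _ _ (hb γ (mem_insert _ _)).le hx, fun β hβ => ?_⟩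
      exact hmono _ _ _ (hb _ (mem_insert_of_mem _ ⟨β, hβ, rfl⟩)).le hx)
  exact ⟨w, fun β => (hw β).1, fun β β' hlt => (hw β').2 β hlt⟩

variable {Ω : Type} [LinearOrder Ω]

/-- `e` is coherent below `γ` -/
def CohB (e : Ω → Ω → ℤ) (γ : Ω) : Prop :=
  ∀ α β, α < β → β < γ → {ξ | ξ < α ∧ e α ξ ≠ e β ξ}.Finite

/-- `e` is coherent -/
def Coh (e : Ω → Ω → ℤ) : Prop :=
  ∀ α β, α < β → {ξ | ξ < α ∧ e α ξ ≠ e β ξ}.Finite

/-- coherent in symmetric form -/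
theorem Coh.symm {e : Ω → Ω → ℤ} (he : Coh e) (α β : Ω) :
    {ξ | ξ < α ∧ ξ < β ∧ e α ξ ≠ e β ξ}.Finite := by
  rcases lt_trichotomy α β with h | h | h
  · exact (he α β h).subset fun ξ hξ => ⟨hξ.1, hξ.2.2⟩
  · subst h
    convert Set.finite_empty
    rw [Set.eq_empty_iff_forall_notMem]
    intro ξ hξ
    exact hξ.2.2 rfl
  · exact (he β α h).subset fun ξ hξ => ⟨hξ.2.1, Ne.symm hξ.2.2⟩

theorem CohB.symm {e : Ω → Ω → ℤ} {γ : Ω} (he : CohB e γ) {α β : Ω} (hα : α < γ) (hβ : β < γ) :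
    {ξ | ξ < α ∧ ξ < β ∧ e α ξ ≠ e β ξ}.Finite := by
  rcases lt_trichotomy α β with h | h | h
  · exact (he α β h hβ).subset fun ξ hξ => ⟨hξ.1, hξ.2.2⟩
  · subst h
    convert Set.finite_empty
    rw [Set.eq_empty_iff_forall_notMem]
    intro ξ hξ
    exact hξ.2.2 rfl
  · exact (he β α h hα).subset fun ξ hξ => ⟨hξ.2.1, Ne.symm hξ.2.2⟩

open Classical in
/-- the part of `d` below `β`, if it is finitely supported -/
noncomputable def cut (β : Ω) (d : Ω → ℤ) : Ω →₀ ℤ :=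
  if h : {ξ | ξ < β ∧ d ξ ≠ 0}.Finite then
    Finsupp.onFinset h.toFinset (fun ξ => if ξ < β then d ξ else 0) (by
      intro ξ hξ
      by_cases h1 : ξ < β
      · rw [if_pos h1] at hξ
        rw [Set.Finite.mem_toFinset]
        exact ⟨h1, hξ⟩
      · rw [if_neg h1] at hξ
        exact absurd rfl hξ)
  else 0

theorem cut_apply {β : Ω} {d : Ω → ℤ} (h : {ξ | ξ < β ∧ d ξ ≠ 0}.Finite) {ξ : Ω} (hξ : ξ < β) :
    cut β d ξ = d ξ := by
  rw [cut, dif_pos h, Finsupp.onFinset_apply, if_pos hξ]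

theorem cut_supp (β : Ω) (d : Ω → ℤ) {ξ : Ω} (hξ : ¬ ξ < β) : cut β d ξ = 0 := by
  rw [cut]
  split_ifs with h
  · rw [Finsupp.onFinset_apply, if_neg hξ]
  · rfl

theorem cut_congr {β : Ω} {d d' : Ω → ℤ} (h : ∀ ξ < β, d ξ = d' ξ) : cut β d = cut β d' := by
  have h1 : ∀ ξ, (ξ < β ∧ d ξ ≠ 0) ↔ (ξ < β ∧ d' ξ ≠ 0) := by
    intro ξ
    constructor
    · rintro ⟨a, b⟩
      exact ⟨a, by rwa [← h ξ a]⟩
    · rintro ⟨a, b⟩
      exact ⟨a, by rwa [h ξ a]⟩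
  have h2 : {ξ | ξ < β ∧ d ξ ≠ 0} = {ξ | ξ < β ∧ d' ξ ≠ 0} := Set.ext h1
  by_cases h3 : {ξ | ξ < β ∧ d ξ ≠ 0}.Finite
  · have h4 := h3
    rw [h2] at h4
    ext ξ
    by_cases h5 : ξ < β
    · rw [cut_apply h3 h5, cut_apply h4 h5, h ξ h5]
    · rw [cut_supp _ _ h5, cut_supp _ _ h5]
  · have h4 := h3
    rw [h2] at h4
    rw [cut, cut, dif_neg h3, dif_neg h4]

/-- The nodes: a level and a finitely supported modification below that level. -/
structure CT {Ω : Type} [LinearOrder Ω] (e : Ω → Ω → ℤ) : Type where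
  /-- the level -/
  lv : Ω
  /-- the modification -/
  md : Ω →₀ ℤ
  supp : ∀ ξ, ¬ ξ < lv → md ξ = 0

variable {e : Ω → Ω → ℤ}

/-- the function given by a node -/
def CT.val (x : CT e) (ξ : Ω) : ℤ := e x.lv ξ + x.md ξ

theorem CT.ext' {x y : CT e} (h1 : x.lv = y.lv) (h2 : ∀ ξ < x.lv, x.val ξ = y.val ξ) : x = y := by
  obtain ⟨a, r, hr⟩ := x
  obtain ⟨b, s, hs⟩ := y
  simp only at h1
  subst h1
  congr 1
  ext ξ
  by_cases h : ξ < a
  · have h3 := h2 ξ h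
    simp only [CT.val] at h3
    exact add_left_cancel h3
  · rw [hr ξ h, hs ξ h]

instance : PartialOrder (CT e) where
  le x y := x.lv ≤ y.lv ∧ ∀ ξ < x.lv, x.val ξ = y.val ξ
  le_refl x := ⟨le_rfl, fun _ _ => rfl⟩
  le_trans x y z h1 h2 := ⟨h1.1.trans h2.1, fun ξ hξ =>
    (h1.2 ξ hξ).trans (h2.2 ξ (hξ.trans_le h1.1))⟩
  le_antisymm x y h1 h2 := CT.ext' (le_antisymm h1.1 h2.1) h1.2

theorem CT.le_def {x y : CT e} : x ≤ y ↔ x.lv ≤ y.lv ∧ ∀ ξ < x.lv, x.val ξ = y.val ξ := Iff.rfl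

theorem CT.lt_iff {x y : CT e} : x < y ↔ x.lv < y.lv ∧ ∀ ξ < x.lv, x.val ξ = y.val ξ := by
  constructor
  · intro h
    refine ⟨lt_of_le_of_ne h.le.1 fun h1 => ?_, h.le.2⟩
    have h2 : x = y := CT.ext' h1 h.le.2
    rw [h2] at h
    exact lt_irrefl _ h
  · intro h
    refine lt_of_le_of_ne ⟨h.1.le, h.2⟩ fun h1 => ?_
    rw [h1] at h
    exact lt_irrefl _ h.1

/-- nodes below a common node are comparable -/
theorem CT.lin {x y z : CT e} (hx : x ≤ z) (hy : y ≤ z) (h : x.lv ≤ y.lv) : x ≤ y :=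
  ⟨h, fun ξ hξ => (hx.2 ξ hξ).trans (hy.2 ξ (hξ.trans_le h)).symm⟩

instance [WellFoundedLT Ω] : WellFoundedLT (CT e) := by
  constructor
  have h1 : WellFounded (InvImage (fun a b : Ω => a < b) (fun x : CT e => x.lv)) :=
    InvImage.wf _ wellFounded_lt
  exact Subrelation.wf (r := InvImage (fun a b : Ω => a < b) (fun x : CT e => x.lv))
    (fun {x y} h => (CT.lt_iff.1 h).1) h1

/-- the node of level `β` given by the function `u` -/
noncomputable def CT.mk' (e : Ω → Ω → ℤ) (β : Ω) (u : Ω → ℤ) : CT e :=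
  ⟨β, cut β fun ξ => u ξ - e β ξ, fun _ hξ => cut_supp _ _ hξ⟩

theorem CT.mk'_lv (β : Ω) (u : Ω → ℤ) : (CT.mk' e β u).lv = β := rfl

theorem CT.mk'_val {β : Ω} {u : Ω → ℤ} (h : {ξ | ξ < β ∧ u ξ ≠ e β ξ}.Finite) {ξ : Ω}
    (hξ : ξ < β) : (CT.mk' e β u).val ξ = u ξ := by
  have h1 : {ξ | ξ < β ∧ u ξ - e β ξ ≠ 0}.Finite := by
    convert h using 4
    rw [sub_ne_zero]
  show e β ξ + cut β (fun ξ => u ξ - e β ξ) ξ = u ξ
  rw [cut_apply h1 hξ]
  ring

/-- the values of a node differ from `e` finitely often -/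
theorem CT.fin (he : Coh e) (x : CT e) {β : Ω} (hβ : β ≤ x.lv) :
    {ξ | ξ < β ∧ x.val ξ ≠ e β ξ}.Finite := by
  have h1 := (he.symm x.lv β).union x.md.hasFiniteSupport
  refine h1.subset ?_
  rintro ξ ⟨h2, h3⟩
  by_cases h4 : x.md ξ = 0
  · left
    refine ⟨h2.trans_le hβ, h2, fun h5 => h3 ?_⟩
    rw [CT.val, h4, add_zero, h5]
  · right
    exact h4

/-- restriction to a lower level -/
noncomputable def CT.res (x : CT e) (β : Ω) : CT e := CT.mk' e β x.val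

theorem CT.res_lv (x : CT e) (β : Ω) : (x.res β).lv = β := rfl

theorem CT.res_val (he : Coh e) (x : CT e) {β : Ω} (hβ : β ≤ x.lv) {ξ : Ω} (hξ : ξ < β) :
    (x.res β).val ξ = x.val ξ := CT.mk'_val (x.fin he hβ) hξ

theorem CT.res_le (he : Coh e) (x : CT e) {β : Ω} (hβ : β ≤ x.lv) : x.res β ≤ x :=
  ⟨hβ, fun _ hξ => x.res_val he hβ hξ⟩

theorem CT.res_lt (he : Coh e) (x : CT e) {β : Ω} (hβ : β < x.lv) : x.res β < x :=
  CT.lt_iff.2 ⟨hβ, fun _ hξ => x.res_val he hβ.le hξ⟩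

theorem CT.countable_le (hΩ : Om1 Ω) (α : Ω) : {x : CT e | x.lv ≤ α}.Countable := by
  have h1 : Countable (Iio α) := (hΩ.seg α).to_subtype
  have h2 : Countable (Iic α) := (hΩ.iic α).to_subtype
  let F : {x : CT e | x.lv ≤ α} → Iic α × (Iio α →₀ ℤ) := fun x =>
    (⟨x.1.lv, x.2⟩, x.1.md.comapDomain (fun ξ : Iio α => ξ.1)
      (Function.Injective.injOn Subtype.val_injective))
  have hF : Function.Injective F := by
    intro x y h
    have h3 : x.1.lv = y.1.lv := congrArg (fun p => (p.1 : Ω)) h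
    have h4 : x.1.md.comapDomain (fun ξ : Iio α => ξ.1)
        (Function.Injective.injOn Subtype.val_injective) =
      y.1.md.comapDomain (fun ξ : Iio α => ξ.1)
        (Function.Injective.injOn Subtype.val_injective) := congrArg (fun p => p.2) h
    refine Subtype.ext (CT.ext' h3 fun ξ hξ => ?_)
    have h5 := DFunLike.congr_fun h4 (⟨ξ, hξ.trans_le x.2⟩ : Iio α)
    rw [Finsupp.comapDomain_apply, Finsupp.comapDomain_apply] at h5
    rw [CT.val, CT.val, h3, h5]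
  exact Set.countable_coe_iff.1 hF.countable

theorem CT.exists_gt (hΩ : Om1 Ω) {Y : Set (CT e)} (hY : ¬ Y.Countable) (α : Ω) :
    ∃ y ∈ Y, α < y.lv := by
  by_contra hcon
  push Not at hcon
  exact hY ((CT.countable_le hΩ α).mono hcon)

theorem CT.of_unb (hΩ : Om1 Ω) {Y : Set (CT e)} (hY : ∀ α, ∃ y ∈ Y, α ≤ y.lv) :
    ¬ Y.Countable := by
  intro hc
  refine hΩ.of_unb (s := (fun x : CT e => x.lv) '' Y) (fun b => ?_) (hc.image _)
  obtain ⟨y, h1, h2⟩ := hY b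
  exact ⟨y.lv, ⟨y, h1, rfl⟩, h2⟩

end Run7.h95
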