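import Pool.Agent.Run7.h95.Height

/-!
# The club principle on the standard copy of `ω₁` in `Type`
-/

set_option autoImplicit false

namespace Run7.h95

open Set Ordinal

/-- `α` is a limit point of the order -/
def Lim {Ω : Type} [LinearOrder Ω] (α : Ω) : Prop :=
  (∃ β, β < α) ∧ ∀ β < α, ∃ γ, β < γ ∧ γ < α

/-- the club principle on an abstract copy of `ω₁` -/
def ClubOn (Ω : Type) [LinearOrder Ω] : Prop :=
  ∃ A : Ω → Set Ω, (∀ α, Lim α → A α ⊆ Iio α ∧ ∀ β < α, ∃ γ ∈ A α, β < γ) ∧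
    ∀ X : Set Ω, ¬ X.Countable → ∃ α, Lim α ∧ A α ⊆ X

theorem clubOn_W (h : Club) : ClubOn W := by
  obtain ⟨A, hA1, hA2⟩ := h
  let e : Iio (ω_ 1 : Ordinal.{0}) ≃o W := ToType.mk
  have key : ∀ a : W, Lim a ↔ Order.IsSuccLimit (e.symm a).1 := by
    intro a
    constructor
    · rintro ⟨⟨b, hb⟩, h2⟩
      constructor
      · intro hmin
        have h3 : (e.symm b).1 < (e.symm a).1 := e.symm.lt_iff_lt.2 hb
        exact absurd (hmin h3.le) (not_le.2 h3)
      · intro o ho
        have h3 : o < ω_ 1 := ho.lt.trans (e.symm a).2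
        have h4 : e ⟨o, h3⟩ < a := by
          rw [← e.symm.lt_iff_lt, e.symm_apply_apply]
          exact ho.lt
        obtain ⟨γ, h5, h6⟩ := h2 _ h4
        rw [← e.symm.lt_iff_lt, e.symm_apply_apply] at h5
        rw [← e.symm.lt_iff_lt] at h6
        exact ho.2 (show o < (e.symm γ).1 from h5) h6
    · intro hl
      constructor
      · have h1 : ⊥ < (e.symm a).1 := hl.bot_lt
        refine ⟨e ⟨⊥, h1.trans (e.symm a).2⟩, ?_⟩
        rw [← e.symm.lt_iff_lt, e.symm_apply_apply]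
        exact h1
      · intro b hb
        have h1 : (e.symm b).1 < (e.symm a).1 := e.symm.lt_iff_lt.2 hb
        have h2 := hl.succ_lt h1
        refine ⟨e ⟨Order.succ (e.symm b).1, h2.trans (e.symm a).2⟩, ?_, ?_⟩
        · rw [← e.symm.lt_iff_lt, e.symm_apply_apply]
          exact Order.lt_succ (e.symm b).1
        · rw [← e.symm.lt_iff_lt, e.symm_apply_apply]
          exact h2
  refine ⟨fun a => {x | (e.symm x).1 ∈ A (e.symm a).1}, ?_, ?_⟩
  · intro a ha
    obtain ⟨h1, h2⟩ := hA1 _ (e.symm a).2 ((key a).1 ha)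
    refine ⟨fun x hx => ?_, fun b hb => ?_⟩
    · have h3 : (e.symm x).1 < (e.symm a).1 := h1 hx
      exact e.symm.lt_iff_lt.1 h3
    · obtain ⟨γ, h3, h4⟩ := h2 (e.symm b).1 (e.symm.lt_iff_lt.2 hb)
      have h5 : γ < ω_ 1 := (h1 h3).trans (e.symm a).2
      refine ⟨e ⟨γ, h5⟩, ?_, ?_⟩
      · show (e.symm (e ⟨γ, h5⟩)).1 ∈ A (e.symm a).1
        rw [e.symm_apply_apply]
        exact h3
      · rw [← e.symm.lt_iff_lt, e.symm_apply_apply]
        exact h4
  · intro X hX
    obtain ⟨α, h1, h2, h3⟩ := hA2 ((fun x => (e.symm x).1) '' X) (by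
      rintro _ ⟨x, -, rfl⟩
      exact (e.symm x).2) (by
      intro hc
      apply hX
      exact Set.countable_of_injective_of_countable_image (f := fun x => (e.symm x).1) (by
        intro x _ y _ hxy
        exact e.symm.injective (Subtype.ext hxy)) hc)
    refine ⟨e ⟨α, h1⟩, ?_, ?_⟩
    · rw [key, e.symm_apply_apply]
      exact h2
    · intro x hx
      have h4 : (e.symm x).1 ∈ A (e.symm (e ⟨α, h1⟩)).1 := hx
      rw [e.symm_apply_apply] at h4
      obtain ⟨y, hy1, hy2⟩ := h3 h4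
      have h5 : y = x := e.symm.injective (Subtype.ext hy2)
      rw [← h5]
      exact hy1

end Run7.h95
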