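import Pool.Agent.Run7.h95.Base

/-!
# The dichotomy: evasion of narrow slaloms, or generic sequences
-/

set_option autoImplicit false

namespace Run7.h95

open Set

/-- Every family of functions indexed by `Ω` has a common infinitely often equal function. -/
def IE (Ω : Type) : Prop :=
  ∀ f : Ω → ℕ → ℕ, ∃ g : ℕ → ℕ, ∀ i, {n | f i n = g n}.Infinite

/-- There is a family indexed by `Ω` such that every slalom of bounded width is evaded by a
member of the family. -/
def Evade (Ω : Type) : Prop :=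
  ∃ Φ : Ω → ℕ → ℤ, ∀ (k : ℕ) (S : ℕ → Finset ℤ), (∀ n, (S n).card ≤ k) →
    ∃ i, {n | Φ i n ∈ S n}.Finite

theorem evade_of_not_IE {Ω : Type} (hΩ : ∃ φ : Ω → Ω × ℕ, Function.Surjective φ)
    (h : ¬ IE Ω) : Evade Ω := by
  classical
  obtain ⟨φ, hφ⟩ := hΩ
  rw [IE] at h
  push Not at h
  obtain ⟨f, hf⟩ := h
  -- codes of finite functions
  have hcode : ∀ k : ℕ, ∃ (cd : (Fin (k + 1) → ℕ) → ℤ) (dc : ℤ → (Fin (k + 1) → ℕ)),
      ∀ σ, dc (cd σ) = σ := by
    intro k
    obtain ⟨cd, hcd⟩ := exists_injective_nat (Fin (k + 1) → ℕ)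
    refine ⟨fun σ => (cd σ : ℤ), fun z => Function.invFun (fun σ => (cd σ : ℤ)) z, fun σ => ?_⟩
    exact Function.leftInverse_invFun (f := fun σ => (cd σ : ℤ))
      (fun a b hab => hcd (by
        have h2 : (cd a : ℤ) = cd b := hab
        exact_mod_cast h2)) σ
  choose cd dc hdc using hcode
  let F : Ω × ℕ → ℕ → ℤ := fun p n => cd p.2 (fun j => f p.1 ((p.2 + 1) * n + j))
  refine ⟨fun i => F (φ i), fun k S hS => ?_⟩
  let g : ℕ → ℕ := fun m =>
    dc k ((S (m / (k + 1))).toList.getD (m % (k + 1)) 0)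
      ⟨m % (k + 1), Nat.mod_lt _ (Nat.succ_pos k)⟩
  obtain ⟨i₀, hi₀⟩ := hf g
  obtain ⟨i, hi⟩ := hφ (i₀, k)
  refine ⟨i, ?_⟩
  have h1 : {n | F (φ i) n ∈ S n} ⊆ (fun m => m / (k + 1)) '' {m | f i₀ m = g m} := by
    intro n hn
    have hn' : cd k (fun j => f i₀ ((k + 1) * n + j)) ∈ S n := by
      have h2 : F (φ i) n ∈ S n := hn
      rw [hi] at h2
      exact h2
    rw [← Finset.mem_toList, List.mem_iff_getElem] at hn'
    obtain ⟨j, hj, hj2⟩ := hn'
    have hjk : j < k + 1 := by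
      have h3 : (S n).toList.length = (S n).card := Finset.length_toList _
      have h4 := hS n
      omega
    have hdiv : ((k + 1) * n + j) / (k + 1) = n := by
      rw [Nat.mul_add_div (Nat.succ_pos k), Nat.div_eq_of_lt hjk, add_zero]
    have hmod : ((k + 1) * n + j) % (k + 1) = j := by
      rw [Nat.mul_add_mod, Nat.mod_eq_of_lt hjk]
    refine ⟨(k + 1) * n + j, ?_, hdiv⟩
    show f i₀ ((k + 1) * n + j) = g ((k + 1) * n + j)
    have h5 : g ((k + 1) * n + j) =
        dc k ((S n).toList.getD j 0) ⟨j, hjk⟩ := by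
      simp only [g, hdiv, hmod]
    rw [h5, List.getD_eq_getElem _ _ hj, hj2, hdc]
  exact Set.Finite.subset (Set.Finite.image _ hi₀) h1

/-- transfer to countable codomains -/
theorem IE.ctb {Ω : Type} (h : IE Ω) {X : Type} [Countable X] [Nonempty X] (f : Ω → ℕ → X) :
    ∃ g : ℕ → X, ∀ i, {n | f i n = g n}.Infinite := by
  obtain ⟨φ, hφ⟩ := exists_injective_nat X
  obtain ⟨g, hg⟩ := h fun i n => φ (f i n)
  refine ⟨fun n => Function.invFun φ (g n), fun i => (hg i).mono fun n hn => ?_⟩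
  have h1 : φ (f i n) = g n := hn
  show f i n = Function.invFun φ (g n)
  rw [← h1, Function.leftInverse_invFun hφ]

/-- infinitely often equal functions meeting partial functions with infinite domains -/
theorem IE.restr {Ω : Type} (h : IE Ω) {X : Type} [Countable X] [Nonempty X] (D : Ω → Set ℕ)
    (hD : ∀ i, (D i).Infinite) (f : Ω → ℕ → X) :
    ∃ g : ℕ → X, ∀ i, ∃ k ∈ D i, f i k = g k := by
  classical
  have hF : ∀ i n, ∃ s : Finset ℕ, (∀ k ∈ s, k ∈ D i) ∧ s.card = n + 1 := by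
    intro i n
    obtain ⟨s, hs1, hs2⟩ := (hD i).exists_subset_card_eq (n + 1)
    exact ⟨s, fun k hk => hs1 hk, hs2⟩
  choose F hF1 hF2 using hF
  obtain ⟨G, hG⟩ := h.ctb (X := Finset (ℕ × X)) fun i n => (F i n).image fun k => (k, f i k)
  obtain ⟨p, hp⟩ := exists_rec (Ω := ℕ) (X := ℕ × X)
    (fun n p x => (∃ y ∈ G n, ∀ j < n, (p j).1 ≠ y.1) → x ∈ G n ∧ ∀ j < n, (p j).1 ≠ x.1) (by
      intro n p p' x hpp hx hex
      obtain ⟨y, hy1, hy2⟩ := hex
      obtain ⟨h1, h2⟩ := hx ⟨y, hy1, fun j hj => by rw [hpp j hj]; exact hy2 j hj⟩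
      exact ⟨h1, fun j hj => by rw [← hpp j hj]; exact h2 j hj⟩) (by
      intro n p _
      by_cases hex : ∃ y ∈ G n, ∀ j < n, (p j).1 ≠ y.1
      · obtain ⟨y, hy1, hy2⟩ := hex
        exact ⟨y, fun _ => ⟨hy1, hy2⟩⟩
      · exact ⟨Classical.arbitrary _, fun h => absurd h hex⟩)
  have hmin : ∀ k, ∃ v : X, ∀ n, (p n).1 = k → (∀ j < n, (p j).1 ≠ k) → v = (p n).2 := by
    intro k
    by_cases hex : ∃ n, (p n).1 = k ∧ ∀ j < n, (p j).1 ≠ k
    · obtain ⟨n, h1, h2⟩ := hex
      refine ⟨(p n).2, fun m h3 h4 => ?_⟩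
      rcases lt_trichotomy n m with h5 | h5 | h5
      · exact absurd h1 (h4 n h5)
      · rw [h5]
      · exact absurd h3 (h2 m h5)
    · exact ⟨Classical.arbitrary _, fun n h1 h2 => absurd ⟨n, h1, h2⟩ hex⟩
  choose g hg using hmin
  refine ⟨g, fun i => ?_⟩
  obtain ⟨n, hn⟩ := (hG i).nonempty
  have hn' : (F i n).image (fun k => (k, f i k)) = G n := hn
  have hex : ∃ y ∈ G n, ∀ j < n, (p j).1 ≠ y.1 := by
    have h1 : ∃ k ∈ F i n, k ∉ (Finset.range n).image fun j => (p j).1 := by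
      by_contra hcon
      push Not at hcon
      have h2 := Finset.card_le_card (show F i n ⊆ (Finset.range n).image fun j => (p j).1 from hcon)
      have h3 : ((Finset.range n).image fun j => (p j).1).card ≤ n :=
        Finset.card_image_le.trans (by rw [Finset.card_range])
      rw [hF2] at h2
      omega
    obtain ⟨k, hk1, hk2⟩ := h1
    refine ⟨(k, f i k), ?_, fun j hj hjk => hk2 ?_⟩
    · rw [← hn']
      exact Finset.mem_image_of_mem _ hk1
    · exact Finset.mem_image.2 ⟨j, Finset.mem_range.2 hj, hjk⟩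
  obtain ⟨h1, h2⟩ := hp n hex
  rw [← hn', Finset.mem_image] at h1
  obtain ⟨k, hk1, hk2⟩ := h1
  have h3 : (p n).1 = k := by rw [← hk2]
  have h4 : (p n).2 = f i k := by rw [← hk2]
  refine ⟨k, hF1 i n k hk1, ?_⟩
  rw [hg k n h3 (fun j hj => by rw [← h3]; exact h2 j hj), h4]

/-- a sparse sequence -/
theorem IE.sparse {Ω : Type} (h : IE Ω) (a : ℕ) (f : Ω → ℕ → ℕ) :
    ∃ m : ℕ → ℕ, m 0 = a ∧ StrictMono m ∧ ∀ i, {k | f i (m k) ≤ m (k + 1)}.Infinite := by
  classical
  let H : Ω → ℕ → ℕ := fun i n => n + ∑ j ∈ Finset.range (n + 1), f i j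
  have hH1 : ∀ i, Monotone (H i) := by
    intro i n n' hn
    refine add_le_add hn (Finset.sum_le_sum_of_subset fun j hj => ?_)
    rw [Finset.mem_range] at hj ⊢
    omega
  have hH2 : ∀ i n, f i n ≤ H i n := by
    intro i n
    refine le_trans ?_ (Nat.le_add_left _ _)
    exact Finset.single_le_sum (f := fun j => f i j) (fun j _ => Nat.zero_le _)
      (Finset.mem_range.2 (Nat.lt_succ_self n))
  obtain ⟨g, hg⟩ := h fun i n => H i (H i n)
  let G : ℕ → ℕ := fun n => n + 1 + ∑ j ∈ Finset.range (n + 1), g j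
  have hG1 : Monotone G := by
    intro n n' hn
    refine add_le_add (by omega) (Finset.sum_le_sum_of_subset fun j hj => ?_)
    rw [Finset.mem_range] at hj ⊢
    omega
  have hG2 : ∀ n, g n ≤ G n := by
    intro n
    refine le_trans ?_ (Nat.le_add_left _ _)
    exact Finset.single_le_sum (f := fun j => g j) (fun j _ => Nat.zero_le _)
      (Finset.mem_range.2 (Nat.lt_succ_self n))
  have hG3 : ∀ n, n < G n := by
    intro n
    have : n + 1 ≤ G n := Nat.le_add_right _ _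
    omega
  let m : ℕ → ℕ := fun k => Nat.rec a (fun _ x => G x) k
  have hm : ∀ k, m (k + 1) = G (m k) := fun k => rfl
  have hmm : StrictMono m := strictMono_nat_of_lt_succ fun k => by
    rw [hm]
    exact hG3 _
  refine ⟨m, rfl, hmm, fun i => ?_⟩
  by_contra hcon
  rw [Set.not_infinite] at hcon
  obtain ⟨K, hK⟩ := hcon.bddAbove
  have hK' : ∀ k, K < k → m (k + 1) < f i (m k) := by
    intro k hk
    by_contra h1
    push Not at h1
    have h2 : k ≤ K := hK h1
    omega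
  obtain ⟨n, hn, hnK⟩ := (hg i).exists_gt (m (K + 1))
  have hex : ∃ k, n < m k := ⟨n + 1, lt_of_lt_of_le (Nat.lt_succ_self n) hmm.le_apply⟩
  obtain ⟨k', hk1, hk2⟩ : ∃ k, n < m k ∧ ∀ j < k, ¬ n < m j := by
    obtain ⟨k, hk, hk'⟩ := (Nat.lt_wfRel.wf).has_min {k | n < m k} hex
    exact ⟨k, hk, fun j hj hj' => hk' j hj' hj⟩
  have hk3 : K + 1 < k' := by
    by_contra h1
    push Not at h1
    have h2 := hmm.monotone h1
    omega
  obtain ⟨k, rfl⟩ : ∃ k, k' = k + 1 := ⟨k' - 1, by omega⟩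
  have h1 : m k ≤ n := not_lt.1 (hk2 k (Nat.lt_succ_self k))
  have h2 : g n = H i (H i n) := (show H i (H i n) = g n from hn).symm
  have h3 : m (k + 1) < H i (m k) := (hK' k (by omega)).trans_le (hH2 i _)
  have h4 : m (k + 2) < H i (m (k + 1)) := (hK' (k + 1) (by omega)).trans_le (hH2 i _)
  have h5 : H i (m (k + 1)) ≤ H i (H i n) := (hH1 i) (h3.le.trans (hH1 i h1))
  have h6 : G n ≤ G (m (k + 1)) := hG1 hk1.le
  have h7 : m (k + 2) = G (m (k + 1)) := hm (k + 1)
  have h8 := hG2 n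
  omega

/-- the finite sequence `s` is an initial segment of `c` -/
def Ext {V : Type} (s : List V) (c : ℕ → V) : Prop :=
  ∀ (k : ℕ) (h : k < s.length), c k = s[k]

theorem ext_of_prefix {V : Type} {s t : List V} {c : ℕ → V} (h : s <+: t) (ht : Ext t c) :
    Ext s c := by
  intro k hk
  obtain ⟨u, rfl⟩ := h
  rw [ht k (by rw [List.length_append]; omega), List.getElem_append_left hk]

/-- generic sequences exist for families of dense open requirements indexed by `Ω` -/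
def Gen (Ω : Type) : Prop :=
  ∀ G : Ω → (ℕ → ℤ) → Prop,
    (∀ i (c₀ : ℕ → ℤ) (n : ℕ), ∃ (m : ℕ) (c₁ : ℕ → ℤ), (∀ k < n, c₁ k = c₀ k) ∧
      ∀ c, (∀ k < m, c k = c₁ k) → G i c) →
    ∃ c, ∀ i, G i c

theorem IE.gen {Ω : Type} (h : IE Ω) : Gen Ω := by
  classical
  intro G hG
  have hτ : ∀ i (s : List ℤ), ∃ t : List ℤ, s <+: t ∧ ∀ c, Ext t c → G i c := by
    intro i s
    obtain ⟨m, c₁, h1, h2⟩ := hG i (fun k => s.getD k 0) s.length
    refine ⟨(List.range (max m s.length)).map c₁, ?_, fun c hc => h2 c fun k hk => ?_⟩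
    · rw [List.prefix_iff_getElem]
      refine ⟨by simp, fun k hk => ?_⟩
      rw [List.getElem_map, List.getElem_range, h1 k hk, List.getD_eq_getElem _ _ hk]
    · rw [hc k (by simp; omega), List.getElem_map, List.getElem_range]
  choose τ hτ1 hτ2 using hτ
  obtain ⟨φ, hφ⟩ := exists_injective_nat (List ℤ)
  have hfin : ∀ n, {s : List ℤ | φ s ≤ n}.Finite := fun n =>
    Set.Finite.of_injOn (f := φ) (t := Iic n) (fun s hs => hs) hφ.injOn (Set.finite_Iic n)
  have hbd : ∀ i n, ∃ b : ℕ, ∀ s, φ s ≤ n → φ (τ i s) ≤ b := by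
    intro i n
    obtain ⟨b, hb⟩ := ((hfin n).image fun s => φ (τ i s)).bddAbove
    exact ⟨b, fun s hs => hb ⟨s, hs, rfl⟩⟩
  choose bd hbd using hbd
  obtain ⟨m, hm0, hm1, hm2⟩ := h.sparse (φ []) bd
  obtain ⟨g, hg⟩ := h.restr (X := Finset (List ℤ × List ℤ)) _ hm2
    fun i k => (hfin (m k)).toFinset.image fun s => (s, τ i s)
  have hst : ∀ k s, ∃ t, s <+: t ∧ (φ s ≤ m k → φ t ≤ m (k + 1)) ∧
      ((∃ t', (s, t') ∈ g k ∧ s <+: t' ∧ φ t' ≤ m (k + 1)) → (s, t) ∈ g k) := by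
    intro k s
    by_cases hex : ∃ t', (s, t') ∈ g k ∧ s <+: t' ∧ φ t' ≤ m (k + 1)
    · obtain ⟨t, h1, h2, h3⟩ := hex
      exact ⟨t, h2, fun _ => h3, fun _ => h1⟩
    · exact ⟨s, List.prefix_rfl, fun h => h.trans (hm1 (Nat.lt_succ_self k)).le,
        fun h => absurd h hex⟩
  choose st hst1 hst2 hst3 using hst
  let L : ℕ → List ℤ := fun k => Nat.rec [] (fun k s => st k s) k
  have hL0 : L 0 = [] := rfl
  have hL : ∀ k, L (k + 1) = st k (L k) := fun k => rfl
  have hφL : ∀ k, φ (L k) ≤ m k := by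
    intro k
    induction k with
    | zero => rw [hL0, hm0]
    | succ k ih =>
      rw [hL]
      exact hst2 k (L k) ih
  have hLm : ∀ j k, j ≤ k → L j <+: L k := by
    intro j k hjk
    induction k, hjk using Nat.le_induction with
    | base => exact List.prefix_rfl
    | succ k _ ih => exact ih.trans (by rw [hL]; exact hst1 k (L k))
  have hc : ∀ n, ∃ v : ℤ, ∀ k (hk : n < (L k).length), v = (L k)[n] := by
    intro n
    by_cases hex : ∃ k, n < (L k).length
    · obtain ⟨k, hk⟩ := hex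
      refine ⟨(L k)[n], fun j hj => ?_⟩
      rcases le_total j k with h1 | h1
      · exact (List.IsPrefix.getElem (hLm j k h1) hj).symm
      · exact List.IsPrefix.getElem (hLm k j h1) hk
    · exact ⟨0, fun k hk => absurd ⟨k, hk⟩ hex⟩
  choose c hc using hc
  refine ⟨c, fun i => ?_⟩
  obtain ⟨k, hk1, hk2⟩ := hg i
  have h1 : (L k, τ i (L k)) ∈ g k := by
    rw [← hk2, Finset.mem_image]
    refine ⟨L k, ?_, rfl⟩
    rw [Set.Finite.mem_toFinset]
    exact hφL k
  have h2 : φ (τ i (L k)) ≤ m (k + 1) := (hbd i (m k) (L k) (hφL k)).trans hk1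
  have h4 : st k (L k) = τ i (L k) := by
    have h5 := hst3 k (L k) ⟨_, h1, hτ1 i _, h2⟩
    rw [← hk2, Finset.mem_image] at h5
    obtain ⟨s, -, h6⟩ := h5
    rw [Prod.mk.injEq] at h6
    rw [← h6.2, h6.1]
  refine hτ2 i (L k) c fun n hn => ?_
  have h5 : L (k + 1) = τ i (L k) := by rw [hL, h4]
  have h6 := hc n (k + 1) (by rw [h5]; exact hn)
  rw [h6]
  congr 1

theorem dichotomy {Ω : Type} (hΩ : ∃ φ : Ω → Ω × ℕ, Function.Surjective φ) :
    Evade Ω ∨ Gen Ω := by
  by_cases h : IE Ω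
  · exact Or.inr h.gen
  · exact Or.inl (evade_of_not_IE hΩ h)

end Run7.h95
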