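import Pool.Agent.Run7.h95.CT
import Pool.Agent.Run7.h95.Evade
import Pool.Agent.Run7.h95.ClubW

/-!
# The construction from the club principle and an evading family
-/

set_option autoImplicit false

namespace Run7.h95

open Set

variable {Ω : Type} [LinearOrder Ω]

/-- Gluing a coherent sequence at `δ`, with prescribed values on a sparse set. -/
theorem glue [WellFoundedLT Ω] {δ : Ω} {e : Ω → Ω → ℤ} (he : CohB e δ) (α : ℕ → Ω)
    (hα : ∀ n, α n < δ) (hcof : ∀ β < δ, ∃ n, β ≤ α n) (s : ℕ → Finset Ω)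
    (hdisj : ∀ m n ξ, ξ ∈ s m → ξ ∈ s n → m = n)
    (hfin : ∀ β < δ, ∃ N, ∀ n, ∀ ξ ∈ s n, ξ < β → n < N)
    (rule : ℕ → Ω → (Ω → ℤ) → ℤ)
    (hrule : ∀ n ξ x x', (∀ η < ξ, x η = x' η) → rule n ξ x = rule n ξ x') :
    ∃ x : Ω → ℤ, (∀ β < δ, {ξ | ξ < β ∧ x ξ ≠ e β ξ}.Finite) ∧
      ∀ n, ∀ ξ ∈ s n, x ξ = rule n ξ x := by
  classical
  obtain ⟨x, hx⟩ := exists_rec (Ω := Ω) (X := ℤ)
    (fun ξ x v => (∀ n, ξ ∈ s n → v = rule n ξ x) ∧
      ((∀ n, ξ ∉ s n) → ∀ n, ξ < α n → (∀ j < n, ¬ ξ < α j) → v = e (α n) ξ)) (by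
      intro ξ x x' v hxx hv
      refine ⟨fun n hn => ?_, hv.2⟩
      rw [hv.1 n hn]
      exact hrule n ξ x x' hxx) (by
      intro ξ x _
      by_cases h1 : ∃ n, ξ ∈ s n
      · obtain ⟨n, hn⟩ := h1
        refine ⟨rule n ξ x, fun m hm => ?_, fun h => absurd hn (h n)⟩
        rw [hdisj m n ξ hm hn]
      · push Not at h1
        by_cases h2 : ∃ n, ξ < α n ∧ ∀ j < n, ¬ ξ < α j
        · obtain ⟨n, hn1, hn2⟩ := h2
          refine ⟨e (α n) ξ, fun m hm => absurd hm (h1 m), fun _ m hm1 hm2 => ?_⟩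
          rcases lt_trichotomy m n with h3 | h3 | h3
          · exact absurd hm1 (hn2 m h3)
          · rw [h3]
          · exact absurd hn1 (hm2 n h3)
        · exact ⟨0, fun m hm => absurd hm (h1 m), fun _ m hm1 hm2 => absurd ⟨m, hm1, hm2⟩ h2⟩)
  refine ⟨x, fun β hβ => ?_, fun n ξ hξ => (hx ξ).1 n hξ⟩
  obtain ⟨n, hn⟩ := hcof β hβ
  obtain ⟨N, hN⟩ := hfin β hβ
  have h1 : {ξ | ξ < β ∧ x ξ ≠ e β ξ} ⊆ (⋃ j ∈ Finset.range N, (s j : Set Ω)) ∪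
      ⋃ j ∈ Finset.range (n + 1), {ξ | ξ < α j ∧ ξ < β ∧ e (α j) ξ ≠ e β ξ} := by
    rintro ξ ⟨h2, h3⟩
    by_cases h4 : ∃ m, ξ ∈ s m
    · obtain ⟨m, hm⟩ := h4
      left
      simp only [mem_iUnion]
      exact ⟨m, Finset.mem_range.2 (hN m ξ hm h2), hm⟩
    · right
      push Not at h4
      obtain ⟨j, hj1, hj2⟩ := (Nat.lt_wfRel.wf).has_min {j | ξ < α j} ⟨n, h2.trans_le hn⟩
      have hj3 : j ≤ n := not_lt.1 (hj2 n (h2.trans_le hn))
      have h5 := (hx ξ).2 h4 j hj1 (fun i hi hi' => hj2 i hi' hi)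
      simp only [mem_iUnion]
      refine ⟨j, Finset.mem_range.2 (by omega), hj1, h2, ?_⟩
      rw [← h5]
      exact h3
  refine Set.Finite.subset (Set.Finite.union ?_ ?_) h1
  · exact Set.Finite.biUnion (Finset.finite_toSet _) fun j _ => Finset.finite_toSet _
  · exact Set.Finite.biUnion (Finset.finite_toSet _) fun j _ => he.symm (hα j) hβ

/-- the pairs coding nodes below `α` -/
def Raw (α : Ω) : Set (Ω × (Ω →₀ ℤ)) := {p | p.1 ≤ α ∧ ∀ ξ, ¬ ξ < p.1 → p.2 ξ = 0}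

theorem countable_raw (hΩ : Om1 Ω) (α : Ω) : (Raw α).Countable := by
  have h1 := (CT.countable_le (e := fun _ _ => (0 : ℤ)) hΩ α).to_subtype
  let F : Raw α → {x : CT (fun _ _ : Ω => (0 : ℤ)) | x.lv ≤ α} := fun p =>
    ⟨⟨p.1.1, p.1.2, p.2.2⟩, p.2.1⟩
  have hF : Function.Injective F := by
    rintro ⟨⟨a, r⟩, h1⟩ ⟨⟨b, t⟩, h2⟩ h
    have h3 := congrArg (fun x => x.1.lv) h
    have h4 := congrArg (fun x => x.1.md) h
    have h5 : a = b := h3
    have h6 : r = t := h4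
    subst h5
    subst h6
    rfl
  exact Set.countable_coe_iff.1 hF.countable

theorem exists_pi (hΩ : Om1 Ω) : ∃ π : Ω → Ω × (Ω →₀ ℤ) → ℕ, ∀ α, InjOn (π α) (Raw α) := by
  have : ∀ α : Ω, ∃ f : Ω × (Ω →₀ ℤ) → ℕ, InjOn f (Raw α) := fun α =>
    (Set.countable_iff_exists_injOn).1 (countable_raw hΩ α)
  choose π hπ using this
  exact ⟨π, hπ⟩

/-- a sequence of pieces of information decoded from the guess at `δ` -/
structure SeqAt (A : Ω → Set Ω) (cd : Ω × Finset Ω × Ω → Ω) (δ : Ω) (w : ℕ → Ω × Finset Ω × Ω) :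
    Prop where
  mem : ∀ n, cd (w n) ∈ A δ
  lt : ∀ n, (w n).1 < δ
  cof : ∀ β < δ, ∃ n, β ≤ (w n).1
  below : ∀ n, ∀ ξ ∈ (w n).2.1, ξ < (w n).1
  above : ∀ n, ∀ ξ ∈ (w (n + 1)).2.1, (w n).1 ≤ ξ
  mono : ∀ n, (w n).1 ≤ (w (n + 1)).1

/-- the function `x` follows, for every finite modification, the predictions of some piece -/
def Capture (π : Ω → Ω × (Ω →₀ ℤ) → ℕ) (Φ : Ω → ℕ → ℤ) (e : Ω → Ω → ℤ) (δ : Ω) (x : Ω → ℤ)
    (w : ℕ → Ω × Finset Ω × Ω) : Prop :=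
  ∀ r : Ω →₀ ℤ, (∀ ξ, ¬ ξ < δ → r ξ = 0) → ∃ n, ∀ ξ ∈ (w n).2.1,
    x ξ + r ξ = Φ (w n).2.2 (π (w n).1 (ξ, cut ξ fun η => (x η + r η) - e ξ η))

/-- a row without requirements -/
theorem exists_plain [WellFoundedLT Ω] (hΩ : Om1 Ω) {δ : Ω} {e : Ω → Ω → ℤ} (he : CohB e δ) :
    ∃ x : Ω → ℤ, ∀ β < δ, {ξ | ξ < β ∧ x ξ ≠ e β ξ}.Finite := by
  by_cases hne : (Iio δ).Nonempty
  · obtain ⟨a, ha⟩ := (hΩ.seg δ).exists_eq_range hne
    have h1 : ∀ n, a n < δ := fun n => by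
      have : a n ∈ Iio δ := by
        rw [ha]
        exact ⟨n, rfl⟩
      exact this
    obtain ⟨x, hx, -⟩ := glue he a h1 (fun β hβ => by
      have : β ∈ range a := by
        rw [← ha]
        exact hβ
      obtain ⟨n, hn⟩ := this
      exact ⟨n, hn.ge⟩) (fun _ => ∅) (fun m n ξ h => absurd h (Finset.notMem_empty _))
      (fun β _ => ⟨0, fun n ξ h => absurd h (Finset.notMem_empty _)⟩) (fun _ _ _ => 0)
      (fun _ _ _ _ _ => rfl)
    exact ⟨x, hx⟩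
  · rw [not_nonempty_iff_eq_empty] at hne
    refine ⟨fun _ => 0, fun β hβ => ?_⟩
    have : β ∈ Iio δ := hβ
    rw [hne] at this
    exact absurd this (notMem_empty _)

theorem exists_capture [WellFoundedLT Ω] (hΩ : Om1 Ω) (A : Ω → Set Ω)
    (cd : Ω × Finset Ω × Ω → Ω) (π : Ω → Ω × (Ω →₀ ℤ) → ℕ) (Φ : Ω → ℕ → ℤ) :
    ∃ e : Ω → Ω → ℤ, Coh e ∧ ∀ δ, (∃ w, SeqAt A cd δ w) →
      ∃ w, SeqAt A cd δ w ∧ Capture π Φ e δ (e δ) w := by
  classical
  obtain ⟨e, he⟩ := exists_rec (Ω := Ω) (X := Ω → ℤ)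
    (fun δ e x => (∀ β < δ, {ξ | ξ < β ∧ x ξ ≠ e β ξ}.Finite) ∧
      ((∃ w, SeqAt A cd δ w) → ∃ w, SeqAt A cd δ w ∧ Capture π Φ e δ x w)) (by
      intro δ e e' x hee hx
      refine ⟨fun β hβ => ?_, fun hw => ?_⟩
      · rw [← hee β hβ]
        exact hx.1 β hβ
      · obtain ⟨w, hw1, hw2⟩ := hx.2 hw
        refine ⟨w, hw1, fun r hr => ?_⟩
        obtain ⟨n, hn⟩ := hw2 r hr
        refine ⟨n, fun ξ hξ => ?_⟩
        rw [← hee ξ ((hw1.below n ξ hξ).trans (hw1.lt n))]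
        exact hn ξ hξ) (by
      intro δ e hδ
      have he : CohB e δ := by
        intro α β h1 h2
        refine ((hδ β h2).1 α h1).subset fun ξ hξ => ⟨hξ.1, Ne.symm hξ.2⟩
      by_cases hex : ∃ w, SeqAt A cd δ w
      · obtain ⟨w, hw⟩ := hex
        have hmono : Monotone fun n => (w n).1 := monotone_nat_of_le_succ hw.mono
        have habove : ∀ m n ξ, m < n → ξ ∈ (w n).2.1 → (w m).1 ≤ ξ := by
          intro m n ξ hmn hξ
          obtain ⟨k, rfl⟩ : ∃ k, n = k + 1 := ⟨n - 1, by omega⟩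
          exact (hmono (by omega : m ≤ k)).trans (hw.above k ξ hξ)
        have hctb : {r : Ω →₀ ℤ | ∀ ξ, ¬ ξ < δ → r ξ = 0}.Countable := by
          refine Set.Countable.mono ?_ ((countable_raw hΩ δ).image fun p => p.2)
          intro r hr
          exact ⟨(δ, r), ⟨le_rfl, hr⟩, rfl⟩
        obtain ⟨R, hR⟩ := hctb.exists_eq_range ⟨0, fun _ _ => rfl⟩
        obtain ⟨x, hx1, hx2⟩ := glue he (fun n => (w n).1) hw.lt hw.cof (fun n => (w n).2.1)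
          (by
            intro m n ξ hm hn
            rcases lt_trichotomy m n with h | h | h
            · exact absurd ((hw.below m ξ hm).trans_le (habove m n ξ h hn)) (lt_irrefl _)
            · exact h
            · exact absurd ((hw.below n ξ hn).trans_le (habove n m ξ h hm)) (lt_irrefl _))
          (by
            intro β hβ
            obtain ⟨N, hN⟩ := hw.cof β hβ
            refine ⟨N + 1, fun n ξ hξ hlt => ?_⟩
            by_contra hcon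
            push Not at hcon
            have h1 := habove N n ξ (by omega) hξ
            exact absurd (hlt.trans_le (hN.trans h1)) (lt_irrefl _))
          (fun n ξ x => Φ (w n).2.2 (π (w n).1 (ξ, cut ξ fun η => (x η + R n η) - e ξ η)) - R n ξ)
          (by
            intro n ξ x x' hxx
            have h1 : (cut ξ fun η => (x η + R n η) - e ξ η) =
                cut ξ fun η => (x' η + R n η) - e ξ η :=
              cut_congr fun η hη => by rw [hxx η hη]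
            rw [h1])
        refine ⟨x, hx1, fun _ => ⟨w, hw, fun r hr => ?_⟩⟩
        have hr' : r ∈ range R := by
          rw [← hR]
          exact hr
        obtain ⟨n, rfl⟩ := hr'
        refine ⟨n, fun ξ hξ => ?_⟩
        have h1 := hx2 n ξ hξ
        rw [h1]
        ring
      · obtain ⟨x, hx⟩ := exists_plain hΩ he
        exact ⟨x, hx, fun h => absurd h hex⟩)
  refine ⟨e, fun α β hαβ => ?_, fun δ => (he δ).2⟩
  exact ((he β).1 α hαβ).subset fun ξ hξ => ⟨hξ.1, Ne.symm hξ.2⟩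

/-- The splitting property: every uncountable lower set `Y` of the tree has, on all but countably
many levels, a node with at least `k` immediate successors in `Y`. -/
def Split (e : Ω → Ω → ℤ) : Prop :=
  ∀ Y : Set (CT e), IsLowerSet Y → ¬ Y.Countable → ∀ k : ℕ,
    {ξ : Ω | ∀ x ∈ Y, x.lv = ξ → ¬ ∃ M : Finset ℤ, M.card = k ∧
      ∀ m ∈ M, ∃ y ∈ Y, x < y ∧ y.val ξ = m}.Countable

theorem small_of {k : ℕ} {S : Set ℤ} (h : ¬ ∃ M : Finset ℤ, M.card = k ∧ ∀ m ∈ M, m ∈ S) :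
    ∃ F : Finset ℤ, F.card ≤ k ∧ ∀ m ∈ S, m ∈ F := by
  by_cases hS : S.Finite
  · refine ⟨hS.toFinset, ?_, fun m hm => hS.mem_toFinset.2 hm⟩
    by_contra hcon
    push Not at hcon
    obtain ⟨M, hM1, hM2⟩ := Finset.exists_subset_card_eq hcon.le
    exact h ⟨M, hM2, fun m hm => hS.mem_toFinset.1 (hM1 hm)⟩
  · obtain ⟨M, hM1, hM2⟩ := Set.Infinite.exists_subset_card_eq hS k
    exact absurd ⟨M, hM2, fun m hm => hM1 hm⟩ h

/-- an increasing cofinal sequence in a ladder -/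
theorem ladder_seq (hΩ : Om1 Ω) {δ : Ω} (hδ : Lim δ) {S : Set Ω} (hS : S ⊆ Iio δ)
    (hcof : ∀ β < δ, ∃ γ ∈ S, β < γ) :
    ∃ a : ℕ → Ω, StrictMono a ∧ (∀ n, a n ∈ S) ∧ ∀ β < δ, ∃ n, β < a n := by
  obtain ⟨d, hd⟩ := (hΩ.seg δ).exists_eq_range hδ.1
  have hd1 : ∀ n, d n < δ := fun n => by
    have : d n ∈ Iio δ := by
      rw [hd]
      exact ⟨n, rfl⟩
    exact this
  have hstep : ∀ (n : ℕ) (x : Ω), ∃ y, x < δ → y ∈ S ∧ x < y ∧ d n < y := by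
    intro n x
    by_cases hx : x < δ
    · obtain ⟨y, hy1, hy2⟩ := hcof (max x (d n)) (max_lt hx (hd1 n))
      exact ⟨y, fun _ => ⟨hy1, (le_max_left _ _).trans_lt hy2, (le_max_right _ _).trans_lt hy2⟩⟩
    · exact ⟨x, fun h => absurd h hx⟩
  choose st hst using hstep
  let a : ℕ → Ω := fun n => Nat.rec (st 0 (d 0)) (fun n x => st (n + 1) x) n
  have ha0 : a 0 = st 0 (d 0) := rfl
  have ha : ∀ n, a (n + 1) = st (n + 1) (a n) := fun n => rfl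
  have ha1 : ∀ n, a n ∈ S ∧ d n < a n := by
    intro n
    induction n with
    | zero => exact ⟨(hst 0 (d 0) (hd1 0)).1, (hst 0 (d 0) (hd1 0)).2.2⟩
    | succ n ih =>
      rw [ha]
      exact ⟨(hst (n + 1) (a n) (hS ih.1)).1, (hst (n + 1) (a n) (hS ih.1)).2.2⟩
  refine ⟨a, strictMono_nat_of_lt_succ fun n => ?_, fun n => (ha1 n).1, fun β hβ => ?_⟩
  · rw [ha]
    exact (hst (n + 1) (a n) (hS (ha1 n).1)).2.1
  · have : β ∈ range d := by
      rw [← hd]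
      exact hβ
    obtain ⟨n, rfl⟩ := this
    exact ⟨n, (ha1 n).2⟩

theorem split_of_evade [WellFoundedLT Ω] (hΩ : Om1 Ω) (hclub : ClubOn Ω) (hE : Evade Ω)
    (hcd : ∃ cd : Ω × Finset Ω × Ω → Ω, Function.Injective cd) :
    ∃ e : Ω → Ω → ℤ, Coh e ∧ Split e := by
  classical
  obtain ⟨A, hA1, hA2⟩ := hclub
  obtain ⟨cd, hcd⟩ := hcd
  obtain ⟨π, hπ⟩ := exists_pi hΩ
  obtain ⟨Φ, hΦ⟩ := hE
  obtain ⟨e, he, hcap⟩ := exists_capture hΩ A cd π Φ
  have : Nonempty Ω := hΩ.nonempty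
  refine ⟨e, he, fun Y hlow hY k => ?_⟩
  by_contra hZ
  set Z : Set Ω := {ξ : Ω | ∀ x ∈ Y, x.lv = ξ → ¬ ∃ M : Finset ℤ, M.card = k ∧
      ∀ m ∈ M, ∃ y ∈ Y, x < y ∧ y.val ξ = m} with hZdef
  -- the slaloms
  have hF : ∀ (α : Ω) (n : ℕ), ∃ F : Finset ℤ, F.card ≤ k ∧
      ∀ x ∈ Y, x.lv ≤ α → x.lv ∈ Z → π α (x.lv, x.md) = n → ∀ y ∈ Y, x < y → y.val x.lv ∈ F := by
    intro α n
    by_cases hex : ∃ x ∈ Y, x.lv ≤ α ∧ x.lv ∈ Z ∧ π α (x.lv, x.md) = n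
    · obtain ⟨x, hx1, hx2, hx3, hx4⟩ := hex
      obtain ⟨F, hF1, hF2⟩ := small_of (S := {m | ∃ y ∈ Y, x < y ∧ y.val x.lv = m})
        (hx3 x hx1 rfl)
      refine ⟨F, hF1, fun x' h1 h2 _ h4 y hy hlt => ?_⟩
      have h5 : (x.lv, x.md) = (x'.lv, x'.md) :=
        hπ α ⟨hx2, x.supp⟩ ⟨h2, x'.supp⟩ (hx4.trans h4.symm)
      rw [Prod.mk.injEq] at h5
      have h6 : x = x' := by
        obtain ⟨a, r, hr⟩ := x
        obtain ⟨b, t, ht⟩ := x'
        simp only at h5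
        obtain ⟨h7, h8⟩ := h5
        subst h7
        subst h8
        rfl
      subst h6
      exact hF2 _ ⟨y, hy, hlt, rfl⟩
    · refine ⟨∅, by simp, fun x h1 h2 h3 h4 => absurd ⟨x, h1, h2, h3, h4⟩ hex⟩
  choose F hF1 hF2 using hF
  have hi : ∀ α, ∃ i, {n | Φ i n ∈ F α n}.Finite := fun α => hΦ k (F α) (hF1 α)
  choose i hi using hi
  obtain ⟨κ, hκ⟩ := exists_unc hΩ.unc fun α => (hi α).toFinset.card
  have hK : ∀ b, ∃ α, b < α ∧ (hi α).toFinset.card = κ := fun b => by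
    obtain ⟨α, h1, h2⟩ := hΩ.unb hκ b
    exact ⟨α, h2, h1.2⟩
  -- the pieces of information
  let P : Ω → Ω × Finset Ω × Ω → Prop := fun η w =>
    (hi w.1).toFinset.card = κ ∧ w.2.2 = i w.1 ∧ w.2.1.card = κ + 1 ∧
      (∀ ξ ∈ w.2.1, ξ ∈ Z ∧ η ≤ ξ ∧ ξ < w.1) ∧ η ≤ w.1 ∧ η < cd w
  have hP : ∀ η, ∃ w, P η w := by
    intro η
    have h1 : (Z ∩ Ici η).Infinite := by
      intro hfin
      apply hZ
      refine (hfin.countable.union (hΩ.seg η)).mono fun ξ hξ => ?_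
      rcases lt_or_ge ξ η with h | h
      · exact Or.inr h
      · exact Or.inl ⟨hξ, h⟩
    obtain ⟨s, hs1, hs2⟩ := h1.exists_subset_card_eq (κ + 1)
    obtain ⟨b, hb⟩ := hΩ.bdd ((s.finite_toSet.countable).insert η)
    have h2 : ¬ ({α | (hi α).toFinset.card = κ ∧ b < α}).Countable := by
      apply hΩ.of_unb
      intro c
      obtain ⟨α, h3, h4⟩ := hK (max b c)
      exact ⟨α, ⟨h4, (le_max_left _ _).trans_lt h3⟩, ((le_max_right _ _).trans_lt h3).le⟩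
    have h3 : {α | cd (α, s, i α) ≤ η}.Countable := by
      refine Set.MapsTo.countable_of_injOn (f := fun α => cd (α, s, i α)) (t := Iic η)
        (fun α hα => hα) ?_ (hΩ.iic η)
      intro α _ α' _ h
      have h4 := hcd h
      rw [Prod.mk.injEq] at h4
      exact h4.1
    obtain ⟨α, hα1, hα2⟩ : ∃ α ∈ {α | (hi α).toFinset.card = κ ∧ b < α},
        α ∉ {α | cd (α, s, i α) ≤ η} := by
      by_contra hcon
      push Not at hcon
      exact h2 (h3.mono hcon)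
    refine ⟨(α, s, i α), hα1.1, rfl, hs2, fun ξ hξ => ?_, ?_, not_le.1 hα2⟩
    · exact ⟨(hs1 hξ).1, (hs1 hξ).2, (hb ξ (mem_insert_of_mem _ hξ)).trans hα1.2⟩
    · exact ((hb η (mem_insert _ _)).trans hα1.2).le
  obtain ⟨w, hw1, hw2⟩ := exists_sep hΩ P hP (by
    rintro η η' w hηη ⟨h1, h2, h3, h4, h5, h6⟩
    exact ⟨h1, h2, h3, fun ξ hξ => ⟨(h4 ξ hξ).1, hηη.trans (h4 ξ hξ).2.1, (h4 ξ hξ).2.2⟩,
      hηη.trans h5, hηη.trans_lt h6⟩) (fun w => max w.1 (cd w))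
  have hX : ¬ (range fun β => cd (w β)).Countable := by
    apply hΩ.of_unb
    intro b
    exact ⟨_, ⟨b, rfl⟩, (hw1 b).2.2.2.2.2.le⟩
  obtain ⟨δ, hδ, hAδ⟩ := hA2 _ hX
  obtain ⟨a, ha1, ha2, ha3⟩ := ladder_seq hΩ hδ (hA1 δ hδ).1 (hA1 δ hδ).2
  have hβ : ∀ n, ∃ β, cd (w β) = a n := fun n => hAδ (ha2 n)
  choose β hβ using hβ
  have hβm : ∀ n, β n < β (n + 1) := by
    intro n
    have h1 := ha1 (Nat.lt_succ_self n)
    rw [← hβ, ← hβ] at h1
    rcases lt_trichotomy (β n) (β (n + 1)) with h | h | h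
    · exact h
    · rw [h] at h1
      exact absurd h1 (lt_irrefl _)
    · have h2 := (hw2 _ _ h).2.2.2.2.2
      exact absurd (((le_max_right _ _).trans_lt h2).trans h1) (lt_irrefl _)
  have hseq : SeqAt A cd δ fun n => w (β n) := by
    refine ⟨fun n => ?_, fun n => ?_, fun γ hγ => ?_, fun n ξ hξ => ?_, fun n ξ hξ => ?_,
      fun n => ?_⟩
    · rw [hβ]
      exact ha2 n
    · have h1 := (hw2 _ _ (hβm n)).2.2.2.2.2
      rw [hβ (n + 1)] at h1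
      exact ((le_max_left _ _).trans_lt h1).trans ((hA1 δ hδ).1 (ha2 (n + 1)))
    · obtain ⟨n, hn⟩ := ha3 γ hγ
      rw [← hβ] at hn
      exact ⟨n + 1, (hn.le.trans (le_max_right _ _)).trans (hw2 _ _ (hβm n)).2.2.2.2.1⟩
    · exact ((hw1 (β n)).2.2.2.1 ξ hξ).2.2
    · exact (le_max_left _ _).trans ((hw2 _ _ (hβm n)).2.2.2.1 ξ hξ).2.1
    · exact (le_max_left _ _).trans (hw2 _ _ (hβm n)).2.2.2.2.1
  obtain ⟨v, hv1, hv2⟩ := hcap δ ⟨_, hseq⟩
  obtain ⟨y, hy1, hy2⟩ := CT.exists_gt hΩ hY δ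
  have htY : y.res δ ∈ Y := hlow (y.res_le he hy2.le) hy1
  obtain ⟨n, hn⟩ := hv2 (y.res δ).md (y.res δ).supp
  set t := y.res δ with ht
  have htl : t.lv = δ := rfl
  obtain ⟨b, hb⟩ : ∃ b, w b = v n := by
    obtain ⟨b, hb⟩ := hAδ (hv1.mem n)
    exact ⟨b, hcd hb⟩
  have hPn := hw1 b
  rw [hb] at hPn
  obtain ⟨h1, h2, h3, h4, -, -⟩ := hPn
  have hmem : ∀ ξ ∈ (v n).2.1, π (v n).1 (ξ, (t.res ξ).md) ∈ (hi (v n).1).toFinset := by
    intro ξ hξ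
    have hξδ : ξ < δ := (h4 ξ hξ).2.2.trans (hv1.lt n)
    rw [Set.Finite.mem_toFinset, mem_setOf_eq, ← h2]
    have h5 : t.val ξ = Φ (v n).2.2 (π (v n).1 (ξ, (t.res ξ).md)) := hn ξ hξ
    rw [← h5]
    have h6 : t.res ξ < t := t.res_lt he hξδ
    exact hF2 (v n).1 (π (v n).1 (ξ, (t.res ξ).md)) (t.res ξ) (hlow h6.le htY)
      (h4 ξ hξ).2.2.le (h4 ξ hξ).1 rfl t htY h6
  have hcard : (v n).2.1.card ≤ (hi (v n).1).toFinset.card := by
    refine Finset.card_le_card_of_injOn (fun ξ => π (v n).1 (ξ, (t.res ξ).md)) hmem ?_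
    intro ξ hξ ξ' hξ' h
    have h5 := hπ (v n).1 ⟨(h4 ξ hξ).2.2.le, (t.res ξ).supp⟩ ⟨(h4 ξ' hξ').2.2.le, (t.res ξ').supp⟩ h
    exact congrArg Prod.fst h5
  omega

end Run7.h95
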