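import Pool.Agent.Run7.h95.Pairs
import Pool.Agent.Run7.h95.Case2

/-!
# The coherent Souslin tree given by a generic sequence
-/

set_option autoImplicit false

namespace Run7.h95

open Set Filter

/-- A triangular system of equations can be solved by an extension of any given start. -/
theorem solve2 {X : Type} [Nonempty X] {ι : Type} (Δ : Set ι) (hi : ι → ℕ)
    (rhs : ι → (ℕ → X) → X) (n : ℕ) (c₀ : ℕ → X)
    (h1 : ∀ i ∈ Δ, ∀ c c' : ℕ → X, (∀ m < hi i, c m = c' m) → rhs i c = rhs i c')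
    (h2 : ∀ i ∈ Δ, n ≤ hi i) (h3 : ∀ i ∈ Δ, ∀ j ∈ Δ, hi i = hi j → i = j) :
    ∃ c : ℕ → X, (∀ m < n, c m = c₀ m) ∧ ∀ i ∈ Δ, c (hi i) = rhs i c := by
  classical
  obtain ⟨c, hc⟩ := exists_rec (Ω := ℕ) (X := X)
    (fun m c x => (m < n → x = c₀ m) ∧ ∀ i ∈ Δ, hi i = m → x = rhs i c) (by
      intro m c c' x hcc hx
      refine ⟨hx.1, fun i hi' hm => ?_⟩
      rw [← h1 i hi' c c' fun k hk => hcc k (hm ▸ hk)]
      exact hx.2 i hi' hm) (by
      intro m c _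
      by_cases hm : m < n
      · refine ⟨c₀ m, fun _ => rfl, fun i hi' him => ?_⟩
        have := h2 i hi'
        omega
      · by_cases hex : ∃ i ∈ Δ, hi i = m
        · obtain ⟨i, hi1, hi2⟩ := hex
          refine ⟨rhs i c, fun h => absurd h hm, fun j hj1 hj2 => ?_⟩
          rw [h3 i hi1 j hj1 (hi2.trans hj2.symm)]
        · push Not at hex
          exact ⟨c₀ m, fun h => absurd h hm, fun j hj1 hj2 => absurd hj2 (hex j hj1)⟩)
  exact ⟨c, fun m hm => (hc m).1 hm, fun i hi' => (hc (hi i)).2 i hi' rfl⟩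

/-- decoding of prescribed values -/
def dz (m : ℕ) : ℤ := Equiv.intEquivNat.symm (m - 1)

/-- encoding of prescribed values -/
def ez (z : ℤ) : ℕ := Equiv.intEquivNat z + 1

theorem dz_ez (z : ℤ) : dz (ez z) = z := by
  simp [dz, ez]

theorem ez_ne (z : ℤ) : ez z ≠ 0 := Nat.succ_ne_zero _

variable {Ω : Type} [LinearOrder Ω]

/-- the function given by a level and finitely many prescribed values -/
def nf (g : Ω → Ω → ℕ) (c : ℕ → ℤ) (w : Ω × (Ω →₀ ℕ)) (ξ : Ω) : ℤ :=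
  if w.2 ξ = 0 then c (g w.1 ξ) else dz (w.2 ξ)

/-- a sequence of codes which is a `Δ`-system with root `q` -/
structure DSeq (q : Ω →₀ ℕ) (x : ℕ → Ω × (Ω →₀ ℕ)) : Prop where
  lt : ∀ n, (x n).1 < (x (n + 1)).1
  root : ∀ n ξ, q ξ ≠ 0 → (x n).2 ξ = q ξ
  tail : ∀ m n ξ, m < n → (x n).2 ξ ≠ 0 → q ξ = 0 → (x m).1 ≤ ξ

theorem dense_pair {g : Ω → Ω → ℕ} (hg : IsG g) {q : Ω →₀ ℕ} {x : ℕ → Ω × (Ω →₀ ℕ)}
    (hx : DSeq q x) (c₀ : ℕ → ℤ) (n : ℕ) :
    ∃ (m : ℕ) (c₁ : ℕ → ℤ), (∀ k < n, c₁ k = c₀ k) ∧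
      ∀ c, (∀ k < m, c k = c₁ k) → ∃ i j, i < j ∧
        ∀ ξ < (x i).1, nf g c (x i) ξ = nf g c (x j) ξ := by
  classical
  have hb : StrictMono fun n => (x n).1 := strictMono_nat_of_lt_succ hx.lt
  obtain ⟨E, a, hE, h1, h2⟩ := hg.limit hb n
  have h3 : ∀ᶠ i in (hyperfilter ℕ : Filter ℕ), ∀ ξ ∈ E, ξ < (x i).1 ∧ g (x i).1 ξ = a ξ := by
    rw [Set.Finite.eventually_all hE]
    exact h1
  have h3' : ∀ᶠ i in (hyperfilter ℕ : Filter ℕ), ∀ ξ ∈ E, q ξ = 0 → (x i).2 ξ = 0 := by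
    rw [Set.Finite.eventually_all hE]
    intro ξ hξ
    obtain ⟨i₀, hi₀, -⟩ := (h1 ξ hξ).exists
    have h4 : ∀ᶠ i in (hyperfilter ℕ : Filter ℕ), i₀ < i :=
      Nat.hyperfilter_le_atTop (eventually_gt_atTop i₀)
    filter_upwards [h4] with i hi hq
    by_contra hne
    exact absurd hi₀ (not_lt.2 (hx.tail i₀ i ξ hi hne hq))
  obtain ⟨i, hi, hi'⟩ := (h3.and h3').exists
  let K : Set Ω := {ξ | ξ < (x i).1 ∧ g (x i).1 ξ < n ∧ ξ ∉ E}
  have hK : K.Finite := by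
    refine Set.Finite.of_injOn (f := g (x i).1) (t := Iio n) (fun ξ hξ => hξ.2.1) ?_
      (Set.finite_Iio n)
    intro ξ hξ ξ' hξ' h
    exact hg.inj (x i).1 ξ ξ' hξ.1 hξ'.1 h
  let D : Set Ω := {ξ | ξ < (x i).1 ∧ (x i).2 ξ ≠ 0 ∧ q ξ = 0}
  have hD : D.Finite := (x i).2.hasFiniteSupport.subset fun ξ hξ => hξ.2.1
  have h4 : ∀ᶠ j in (hyperfilter ℕ : Filter ℕ), ∀ ξ ∈ K ∪ D, ξ < (x j).1 ∧ n ≤ g (x j).1 ξ := by
    rw [Set.Finite.eventually_all (hK.union hD)]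
    rintro ξ (hξ | hξ)
    · exact h2 ξ hξ.2.2 ⟨i, hξ.1⟩
    · exact h2 ξ (fun hE' => hξ.2.1 (hi' ξ hE' hξ.2.2)) ⟨i, hξ.1⟩
  have h5 : ∀ᶠ j in (hyperfilter ℕ : Filter ℕ), i < j :=
    Nat.hyperfilter_le_atTop (eventually_gt_atTop i)
  obtain ⟨j, ⟨hj1, hj2⟩, hj3⟩ := ((h3.and h4).and h5).exists
  have hlt : (x i).1 < (x j).1 := hb hj3
  let Δ : Set Ω := {ξ | ξ < (x i).1 ∧ q ξ = 0 ∧ ((x i).2 ξ ≠ 0 ∨ g (x i).1 ξ ≠ g (x j).1 ξ)}
  have hΔ : Δ.Finite := by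
    refine (hD.union (hg.coh _ _ hlt)).subset ?_
    rintro ξ ⟨h6, h7, h8 | h8⟩
    · exact Or.inl ⟨h6, h8, h7⟩
    · exact Or.inr ⟨h6, h8⟩
  let hi₂ : Ω → ℕ := fun ξ =>
    if (x i).2 ξ = 0 then max (g (x i).1 ξ) (g (x j).1 ξ) else g (x j).1 ξ
  let rhs : Ω → (ℕ → ℤ) → ℤ := fun ξ c =>
    if (x i).2 ξ = 0 then c (min (g (x i).1 ξ) (g (x j).1 ξ)) else dz ((x i).2 ξ)
  obtain ⟨c₁, hc1, hc2⟩ := solve2 Δ hi₂ rhs n c₀ (by
      rintro ξ ⟨h6, h7, h8⟩ c c' hcc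
      by_cases h9 : (x i).2 ξ = 0
      · simp only [rhs, hi₂, if_pos h9] at hcc ⊢
        apply hcc
        rcases h8 with h8 | h8
        · exact absurd h9 h8
        · exact min_lt_max.2 h8
      · simp only [rhs, if_neg h9]) (by
      rintro ξ ⟨h6, h7, h8⟩
      by_cases h9 : (x i).2 ξ = 0
      · simp only [hi₂, if_pos h9]
        have h10 : g (x i).1 ξ ≠ g (x j).1 ξ := by
          rcases h8 with h8 | h8
          · exact absurd h9 h8
          · exact h8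
        by_cases hξE : ξ ∈ E
        · exact absurd ((hi ξ hξE).2.trans (hj1 ξ hξE).2.symm) h10
        · by_cases hξn : g (x i).1 ξ < n
          · exact (hj2 ξ (Or.inl ⟨h6, hξn, hξE⟩)).2.trans (le_max_right _ _)
          · exact (not_lt.1 hξn).trans (le_max_left _ _)
      · simp only [hi₂, if_neg h9]
        exact (hj2 ξ (Or.inr ⟨h6, h9, h7⟩)).2) (by
      rintro ξ ⟨h6, h7, h8⟩ ξ' ⟨h6', h7', h8'⟩ h
      by_cases h9 : (x i).2 ξ = 0
      · have h10 : g (x i).1 ξ ≠ g (x j).1 ξ := by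
          rcases h8 with h8 | h8
          · exact absurd h9 h8
          · exact h8
        by_cases h9' : (x i).2 ξ' = 0
        · have h10' : g (x i).1 ξ' ≠ g (x j).1 ξ' := by
            rcases h8' with h8' | h8'
            · exact absurd h9' h8'
            · exact h8'
          simp only [hi₂, if_pos h9, if_pos h9'] at h
          exact hg.hi _ _ ξ ξ' hlt h6 h6' h10 h10' h
        · simp only [hi₂, if_pos h9, if_neg h9'] at h
          exact hg.hi2 _ _ ξ ξ' hlt h6 h6' h10 h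
      · by_cases h9' : (x i).2 ξ' = 0
        · have h10' : g (x i).1 ξ' ≠ g (x j).1 ξ' := by
            rcases h8' with h8' | h8'
            · exact absurd h9' h8'
            · exact h8'
          simp only [hi₂, if_neg h9, if_pos h9'] at h
          exact (hg.hi2 _ _ ξ' ξ hlt h6' h6 h10' h.symm).symm
        · simp only [hi₂, if_neg h9, if_neg h9'] at h
          exact hg.inj _ ξ ξ' (h6.trans hlt) (h6'.trans hlt) h)
  obtain ⟨m, hm⟩ : ∃ m : ℕ, ∀ ξ ∈ Δ, max (g (x i).1 ξ) (g (x j).1 ξ) < m := by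
    obtain ⟨m, hm⟩ := (hΔ.image fun ξ => max (g (x i).1 ξ) (g (x j).1 ξ)).bddAbove
    exact ⟨m + 1, fun ξ hξ => Nat.lt_succ_of_le (hm ⟨ξ, hξ, rfl⟩)⟩
  refine ⟨m, c₁, hc1, fun c hc => ⟨i, j, hj3, fun ξ hξ => ?_⟩⟩
  by_cases hq : q ξ = 0
  · have hj0 : (x j).2 ξ = 0 := by
      by_contra hne
      exact absurd hξ (not_lt.2 (hx.tail i j ξ hj3 hne hq))
    by_cases hΔξ : ξ ∈ Δ
    · have h6 := hm ξ hΔξ
      rw [max_lt_iff] at h6
      have h7 := hc2 ξ hΔξ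
      by_cases h9 : (x i).2 ξ = 0
      · simp only [hi₂, rhs, if_pos h9] at h7
        simp only [nf, if_pos h9, if_pos hj0]
        rw [hc _ h6.1, hc _ h6.2]
        rcases le_total (g (x i).1 ξ) (g (x j).1 ξ) with h8 | h8
        · rw [max_eq_right h8, min_eq_left h8] at h7
          exact h7.symm
        · rw [max_eq_left h8, min_eq_right h8] at h7
          exact h7
      · simp only [hi₂, rhs, if_neg h9] at h7
        simp only [nf, if_neg h9, if_pos hj0]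
        rw [hc _ h6.2, h7]
    · have h6 : (x i).2 ξ = 0 ∧ g (x i).1 ξ = g (x j).1 ξ := by
        by_contra hcon
        apply hΔξ
        refine ⟨hξ, hq, ?_⟩
        by_contra hcon2
        push Not at hcon2
        exact hcon hcon2
      simp only [nf, if_pos h6.1, if_pos hj0]
      rw [h6.2]
  · simp only [nf, hx.root i ξ hq, hx.root j ξ hq, if_neg hq]

/-- the coherent sequence given by `c` -/
def eOf (g : Ω → Ω → ℕ) (c : ℕ → ℤ) (α ξ : Ω) : ℤ := c (g α ξ)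

theorem coh_eOf {g : Ω → Ω → ℕ} (hg : IsG g) (c : ℕ → ℤ) : Coh (eOf g c) := by
  intro α β hαβ
  refine (hg.coh α β hαβ).subset fun ξ hξ => ⟨hξ.1, fun h => hξ.2 ?_⟩
  simp only [eOf, h]

/-- the prescribed values of a node -/
noncomputable def CT.pc {e : Ω → Ω → ℤ} (x : CT e) : Ω →₀ ℕ :=
  Finsupp.onFinset x.md.support (fun ξ => if x.md ξ = 0 then 0 else ez (x.val ξ)) (by
    intro ξ hξ
    rw [Finsupp.mem_support_iff]
    intro h
    rw [if_pos h] at hξ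
    exact hξ rfl)

theorem nf_pc {g : Ω → Ω → ℕ} {c : ℕ → ℤ} (x : CT (eOf g c)) (ξ : Ω) :
    nf g c (x.lv, x.pc) ξ = x.val ξ := by
  by_cases h : x.md ξ = 0
  · have h1 : x.pc ξ = 0 := by
      rw [CT.pc, Finsupp.onFinset_apply, if_pos h]
    simp only [nf, if_pos h1]
    rw [CT.val, h, add_zero]
    rfl
  · have h1 : x.pc ξ = ez (x.val ξ) := by
      rw [CT.pc, Finsupp.onFinset_apply, if_neg h]
    simp only [nf, h1, if_neg (ez_ne _), dz_ez]

/-- every uncountable set of nodes contains two comparable nodes -/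
def NoAnti (e : Ω → Ω → ℤ) : Prop :=
  ∀ X : Set (CT e), ¬ X.Countable → ∃ x ∈ X, ∃ y ∈ X, x < y

theorem noAnti_of_gen [WellFoundedLT Ω] (hΩ : Om1 Ω) (hclub : ClubOn Ω) (hG : Gen Ω)
    (hcd : ∃ cd : Ω × (Ω →₀ ℕ) → Ω, Function.Injective cd) :
    ∃ e : Ω → Ω → ℤ, Coh e ∧ NoAnti e := by
  classical
  obtain ⟨A, hA1, hA2⟩ := hclub
  obtain ⟨cd, hcd⟩ := hcd
  obtain ⟨r, hr⟩ := exists_rho hΩ.seg
  obtain ⟨g, hg⟩ := hr.exists_g
  have : Nonempty Ω := hΩ.nonempty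
  obtain ⟨c, hc⟩ := hG
    (fun δ c => (∃ q x, DSeq q x ∧ ∀ n, cd (x n) ∈ A δ) →
      ∃ u v, cd u ∈ A δ ∧ cd v ∈ A δ ∧ u.1 < v.1 ∧ ∀ ξ < u.1, nf g c u ξ = nf g c v ξ) (by
      intro δ c₀ n
      by_cases hex : ∃ q x, DSeq q x ∧ ∀ n, cd (x n) ∈ A δ
      · obtain ⟨q, x, hx1, hx2⟩ := hex
        obtain ⟨m, c₁, h1, h2⟩ := dense_pair hg hx1 c₀ n
        refine ⟨m, c₁, h1, fun c hc _ => ?_⟩
        obtain ⟨i, j, hij, h3⟩ := h2 c hc
        exact ⟨x i, x j, hx2 i, hx2 j, (strictMono_nat_of_lt_succ hx1.lt) hij, h3⟩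
      · exact ⟨0, c₀, fun _ _ => rfl, fun _ _ h => absurd h hex⟩)
  refine ⟨eOf g c, coh_eOf hg c, fun X hX => ?_⟩
  -- the codes
  let F : CT (eOf g c) → Ω × (Ω →₀ ℕ) := fun x => (x.lv, x.pc)
  have hF : Function.Injective F := by
    intro x y h
    have h1 : x.lv = y.lv := congrArg Prod.fst h
    refine CT.ext' h1 fun ξ _ => ?_
    rw [← nf_pc x ξ, ← nf_pc y ξ]
    exact congrArg (fun w => nf g c w ξ) h
  have hB : ¬ (F '' X).Countable := fun h =>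
    hX (Set.countable_of_injective_of_countable_image hF.injOn h)
  obtain ⟨m, hm⟩ := exists_unc hB fun w => w.2.support.card
  set B : Set (Ω × (Ω →₀ ℕ)) := {w ∈ F '' X | w.2.support.card = m} with hBdef
  let Bq : (Ω →₀ ℕ) → Set (Ω × (Ω →₀ ℕ)) := fun q => {w ∈ B | ∀ ξ, q ξ ≠ 0 → w.2 ξ = q ξ}
  let N : Set ℕ := {n | ∃ q : Ω →₀ ℕ, q.support.card = n ∧ ¬ (Bq q).Countable}
  have hN0 : N.Nonempty := by
    refine ⟨0, 0, by simp, fun h => hm (h.mono ?_)⟩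
    intro w hw
    exact ⟨hw, fun ξ hξ => absurd rfl hξ⟩
  have hNfin : N.Finite := by
    refine (Set.finite_Iic m).subset ?_
    rintro n ⟨q, rfl, hq⟩
    have h1 : (Bq q).Nonempty := by
      by_contra hcon
      rw [not_nonempty_iff_eq_empty] at hcon
      rw [hcon] at hq
      exact hq countable_empty
    obtain ⟨w, hw1, hw2⟩ := h1
    have h2 : q.support ⊆ w.2.support := by
      intro ξ hξ
      rw [Finsupp.mem_support_iff] at hξ ⊢
      rw [hw2 ξ hξ]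
      exact hξ
    have h3 := Finset.card_le_card h2
    rw [hw1.2] at h3
    exact h3
  obtain ⟨n₀, ⟨q, hq1, hq2⟩, hmax⟩ := hNfin.exists_maximal hN0
  have hsing : ∀ ξ v, q ξ = 0 → v ≠ 0 → {w ∈ Bq q | w.2 ξ = v}.Countable := by
    intro ξ v hξ hv
    by_contra hcon
    let q' : Ω →₀ ℕ := q + Finsupp.single ξ v
    have h1 : ∀ ζ, q' ζ = if ζ = ξ then v else q ζ := by
      intro ζ
      rw [Finsupp.add_apply]
      split_ifs with h
      · rw [h, hξ, Finsupp.single_eq_same, zero_add]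
      · rw [Finsupp.single_eq_of_ne h, add_zero]
    have h2 : q'.support = insert ξ q.support := by
      ext ζ
      rw [Finsupp.mem_support_iff, Finset.mem_insert, Finsupp.mem_support_iff, h1]
      split_ifs with h
      · simp [h, hv]
      · simp [h]
    have h3 : q'.support.card = n₀ + 1 := by
      rw [h2, Finset.card_insert_of_notMem, hq1]
      rw [Finsupp.mem_support_iff, not_not]
      exact hξ
    have h4 : n₀ + 1 ∈ N := by
      refine ⟨q', h3, fun h => hcon (h.mono ?_)⟩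
      rintro w ⟨⟨hw1, hw2⟩, hw3⟩
      refine ⟨hw1, fun ζ hζ => ?_⟩
      rw [h1] at hζ ⊢
      split_ifs at hζ ⊢ with h
      · rw [h]
        exact hw3
      · exact hw2 ζ hζ
    have h5 := hmax h4 (Nat.le_succ n₀)
    omega
  let P : Ω → Ω × (Ω →₀ ℕ) → Prop := fun η w =>
    w ∈ Bq q ∧ η < w.1 ∧ η < cd w ∧ ∀ ξ, w.2 ξ ≠ 0 → q ξ = 0 → η ≤ ξ
  have hP : ∀ η, ∃ w, P η w := by
    intro η
    by_contra hcon
    push Not at hcon
    apply hq2
    have h1 : {w ∈ F '' X | w.1 ≤ η}.Countable := by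
      refine ((CT.countable_le (e := eOf g c) hΩ η).image F).mono ?_
      rintro _ ⟨⟨x, hx, rfl⟩, h⟩
      exact ⟨x, h, rfl⟩
    have h2 : {w : Ω × (Ω →₀ ℕ) | cd w ≤ η}.Countable :=
      Set.MapsTo.countable_of_injOn (f := cd) (t := Iic η) (fun α hα => hα) hcd.injOn (hΩ.iic η)
    have h3 : (⋃ ξ ∈ Iio η, ⋃ v : ℕ, {w ∈ Bq q | q ξ = 0 ∧ v ≠ 0 ∧ w.2 ξ = v}).Countable := by
      refine (hΩ.seg η).biUnion fun ξ _ => countable_iUnion fun v => ?_
      by_cases h4 : q ξ = 0 ∧ v ≠ 0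
      · refine (hsing ξ v h4.1 h4.2).mono ?_
        intro w hw
        exact ⟨hw.1, hw.2.2.2⟩
      · convert Set.countable_empty
        rw [Set.eq_empty_iff_forall_notMem]
        intro w hw
        exact h4 ⟨hw.2.1, hw.2.2.1⟩
    refine ((h1.union h2).union h3).mono fun w hw => ?_
    by_cases h4 : w.1 ≤ η
    · exact Or.inl (Or.inl ⟨hw.1.1, h4⟩)
    · by_cases h5 : cd w ≤ η
      · exact Or.inl (Or.inr h5)
      · right
        have h6 := hcon w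
        simp only [P, not_and, not_forall] at h6
        obtain ⟨ξ, h7, h8, h9⟩ := h6 hw (not_le.1 h4) (not_le.1 h5)
        simp only [mem_iUnion]
        exact ⟨ξ, not_le.1 h9, w.2 ξ, hw, h8, h7, rfl⟩
  obtain ⟨w, hw1, hw2⟩ := exists_sep hΩ P hP (by
    rintro η η' w hηη ⟨h1, h2, h3, h4⟩
    exact ⟨h1, hηη.trans_lt h2, hηη.trans_lt h3, fun ξ h5 h6 => hηη.trans (h4 ξ h5 h6)⟩)
    (fun w => max w.1 (cd w))
  have hXc : ¬ (range fun β => cd (w β)).Countable := by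
    apply hΩ.of_unb
    intro b
    exact ⟨_, ⟨b, rfl⟩, (hw1 b).2.2.1.le⟩
  obtain ⟨δ, hδ, hAδ⟩ := hA2 _ hXc
  obtain ⟨a, ha1, ha2, -⟩ := ladder_seq hΩ hδ (hA1 δ hδ).1 (hA1 δ hδ).2
  have hβ : ∀ n, ∃ β, cd (w β) = a n := fun n => hAδ (ha2 n)
  choose β hβ using hβ
  have hβm : ∀ n, β n < β (n + 1) := by
    intro n
    have h1 := ha1 (Nat.lt_succ_self n)
    rw [← hβ, ← hβ] at h1
    rcases lt_trichotomy (β n) (β (n + 1)) with h | h | h
    · exact h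
    · rw [h] at h1
      exact absurd h1 (lt_irrefl _)
    · have h2 := (hw2 _ _ h).2.2.1
      exact absurd (((le_max_right _ _).trans_lt h2).trans h1) (lt_irrefl _)
  have hβm' : StrictMono β := strictMono_nat_of_lt_succ hβm
  have hseq : DSeq q fun n => w (β n) := by
    refine ⟨fun n => ?_, fun n ξ hξ => (hw1 (β n)).1.2 ξ hξ, fun i j ξ hij h1 h2 => ?_⟩
    · exact (le_max_left _ _).trans_lt (hw2 _ _ (hβm n)).2.1
    · exact (le_max_left _ _).trans ((hw2 _ _ (hβm' hij)).2.2.2 ξ h1 h2)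
  obtain ⟨u, v, hu, hv, huv, huv2⟩ := hc δ ⟨q, _, hseq, fun n => by
    rw [hβ]
    exact ha2 n⟩
  have hback : ∀ u, cd u ∈ A δ → ∃ x ∈ X, F x = u := by
    intro u hu
    obtain ⟨b, hb⟩ := hAδ hu
    have h1 := (hw1 b).1.1.1
    rw [hcd hb] at h1
    exact h1
  obtain ⟨x, hx, rfl⟩ := hback u hu
  obtain ⟨y, hy, rfl⟩ := hback v hv
  refine ⟨x, hx, y, hy, CT.lt_iff.2 ⟨huv, fun ξ hξ => ?_⟩⟩
  rw [← nf_pc x ξ, ← nf_pc y ξ]
  exact huv2 ξ hξ

/-- trees without uncountable antichains have the splitting property -/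
theorem split_of_noAnti [WellFoundedLT Ω] (hΩ : Om1 Ω) {e : Ω → Ω → ℤ} (he : Coh e)
    (hna : NoAnti e) : Split e := by
  classical
  intro Y hlow hY k
  -- a full cone
  have hcone : ∃ t ∈ Y, ∀ s, t ≤ s → s ∈ Y := by
    by_contra hcon
    push Not at hcon
    have h1 : ∀ t : CT e, ∃ s, t ∈ Y → t ≤ s ∧ s ∉ Y := by
      intro t
      by_cases ht : t ∈ Y
      · obtain ⟨s, hs1, hs2⟩ := hcon t ht
        exact ⟨s, fun _ => ⟨hs1, hs2⟩⟩
      · exact ⟨t, fun h => absurd h ht⟩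
    choose f hf using h1
    obtain ⟨y₀, hy₀, -⟩ := CT.exists_gt hΩ hY hΩ.nonempty.some
    have : Nonempty (CT e) := ⟨y₀⟩
    obtain ⟨w, hw1, hw2⟩ := exists_sep hΩ (fun η (t : CT e) => t ∈ Y ∧ η < t.lv)
      (fun η => CT.exists_gt hΩ hY η) (by
        rintro η η' w hηη ⟨h2, h3⟩
        exact ⟨h2, hηη.trans_lt h3⟩) (fun t => (f t).lv)
    have hX : ¬ (range fun β => f (w β)).Countable := by
      apply CT.of_unb hΩ
      intro b
      exact ⟨_, ⟨b, rfl⟩, (hw1 b).2.le.trans (hf _ (hw1 b).1).1.1⟩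
    obtain ⟨_, ⟨β, rfl⟩, _, ⟨β', rfl⟩, hlt⟩ := hna _ hX
    simp only at hlt
    rcases lt_trichotomy β β' with h | h | h
    · have h2 := (hw2 β β' h).2
      have h3 : f (w β) ≤ w β' := CT.lin hlt.le (hf _ (hw1 β').1).1 h2.le
      exact (hf _ (hw1 β).1).2 (hlow h3 (hw1 β').1)
    · rw [h] at hlt
      exact lt_irrefl _ hlt
    · have h2 := (hw2 β' β h).2
      have h3 : (w β).lv ≤ (f (w β)).lv := (hf _ (hw1 β).1).1.1
      exact absurd ((h2.trans_le h3).trans (CT.lt_iff.1 hlt).1) (lt_irrefl _)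
  obtain ⟨t, ht, hcone⟩ := hcone
  refine (hΩ.seg t.lv).mono fun ξ hξ => ?_
  by_contra hcon
  have hle : t.lv ≤ ξ := not_lt.1 hcon
  obtain ⟨β, hβ⟩ := hΩ.exists_gt ξ
  -- the extensions of `t`
  have hfin1 : ∀ γ, {η | η < t.lv ∧ η < γ ∧ t.val η ≠ e γ η}.Finite := by
    intro γ
    refine ((t.fin he le_rfl).union (he.symm t.lv γ)).subset ?_
    rintro η ⟨h1, h2, h3⟩
    by_cases h4 : t.val η = e t.lv η
    · rw [h4] at h3
      exact Or.inr ⟨h1, h2, h3⟩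
    · exact Or.inl ⟨h1, h4⟩
  let u : Ω → ℤ := fun η => if η < t.lv then t.val η else e β η
  have hu : {η | η < ξ ∧ u η ≠ e ξ η}.Finite := by
    refine ((hfin1 ξ).union (he.symm β ξ)).subset ?_
    rintro η ⟨h1, h2⟩
    by_cases h3 : η < t.lv
    · simp only [u, if_pos h3] at h2
      exact Or.inl ⟨h3, h1, h2⟩
    · simp only [u, if_neg h3] at h2
      exact Or.inr ⟨h1.trans hβ, h1, h2⟩
  have hum : ∀ m : ℤ, {η | η < β ∧ Function.update u ξ m η ≠ e β η}.Finite := by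
    intro m
    refine ((hfin1 β).union (Set.finite_singleton ξ)).subset ?_
    rintro η ⟨h1, h2⟩
    by_cases h4 : η = ξ
    · exact Or.inr h4
    · rw [Function.update_of_ne h4] at h2
      by_cases h3 : η < t.lv
      · simp only [u, if_pos h3] at h2
        exact Or.inl ⟨h3, h1, h2⟩
      · simp only [u, if_neg h3] at h2
        exact absurd rfl h2
  have hx : t ≤ CT.mk' e ξ u := by
    refine ⟨hle, fun η hη => ?_⟩
    rw [CT.mk'_val hu (hη.trans_le hle)]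
    simp only [u, if_pos hη]
  have hy : ∀ m : ℤ, CT.mk' e ξ u < CT.mk' e β (Function.update u ξ m) := by
    intro m
    refine CT.lt_iff.2 ⟨hβ, fun η hη => ?_⟩
    have hη' : η < ξ := hη
    rw [CT.mk'_val hu hη', CT.mk'_val (hum m) (hη'.trans hβ), Function.update_of_ne hη'.ne]
  refine hξ (CT.mk' e ξ u) (hcone _ hx) rfl ?_
  obtain ⟨M, -, hM⟩ := Set.Infinite.exists_subset_card_eq (s := (univ : Set ℤ)) Set.infinite_univ k
  refine ⟨M, hM, fun m _ => ⟨_, hcone _ (hx.trans (hy m).le), hy m, ?_⟩⟩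
  rw [CT.mk'_val (hum m) hβ, Function.update_self]

end Run7.h95
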