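import Pool.Agent.Run7.h95.TreeA
import Pool.Agent.Run7.h95.ClubW

/-!
# A Souslin tree, or a covering of the Cantor space by few nowhere dense sets
-/

set_option autoImplicit false

namespace Run7.h95

open Set Cardinal

/-- A family `S` of infinite countable subsets of `ω₁` such that every uncountable subset of `ω₁`
contains a member of `S`. -/
structure IsStick (S : Set (Set W)) : Prop where
  inf : ∀ s ∈ S, s.Infinite
  ctb : ∀ s ∈ S, s.Countable
  guess : ∀ X : Set W, ¬ X.Countable → ∃ s ∈ S, s ⊆ X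

theorem Lim.infinite {Ω : Type} [LinearOrder Ω] {α : Ω} {s : Set Ω} (hα : Lim α)
    (hs : s ⊆ Iio α) (hs2 : ∀ β < α, ∃ γ ∈ s, β < γ) : s.Infinite := by
  intro hfin
  obtain ⟨β, hβ⟩ := hα.1
  obtain ⟨γ₀, hγ₀, -⟩ := hs2 β hβ
  obtain ⟨m, hm1, hm2⟩ := hfin.exists_maximal ⟨γ₀, hγ₀⟩
  obtain ⟨γ, hγ, hγ2⟩ := hs2 m (hs hm1)
  exact absurd (hm2 hγ hγ2.le) (not_le.2 hγ2)

theorem mk_W : #W = ℵ₁ := by
  rw [mk_toType, Ordinal.card_omega]

theorem stick_of_club (h : Club) : ∃ S : Set (Set W), #S ≤ ℵ₁ ∧ IsStick S := by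
  obtain ⟨A, hA1, hA2⟩ := clubOn_W h
  refine ⟨A '' {α | Lim α}, ?_, ⟨?_, ?_, ?_⟩⟩
  · exact mk_image_le.trans ((mk_set_le _).trans mk_W.le)
  · rintro _ ⟨α, hα, rfl⟩
    exact Lim.infinite hα (hA1 α hα).1 (hA1 α hα).2
  · rintro _ ⟨α, hα, rfl⟩
    exact (om1_W.seg α).mono (hA1 α hα).1
  · intro X hX
    obtain ⟨α, hα, hαX⟩ := hA2 X hX
    exact ⟨_, ⟨α, hα, rfl⟩, hαX⟩

/-- If there is no Souslin tree then the Cantor space is covered by as many nowhere dense sets as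
there are members in a stick family. -/
theorem cover_of_stick {κ : Cardinal.{0}} (hκ : ℵ₁ ≤ κ) {S : Set (Set W)} (hS : #S ≤ κ)
    (hst : IsStick S) (hns : ¬ ExistsSouslinTree) :
    ∃ N : Set (Set (ℕ → Bool)), #N ≤ κ ∧ (∀ s ∈ N, IsNowhereDense s) ∧ ⋃₀ N = Set.univ := by
  classical
  obtain ⟨r, hr⟩ := exists_rho om1_W.seg
  obtain ⟨g, hg⟩ := hr.exists_g
  let F : S ⊕ (S × W × Bool) → Set (ℕ → Bool) := fun x => match x with
    | Sum.inl s => NA g Bool s.1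
    | Sum.inr p => if ∀ ξ ∈ p.1.1, ξ < p.2.1 then NB g p.1.1 p.2.1 p.2.2 else ∅
  have hinf : ℵ₀ ≤ κ := (aleph0_le_aleph 1).trans hκ
  have hS0 : #S * #(W × Bool) ≤ κ := by
    refine (mul_le_mul' hS ?_).trans (mul_eq_self hinf).le
    rw [mk_prod, lift_id, lift_id, mk_W]
    refine (mul_le_mul' hκ ((mk_le_aleph0 (α := Bool)).trans hinf)).trans (mul_eq_self hinf).le
  refine ⟨range F, ?_, ?_, ?_⟩
  · refine mk_range_le.trans ?_
    rw [mk_sum, lift_id, lift_id, mk_prod (α := S), lift_id, lift_id]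
    exact (add_le_add hS hS0).trans (add_eq_self hinf).le
  · rintro _ ⟨x, rfl⟩
    rcases x with s | p
    · exact nwd_NA hg (hst.inf s.1 s.2)
    · show IsNowhereDense (if ∀ ξ ∈ p.1.1, ξ < p.2.1 then NB g p.1.1 p.2.1 p.2.2 else ∅)
      split_ifs with h
      · exact nwd_NB hg (hst.inf p.1.1 p.1.2) h p.2.2
      · exact isNowhereDense_empty
  · rw [eq_univ_iff_forall]
    intro c
    by_contra hc
    rw [mem_sUnion] at hc
    push Not at hc
    apply hns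
    refine ⟨Tr g c, inferInstance, souslin_Tr om1_W S hst.ctb hst.guess c ?_ ?_⟩
    · intro s hs
      exact hc _ ⟨Sum.inl ⟨s, hs⟩, rfl⟩
    · intro s hs β hβ b
      have h1 := hc (F (Sum.inr (⟨s, hs⟩, β, b))) ⟨Sum.inr (⟨s, hs⟩, β, b), rfl⟩
      have h2 : F (Sum.inr (⟨s, hs⟩, β, b)) = NB g s β b := if_pos hβ
      rw [h2] at h1
      exact h1

end Run7.h95
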