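import Pool.Agent.Run7.h95.DefsA
import Pool.Agent.Run7.h95.Case1
import Pool.Agent.Run7.h95.CovM

/-!
# The club principle gives an Aronszajn tree that splits everywhere
-/

set_option autoImplicit false

namespace Run7.h95

open Set Ordinal

theorem height_unique {T : Type} [PartialOrder T] {t : T} {α β : Ordinal.{0}}
    (h1 : HasHeight t α) (h2 : HasHeight t β) : α = β := by
  have key : ∀ α β : Ordinal.{0}, HasHeight t α → HasHeight t β → ¬ α < β := by
    rintro α β ⟨f⟩ ⟨g⟩ hlt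
    let h : Iio β → Iio β := fun x => ⟨(f (g.symm x)).1, (f (g.symm x)).2.trans hlt⟩
    have hh : StrictMono h := by
      intro x y hxy
      have h3 : f (g.symm x) < f (g.symm y) := f.lt_iff_lt.2 (g.symm.lt_iff_lt.2 hxy)
      exact h3
    have h4 := hh.le_apply (x := (⟨α, hlt⟩ : Iio β))
    have h5 : α ≤ (f (g.symm ⟨α, hlt⟩)).1 := h4
    exact absurd (f (g.symm ⟨α, hlt⟩)).2 (not_lt.2 h5)
  rcases lt_trichotomy α β with h | h | h
  · exact absurd h (key α β h1 h2)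
  · exact h
  · exact absurd h (key β α h2 h1)

section

variable {e : W → W → ℤ}

theorem CT.rk_eq (he : Coh e) (x : CT e) : rk x = (ToType.toOrd x.lv).1 := by
  induction x using WellFoundedLT.induction with
  | ind x ih =>
    have hle : rk x ≤ (ToType.toOrd x.lv).1 := by
      by_contra hcon
      push Not at hcon
      obtain ⟨y, hy1, hy2⟩ := exists_rk x _ hcon
      rw [ih y hy1] at hy2
      have h1 : ToType.toOrd y.lv < ToType.toOrd x.lv :=
        (OrderIso.lt_iff_lt _).2 (CT.lt_iff.1 hy1).1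
      exact absurd hy2 (ne_of_lt h1)
    refine le_antisymm hle ?_
    by_contra hcon
    push Not at hcon
    have h1 : rk x < ω_ 1 := hcon.trans (ToType.toOrd x.lv).2
    have h2 : ToType.mk ⟨rk x, h1⟩ < x.lv := by
      rw [← (ToType.mk (o := ω_ 1)).symm.lt_iff_lt, OrderIso.symm_apply_apply]
      exact hcon
    have h3 := ih _ (x.res_lt he h2)
    rw [CT.res_lv] at h3
    have h4 : ((ToType.mk (o := ω_ 1)).symm (ToType.mk ⟨rk x, h1⟩)).1 = rk x := by
      rw [OrderIso.symm_apply_apply]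
    have h5 := rk_lt (x.res_lt he h2)
    rw [h3] at h5
    exact absurd h4 (ne_of_lt h5)

theorem CT.hlin : ∀ t s s' : CT e, s < t → s' < t → s ≤ s' ∨ s' ≤ s := by
  intro t s s' h1 h2
  rcases le_total s.lv s'.lv with h | h
  · exact Or.inl (CT.lin h1.le h2.le h)
  · exact Or.inr (CT.lin h2.le h1.le h)

theorem CT.hasHeight (he : Coh e) (x : CT e) : HasHeight x (ToType.toOrd x.lv).1 := by
  rw [← CT.rk_eq he x]
  exact Run7.h95.hasHeight CT.hlin x

theorem aronszajn_of_split (he : Coh e) (hs : Split e) : IsAronszajnTree (CT e) := by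
  classical
  refine ⟨fun t => ⟨_, (ToType.toOrd t.lv).2, CT.hasHeight he t⟩, fun α hα => ?_,
    fun α hα => ?_, fun C hC => ?_⟩
  · refine ⟨CT.mk' e (ToType.mk ⟨α, hα⟩) (e (ToType.mk ⟨α, hα⟩)), ?_⟩
    have h1 := CT.hasHeight he (CT.mk' e (ToType.mk ⟨α, hα⟩) (e (ToType.mk ⟨α, hα⟩)))
    rw [CT.mk'_lv] at h1
    have h2 : (ToType.toOrd (ToType.mk (o := ω_ 1) ⟨α, hα⟩)).1 = α := by
      show ((ToType.mk (o := ω_ 1)).symm (ToType.mk ⟨α, hα⟩)).1 = α
      rw [OrderIso.symm_apply_apply]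
    rw [h2] at h1
    exact h1
  · refine (CT.countable_le om1_W (ToType.mk ⟨α, hα⟩)).mono fun t ht => ?_
    have h1 := height_unique ht (CT.hasHeight he t)
    show t.lv ≤ ToType.mk ⟨α, hα⟩
    rw [← (ToType.mk (o := ω_ 1)).symm.le_iff_le, OrderIso.symm_apply_apply]
    exact h1.ge
  · by_contra hunc
    let Y : Set (CT e) := {x | ∃ y ∈ C, x ≤ y}
    have hlow : IsLowerSet Y := by
      rintro a b hab ⟨y, hy, hy2⟩
      exact ⟨y, hy, hab.trans hy2⟩
    have hY : ¬ Y.Countable := by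
      intro h
      apply hunc
      refine h.mono ?_
      intro x hx
      exact ⟨x, hx, le_rfl⟩
    have h1 := hs Y hlow hY 2
    have h2 : ∃ ξ : W, ¬ ∀ x ∈ Y, x.lv = ξ → ¬ ∃ M : Finset ℤ, M.card = 2 ∧
      ∀ m ∈ M, ∃ y ∈ Y, x < y ∧ y.val ξ = m := by
      by_contra hcon
      push Not at hcon
      refine om1_W.unc (h1.mono fun ξ _ => ?_)
      intro x hx hxl hM
      obtain ⟨M, hM1, hM2⟩ := hM
      obtain ⟨m, hm, hm2⟩ := hcon ξ x hx hxl M hM1
      obtain ⟨y, hy1, hy2, hy3⟩ := hM2 m hm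
      exact hm2 y hy1 hy2 hy3
    obtain ⟨ξ, hξ⟩ := h2
    push Not at hξ
    obtain ⟨x, hx, hxl, M, hM1, hM2⟩ := hξ
    obtain ⟨m, m', hmm, rfl⟩ := Finset.card_eq_two.1 hM1
    obtain ⟨y, hy1, hy2, hy3⟩ := hM2 m (by simp)
    obtain ⟨y', hy1', hy2', hy3'⟩ := hM2 m' (by simp)
    have hξy : ξ < y.lv := hxl ▸ (CT.lt_iff.1 hy2).1
    have hξy' : ξ < y'.lv := hxl ▸ (CT.lt_iff.1 hy2').1
    have hcomp : y ≤ y' ∨ y' ≤ y := by
      obtain ⟨z, hz1, hz2⟩ := hy1
      obtain ⟨z', hz1', hz2'⟩ := hy1'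
      have h3 : ∃ w, y ≤ w ∧ y' ≤ w := by
        rcases hC.total hz1 hz1' with h | h
        · exact ⟨z', hz2.trans h, hz2'⟩
        · exact ⟨z, hz2, hz2'.trans h⟩
      obtain ⟨w, hw1, hw2⟩ := h3
      rcases le_total y.lv y'.lv with h | h
      · exact Or.inl (CT.lin hw1 hw2 h)
      · exact Or.inr (CT.lin hw2 hw1 h)
    apply hmm
    rcases hcomp with h | h
    · rw [← hy3, ← hy3']
      exact h.2 ξ hξy
    · rw [← hy3, ← hy3']
      exact (h.2 ξ hξy').symm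

theorem splits_of_split (he : Coh e) (hs : Split e) : SplitsEverywhere (CT e) := by
  classical
  intro Y hlow hY k
  obtain ⟨b, hb⟩ := om1_W.bdd (hs Y hlow hY k)
  refine ⟨(ToType.toOrd b).1, (ToType.toOrd b).2, fun β hβ hle => ?_⟩
  set ξ : W := ToType.mk ⟨β, hβ⟩ with hξdef
  have hξo : (ToType.toOrd ξ).1 = β := by
    have h2 : ((ToType.mk (o := ω_ 1)).symm (ToType.mk ⟨β, hβ⟩)).1 = β := by
      rw [OrderIso.symm_apply_apply]
    exact h2
  have hbξ : b ≤ ξ := by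
    rw [← (ToType.mk (o := ω_ 1)).symm.le_iff_le]
    show (ToType.toOrd b).1 ≤ (ToType.toOrd ξ).1
    rw [hξo]
    exact hle
  have hnot : ¬ ∀ x ∈ Y, x.lv = ξ → ¬ ∃ M : Finset ℤ, M.card = k ∧
      ∀ m ∈ M, ∃ y ∈ Y, x < y ∧ y.val ξ = m := fun h => absurd (hb ξ h) (not_lt.2 hbξ)
  push Not at hnot
  obtain ⟨x, hx, hxl, M, hM1, hM2⟩ := hnot
  -- the next level
  obtain ⟨ξ', hξ1, hξ2⟩ : ∃ ξ', ξ < ξ' ∧ ∀ η, ξ < η → ξ' ≤ η := by
    obtain ⟨m, hm1, hm2⟩ := (wellFounded_lt (α := W)).has_min {η | ξ < η} (om1_W.exists_gt ξ)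
    exact ⟨m, hm1, fun η hη => not_lt.1 (hm2 η hη)⟩
  have hsucc : ∀ m : ℤ, ∃ s : CT e, m ∈ M → s ∈ Y ∧ x ⋖ s ∧ s.val ξ = m := by
    intro m
    by_cases hm : m ∈ M
    · obtain ⟨y, hy1, hy2, hy3⟩ := hM2 m hm
      have h1 := CT.lt_iff.1 hy2
      rw [hxl] at h1
      have h2 : ξ' ≤ y.lv := hξ2 _ h1.1
      refine ⟨y.res ξ', fun _ => ⟨hlow (y.res_le he h2) hy1, ⟨?_, ?_⟩, ?_⟩⟩
      · refine CT.lt_iff.2 ⟨by rw [hxl]; exact hξ1, fun η hη => ?_⟩
        rw [hxl] at hη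
        rw [y.res_val he h2 (hη.trans hξ1)]
        exact h1.2 η hη
      · intro z hz1 hz2
        have h3 := (CT.lt_iff.1 hz1).1
        have h4 := (CT.lt_iff.1 hz2).1
        rw [hxl] at h3
        rw [CT.res_lv] at h4
        exact absurd (hξ2 _ h3) (not_le.2 h4)
      · rw [y.res_val he h2 hξ1]
        exact hy3
    · exact ⟨x, fun h => absurd h hm⟩
  choose f hf using hsucc
  refine ⟨x, hx, ?_, M.image f, ?_, ?_⟩
  · have h1 := CT.hasHeight he x
    rw [hxl, hξo] at h1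
    exact h1
  · rw [Finset.card_image_of_injOn, hM1]
    intro m hm m' hm' h
    rw [← (hf m hm).2.2, ← (hf m' hm').2.2, h]
  · intro s hs'
    obtain ⟨m, hm, rfl⟩ := Finset.mem_image.1 hs'
    exact ⟨(hf m hm).1, (hf m hm).2.1⟩

end

theorem W_codes : (∃ φ : W → W × ℕ, Function.Surjective φ) ∧
    (∃ cd : W × Finset W × W → W, Function.Injective cd) ∧
    (∃ cd : W × (W →₀ ℕ) → W, Function.Injective cd) := by
  have h1 : Cardinal.aleph0 ≤ Cardinal.mk W := by
    rw [mk_W]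
    exact Cardinal.aleph0_le_aleph 1
  have hinf : Infinite W := Cardinal.infinite_iff.2 h1
  refine ⟨?_, ?_, ?_⟩
  · have h2 : Cardinal.mk (W × ℕ) = Cardinal.mk W := by
      rw [Cardinal.mk_prod, Cardinal.lift_id, Cardinal.lift_id, Cardinal.mk_nat]
      exact Cardinal.mul_aleph0_eq h1
    obtain ⟨f⟩ := Cardinal.eq.1 h2.symm
    exact ⟨f, f.surjective⟩
  · have h2 : Cardinal.mk (W × Finset W × W) = Cardinal.mk W := by
      rw [Cardinal.mk_prod, Cardinal.mk_prod, Cardinal.mk_finset_of_infinite]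
      simp only [Cardinal.lift_id]
      rw [Cardinal.mul_eq_self h1, Cardinal.mul_eq_self h1]
    obtain ⟨f⟩ := Cardinal.eq.1 h2
    exact ⟨f, f.injective⟩
  · have h2 : Cardinal.mk (W × (W →₀ ℕ)) = Cardinal.mk W := by
      rw [Cardinal.mk_prod, Cardinal.mk_finsupp_of_infinite']
      simp only [Cardinal.lift_id]
      rw [Cardinal.mk_nat, max_eq_left h1, Cardinal.mul_eq_self h1]
    obtain ⟨f⟩ := Cardinal.eq.1 h2
    exact ⟨f, f.injective⟩

theorem exists_split (h : Club) : ∃ e : W → W → ℤ, Coh e ∧ Split e := by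
  obtain ⟨h1, h2, h3⟩ := W_codes
  rcases dichotomy h1 with hE | hG
  · exact split_of_evade om1_W (clubOn_W h) hE h2
  · obtain ⟨e, he, hna⟩ := noAnti_of_gen om1_W (clubOn_W h) hG h3
    exact ⟨e, he, split_of_noAnti om1_W he hna⟩

theorem exists_splitting_tree (h : Club) :
    ∃ (T : Type) (_ : PartialOrder T), IsAronszajnTree T ∧ SplitsEverywhere T := by
  obtain ⟨e, he, hs⟩ := exists_split h
  exact ⟨CT e, inferInstance, aronszajn_of_split he hs, splits_of_split he hs⟩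

end Run7.h95
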