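import Pool.Agent.Run7.h95.SealMain
import Pool.Agent.Run7.h95.Main

/-!
# A dominating family and a nonmeager set of size `ℵ₁` give a cofinal family of dense sets
-/

set_option autoImplicit false

namespace Run7.h95

open Set Cardinal Filter

/-- a nonmeager set contains functions infinitely often equal to a given one -/
theorem exists_io_equal {F : Set (ℕ → ℕ)} (hF : ¬ IsMeagre F) (x : ℕ → ℕ) :
    ∃ y ∈ F, {k | y k = x k}.Infinite := by
  by_contra hcon
  push Not at hcon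
  apply hF
  have h1 : IsMeagre (⋃ N : ℕ, {y : ℕ → ℕ | ∀ k, N ≤ k → y k ≠ x k}) := by
    refine isMeagre_iUnion fun N => IsNowhereDense.isMeagre ?_
    refine nwd_of _ fun c₀ n => ?_
    refine ⟨max n N + 1, Function.update c₀ (max n N) (x (max n N)), fun k hk => ?_,
      fun c hc hcN => ?_⟩
    · rw [Function.update_of_ne]
      have := le_max_left n N
      omega
    · have h2 := hc (max n N) (Nat.lt_succ_self _)
      rw [Function.update_self] at h2
      exact hcN (max n N) (le_max_right _ _) h2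
  refine h1.mono fun y hy => ?_
  obtain ⟨b, hb⟩ := (hcon y hy).bddAbove
  rw [mem_iUnion]
  refine ⟨b + 1, fun k hk h2 => ?_⟩
  have h3 : k ≤ b := hb h2
  omega

/-- a fast increasing sequence given by `a` -/
def grow (a : ℕ → ℕ) : ℕ → ℕ
  | 0 => 0
  | k + 1 => grow a k + 1 + ∑ j ∈ Finset.range (grow a k + 1), a j

theorem grow_lt (a : ℕ → ℕ) (k : ℕ) : grow a k < grow a (k + 1) := by
  have : grow a (k + 1) = grow a k + 1 + ∑ j ∈ Finset.range (grow a k + 1), a j := rfl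
  omega

theorem grow_ge (a : ℕ → ℕ) (k : ℕ) : a (grow a k) ≤ grow a (k + 1) := by
  have h1 : grow a (k + 1) = grow a k + 1 + ∑ j ∈ Finset.range (grow a k + 1), a j := rfl
  have h2 : a (grow a k) ≤ ∑ j ∈ Finset.range (grow a k + 1), a j :=
    Finset.single_le_sum (f := fun j => a j) (fun j _ => Nat.zero_le _)
      (Finset.mem_range.2 (Nat.lt_succ_self _))
  omega

theorem grow_mono (a : ℕ → ℕ) : StrictMono (grow a) := strictMono_nat_of_lt_succ (grow_lt a)

/-- iterating the moves `st k, st (k + 1), …` -/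
def run (st : ℕ → List ℕ → List ℕ) (k : ℕ) : ℕ → List ℕ → List ℕ
  | 0, s => s
  | d + 1, s => st (k + d) (run st k d s)

theorem cofDense_of (hΩ : #W = ℵ₁) {D F : Set (ℕ → ℕ)} (hD : #D ≤ ℵ₁) (hF : #F ≤ ℵ₁)
    (hdom : ∀ f : ℕ → ℕ, ∃ g ∈ D, ∀ᶠ n in atTop, f n ≤ g n) (hnm : ¬ IsMeagre F) :
    CofDense W := by
  classical
  obtain ⟨φ, hφ⟩ := exists_injective_nat (List ℕ)
  have hfin : ∀ n, {s : List ℕ | φ s ≤ n}.Finite := fun n =>
    Set.Finite.of_injOn (f := φ) (t := Iic n) (fun s hs => hs) hφ.injOn (Set.finite_Iic n)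
  obtain ⟨cx, hcx⟩ := exists_injective_nat (Finset (List ℕ × List ℕ))
  let dc : ℕ → Finset (List ℕ × List ℕ) := Function.invFun cx
  have hdc : ∀ x, dc (cx x) = x := Function.leftInverse_invFun hcx
  have hst : ∀ (y : ℕ → ℕ) (m : ℕ → ℕ), ∃ st : ℕ → List ℕ → List ℕ, ∀ k s, s <+: st k s ∧
      (m k ≤ m (k + 1) → φ s ≤ m k → φ (st k s) ≤ m (k + 1)) ∧
      ((∃ t', (s, t') ∈ dc (y k) ∧ s <+: t' ∧ φ t' ≤ m (k + 1)) → (s, st k s) ∈ dc (y k)) := by
    intro y m
    have : ∀ k s, ∃ t, s <+: t ∧ (m k ≤ m (k + 1) → φ s ≤ m k → φ t ≤ m (k + 1)) ∧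
        ((∃ t', (s, t') ∈ dc (y k) ∧ s <+: t' ∧ φ t' ≤ m (k + 1)) → (s, t) ∈ dc (y k)) := by
      intro k s
      by_cases hex : ∃ t', (s, t') ∈ dc (y k) ∧ s <+: t' ∧ φ t' ≤ m (k + 1)
      · obtain ⟨t, h1, h2, h3⟩ := hex
        exact ⟨t, h2, fun _ _ => h3, fun _ => h1⟩
      · exact ⟨s, List.prefix_rfl, fun h1 h => h.trans h1, fun h => absurd h hex⟩
    choose st hst using this
    exact ⟨st, hst⟩
  choose st hst using hst
  have hrun1 : ∀ y m k d s, s <+: run (st y m) k d s := by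
    intro y m k d s
    induction d with
    | zero => exact List.prefix_rfl
    | succ d ih => exact ih.trans (hst y m (k + d) _).1
  have hrun2 : ∀ y m k s, (∀ j, m j ≤ m (j + 1)) → φ s ≤ m k →
      ∀ d, φ (run (st y m) k d s) ≤ m (k + d) := by
    intro y m k s hm hs d
    induction d with
    | zero => exact hs
    | succ d ih => exact (hst y m (k + d) _).2.1 (hm _) ih
  have hrun3 : ∀ y m k s d d', d ≤ d' → run (st y m) k d s <+: run (st y m) k d' s := by
    intro y m k s d d' hdd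
    induction d', hdd using Nat.le_induction with
    | base => exact List.prefix_rfl
    | succ d' _ ih => exact ih.trans (hst y m (k + d') _).1
  -- the family
  let EE : (F × D × D) × ℕ → Set (List ℕ) := fun p =>
    {u | ∃ n, p.2 ≤ n ∧ ∃ s, φ s ≤ grow p.1.2.1.1 (grow p.1.2.2.1 n) ∧
      u = run (st p.1.1.1 (grow p.1.2.1.1)) (grow p.1.2.2.1 n)
        (grow p.1.2.2.1 (n + 1) - grow p.1.2.2.1 n) s}
  have hEE1 : ∀ p s, ∃ t ∈ EE p, s <+: t := by
    rintro ⟨⟨y, a, b⟩, n₀⟩ s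
    let n := max n₀ (φ s)
    refine ⟨_, ⟨n, le_max_left _ _, s, ?_, rfl⟩, hrun1 _ _ _ _ _⟩
    calc φ s ≤ n := le_max_right _ _
      _ ≤ grow b.1 n := (grow_mono _).le_apply
      _ ≤ grow a.1 (grow b.1 n) := (grow_mono _).le_apply
  have hEE2 : ∀ D' : Set (List ℕ), (∀ s, ∃ t ∈ D', s <+: t) →
      (∀ s t, s ∈ D' → s <+: t → t ∈ D') → ∃ p, EE p ⊆ D' := by
    intro D' hD1 hD2
    choose f hf1 hf2 using hD1
    have hH : ∀ n, ∃ b : ℕ, ∀ s, φ s ≤ n → φ (f s) ≤ b := by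
      intro n
      obtain ⟨b, hb⟩ := ((hfin n).image fun s => φ (f s)).bddAbove
      exact ⟨b, fun s hs => hb ⟨s, hs, rfl⟩⟩
    choose H hH using hH
    obtain ⟨a, ha, haH⟩ := hdom H
    obtain ⟨K, hK⟩ := eventually_atTop.1 haH
    let x : ℕ → ℕ := fun k => cx ((hfin (grow a k)).toFinset.image fun s => (s, f s))
    obtain ⟨y, hy, hyx⟩ := exists_io_equal hnm x
    have hG : ∀ j, ∃ k, j ≤ k ∧ y k = x k := fun j => by
      obtain ⟨k, hk1, hk2⟩ := hyx.exists_gt j
      exact ⟨k, hk2.le, hk1⟩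
    choose G hG1 hG2 using hG
    obtain ⟨b, hb, hbG⟩ := hdom fun j => G j + 1
    obtain ⟨K', hK'⟩ := eventually_atTop.1 hbG
    refine ⟨((⟨y, hy⟩, ⟨a, ha⟩, ⟨b, hb⟩), max K K'), ?_⟩
    rintro u ⟨n, hn, s, hs, rfl⟩
    simp only at hn hs ⊢
    have hn1 : n ≤ grow b n := (grow_mono b).le_apply
    set j := grow b n with hj
    have hk1 : j ≤ G j := hG1 j
    have hk2 : G j < grow b (n + 1) := by
      have h1 := hK' j (((le_max_right K K').trans hn).trans hn1)
      have h2 := grow_ge b n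
      rw [← hj] at h2
      omega
    -- the good stage
    have hgood : ∀ s, φ s ≤ grow a (G j) → st y (grow a) (G j) s = f s := by
      intro s hs
      have h1 : dc (y (G j)) = (hfin (grow a (G j))).toFinset.image fun s => (s, f s) := by
        rw [hG2 j]
        exact hdc _
      have h2 : (s, f s) ∈ dc (y (G j)) := by
        rw [h1, Finset.mem_image]
        exact ⟨s, (hfin _).mem_toFinset.2 hs, rfl⟩
      have h3 : φ (f s) ≤ grow a (G j + 1) := by
        refine (hH (grow a (G j)) s hs).trans ((hK _ ?_).trans (grow_ge a (G j)))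
        have h4 : G j ≤ grow a (G j) := (grow_mono a).le_apply
        have h5 := (le_max_left K K').trans hn
        omega
      have h4 := (hst y (grow a) (G j) s).2.2 ⟨f s, h2, hf2 s, h3⟩
      rw [h1, Finset.mem_image] at h4
      obtain ⟨s', -, h5⟩ := h4
      rw [Prod.mk.injEq] at h5
      rw [← h5.2, h5.1]
    have h1 := hrun2 y (grow a) j s (fun i => (grow_lt a i).le) hs (G j - j)
    rw [Nat.add_sub_cancel' hk1] at h1
    have h2 : run (st y (grow a)) j (G j - j + 1) s =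
        f (run (st y (grow a)) j (G j - j) s) := by
      show st y (grow a) (j + (G j - j)) _ = _
      rw [Nat.add_sub_cancel' hk1]
      exact hgood _ h1
    refine hD2 _ _ ?_ (hrun3 y (grow a) j s (G j - j + 1) _ (by omega))
    rw [h2]
    exact hf1 _
  -- reindex
  have hne : Nonempty ((F × D × D) × ℕ) := by
    obtain ⟨g, hg, -⟩ := hdom fun _ => 0
    obtain ⟨y, hy, -⟩ := exists_io_equal hnm fun _ => 0
    exact ⟨((⟨y, hy⟩, ⟨g, hg⟩, ⟨g, hg⟩), 0)⟩
  have hcard : #((F × D × D) × ℕ) ≤ #W := by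
    have h0 : ℵ₀ ≤ ℵ₁ := aleph0_le_aleph 1
    rw [mk_prod, mk_prod, mk_prod, hΩ]
    simp only [lift_id, mk_nat]
    calc #F * (#D * #D) * ℵ₀ ≤ ℵ₁ * (ℵ₁ * ℵ₁) * ℵ₁ :=
          mul_le_mul' (mul_le_mul' hF (mul_le_mul' hD hD)) h0
      _ = ℵ₁ := by rw [mul_eq_self h0, mul_eq_self h0, mul_eq_self h0]
  obtain ⟨ψ⟩ := hcard
  let ρ : W → (F × D × D) × ℕ := Function.invFun ψ
  have hρ : Function.Surjective ρ := fun p => ⟨ψ p, Function.leftInverse_invFun ψ.injective p⟩
  refine ⟨fun i => EE (ρ i), fun i s => hEE1 _ s, fun D' h1 h2 => ?_⟩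
  obtain ⟨p, hp⟩ := hEE2 D' h1 h2
  obtain ⟨i, rfl⟩ := hρ p
  exact ⟨i, hp⟩

theorem souslin_of_noAnti {e : W → W → ℤ} (he : Coh e) (hna : NoAnti e) :
    IsSouslinTree (CT e) := by
  have h1 := aronszajn_of_split he (split_of_noAnti om1_W he hna)
  refine ⟨h1.tree, h1.height, h1.chain, fun A hA => ?_⟩
  by_contra hunc
  obtain ⟨x, hx, y, hy, hxy⟩ := hna A hunc
  exact hA hx hy hxy.ne hxy.le

theorem exists_souslin_of (hclub : Club) {D F : Set (ℕ → ℕ)} (hD : #D ≤ ℵ₁) (hF : #F ≤ ℵ₁)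
    (hdom : ∀ f : ℕ → ℕ, ∃ g ∈ D, ∀ᶠ n in atTop, f n ≤ g n) (hnm : ¬ IsMeagre F) :
    ExistsSouslinTree := by
  have hcd : ∃ cd : W × W → W, Function.Injective cd := by
    obtain ⟨-, ⟨cd, hcd⟩, -⟩ := W_codes
    refine ⟨fun p => cd (p.1, ∅, p.2), fun p q h => ?_⟩
    have h1 := hcd h
    rw [Prod.mk.injEq, Prod.mk.injEq] at h1
    exact Prod.ext h1.1 h1.2.2
  obtain ⟨e, he, hna⟩ := noAnti_of_cofDense om1_W (clubOn_W hclub)
    (cofDense_of mk_W hD hF hdom hnm) hcd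
  exact ⟨CT e, inferInstance, souslin_of_noAnti he hna⟩

end Run7.h95
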