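import Mathlib

/-!
# The club principle and Souslin trees
-/

set_option autoImplicit false

namespace Run7.h95

open Set Ordinal

universe u

/-- The club principle: there are cofinal sets `A α ⊆ α`, for the limit ordinals `α < ω₁`, such
that every uncountable `X ⊆ ω₁` contains some `A α`. -/
def Club : Prop :=
  ∃ A : Ordinal.{0} → Set Ordinal.{0},
    (∀ α < ω_ 1, Order.IsSuccLimit α → A α ⊆ Iio α ∧ ∀ β < α, ∃ γ ∈ A α, β < γ) ∧
      ∀ X : Set Ordinal.{0}, X ⊆ Iio (ω_ 1) → ¬ X.Countable →
        ∃ α < ω_ 1, Order.IsSuccLimit α ∧ A α ⊆ X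

/-- The node `t` has height `α`: its set of predecessors is order isomorphic to `α`. -/
def HasHeight {T : Type} [PartialOrder T] (t : T) (α : Ordinal.{0}) : Prop :=
  Nonempty (Iio t ≃o Iio α)

/-- `T` is an `ℵ₁`-Souslin tree: the predecessors of every node are well ordered, the heights of
the nodes are exactly the ordinals below `ω₁`, and all chains and antichains are countable. -/
structure IsSouslinTree (T : Type) [PartialOrder T] : Prop where
  /-- the set of predecessors of a node is order isomorphic to an ordinal below `ω₁` -/
  tree : ∀ t : T, ∃ α < ω_ 1, HasHeight t α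
  /-- every ordinal below `ω₁` is the height of a node -/
  height : ∀ α < ω_ 1, ∃ t : T, HasHeight t α
  /-- chains are countable -/
  chain : ∀ C : Set T, IsChain (· ≤ ·) C → C.Countable
  /-- antichains are countable -/
  antichain : ∀ A : Set T, IsAntichain (· ≤ ·) A → A.Countable

/-- There is an `ℵ₁`-Souslin tree. -/
def ExistsSouslinTree : Prop :=
  ∃ (T : Type) (_ : PartialOrder T), IsSouslinTree T

end Run7.h95
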