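import Pool.Agent.Run7.h95.Defs

/-!
# Aronszajn trees and the splitting property
-/

set_option autoImplicit false

namespace Run7.h95

open Set Ordinal

/-- `T` is an Aronszajn tree: the predecessors of every node are well ordered, the heights of the
nodes are exactly the ordinals below `ω₁`, and all levels and all chains are countable. -/
structure IsAronszajnTree (T : Type) [PartialOrder T] : Prop where
  /-- the set of predecessors of a node is order isomorphic to an ordinal below `ω₁` -/
  tree : ∀ t : T, ∃ α < ω_ 1, HasHeight t α
  /-- every ordinal below `ω₁` is the height of a node -/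
  height : ∀ α < ω_ 1, ∃ t : T, HasHeight t α
  /-- levels are countable -/
  level : ∀ α < ω_ 1, {t : T | HasHeight t α}.Countable
  /-- chains are countable -/
  chain : ∀ C : Set T, IsChain (· ≤ ·) C → C.Countable

/-- Every uncountable lower set `Y` of `T` contains, for every natural number `k` and for all but
countably many `β < ω₁`, a node of height `β` with at least `k` immediate successors in `Y`. -/
def SplitsEverywhere (T : Type) [PartialOrder T] : Prop :=
  ∀ Y : Set T, IsLowerSet Y → ¬ Y.Countable → ∀ k : ℕ, ∃ α < ω_ 1, ∀ β < ω_ 1, α ≤ β →
    ∃ t ∈ Y, HasHeight t β ∧ ∃ M : Finset T, M.card = k ∧ ∀ s ∈ M, s ∈ Y ∧ t ⋖ s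

end Run7.h95
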