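import Pool.Agent.Run7.h95.Defs
import Pool.Agent.Run7.h95.Base

/-!
# A criterion for Souslin trees
-/

set_option autoImplicit false

namespace Run7.h95

open Set Ordinal Cardinal

theorem countable_iff_lt (α : Ordinal.{0}) : (Iio α).Countable ↔ α < ω_ 1 := by
  rw [← Cardinal.le_aleph0_iff_set_countable, Cardinal.mk_Iio_ordinal, ← Cardinal.ord_aleph,
    Cardinal.lt_ord, ← Cardinal.lift_aleph0.{1, 0}, Cardinal.lift_le, ← Cardinal.succ_aleph0,
    Order.lt_succ_iff]

section

variable {T : Type} [PartialOrder T] [WellFoundedLT T]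

/-- the rank -/
noncomputable def rk (t : T) : Ordinal.{0} := IsWellFounded.rank (α := T) (· < ·) t

theorem rk_lt {s t : T} (h : s < t) : rk s < rk t := IsWellFounded.rank_lt_of_rel h

theorem exists_rk (t : T) (α : Ordinal.{0}) (h : α < rk t) : ∃ s, s < t ∧ rk s = α := by
  induction t using WellFoundedLT.induction with
  | ind t ih =>
    have h1 := h
    rw [rk, IsWellFounded.rank_eq, Ordinal.lt_iSup_iff] at h1
    obtain ⟨⟨b, hb⟩, h2⟩ := h1
    rw [Order.lt_succ_iff] at h2
    rcases h2.eq_or_lt with h3 | h3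
    · exact ⟨b, hb, h3.symm⟩
    · obtain ⟨s, hs1, hs2⟩ := ih b hb h3
      exact ⟨s, hs1.trans hb, hs2⟩

theorem hasHeight (hlin : ∀ t s s' : T, s < t → s' < t → s ≤ s' ∨ s' ≤ s) (t : T) :
    HasHeight t (rk t) := by
  let F : Iio t → Iio (rk t) := fun s => ⟨rk s.1, rk_lt s.2⟩
  have hmono : ∀ s s' : Iio t, F s ≤ F s' ↔ s ≤ s' := by
    intro s s'
    constructor
    · intro h
      rcases hlin t s s' s.2 s'.2 with h1 | h1
      · exact h1
      · rcases h1.lt_or_eq with h2 | h2
        · exact absurd (show rk s.1 ≤ rk s'.1 from h) (not_le.2 (rk_lt h2))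
        · exact (Subtype.ext h2.symm).le
    · intro h
      rcases (show s.1 ≤ s'.1 from h).lt_or_eq with h2 | h2
      · exact (rk_lt h2).le
      · exact le_of_eq (by rw [Subtype.ext h2])
  have hinj : Function.Injective F := by
    intro s s' h
    exact le_antisymm ((hmono s s').1 h.le) ((hmono s' s).1 h.ge)
  have hsurj : Function.Surjective F := by
    rintro ⟨α, hα⟩
    obtain ⟨s, hs1, hs2⟩ := exists_rk t α hα
    exact ⟨⟨s, hs1⟩, Subtype.ext hs2⟩
  exact ⟨⟨Equiv.ofBijective F ⟨hinj, hsurj⟩, fun {s s'} => hmono s s'⟩⟩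

theorem rk_lt_omega1 (hlin : ∀ t s s' : T, s < t → s' < t → s ≤ s' ∨ s' ≤ s)
    (hseg : ∀ t : T, (Iio t).Countable) (t : T) : rk t < ω_ 1 := by
  rw [← countable_iff_lt]
  obtain ⟨e⟩ := hasHeight hlin t
  have := (hseg t).to_subtype
  exact Set.countable_coe_iff.1 (Countable.of_equiv _ e.toEquiv)

/-- Criterion for being a Souslin tree. -/
theorem souslin_of (hunc : ¬ (univ : Set T).Countable)
    (hlin : ∀ t s s' : T, s < t → s' < t → s ≤ s' ∨ s' ≤ s)
    (hseg : ∀ t : T, (Iio t).Countable)
    (hchain : ∀ C : Set T, IsChain (· ≤ ·) C → C.Countable)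
    (hanti : ∀ A : Set T, IsAntichain (· ≤ ·) A → A.Countable) : IsSouslinTree T := by
  refine ⟨fun t => ⟨rk t, rk_lt_omega1 hlin hseg t, hasHeight hlin t⟩, ?_, hchain, hanti⟩
  intro α hα
  by_contra hcon
  push Not at hcon
  have h1 : ∀ t : T, rk t < α := by
    intro t
    by_contra h
    push Not at h
    rcases h.lt_or_eq with h2 | h2
    · obtain ⟨s, -, hs⟩ := exists_rk t α h2
      exact hcon s (hs ▸ hasHeight hlin s)
    · exact hcon t (h2 ▸ hasHeight hlin t)
  apply hunc
  have h2 : (univ : Set T) ⊆ ⋃ β ∈ Iio α, {t | rk t = β} := by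
    intro t _
    exact mem_biUnion (show rk t ∈ Iio α from h1 t) rfl
  refine (((countable_iff_lt α).2 hα).biUnion fun β _ => ?_).mono h2
  refine hanti _ fun s hs t ht hne hle => ?_
  have h3 := rk_lt (lt_of_le_of_ne hle hne)
  have h4 : rk s = β := hs
  have h5 : rk t = β := ht
  rw [h4, h5] at h3
  exact lt_irrefl _ h3

end

/-- The standard copy of `ω₁` in `Type`. -/
abbrev W : Type := (ω_ 1 : Ordinal.{0}).ToType

theorem om1_W : Om1 W := by
  constructor
  · intro a
    have h1 : (ToType.toOrd a).1 < ω_ 1 := (ToType.toOrd a).2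
    rw [← countable_iff_lt] at h1
    have h2 := h1.to_subtype
    have h3 : Function.Injective (fun x : Iio a =>
        (⟨(ToType.toOrd x.1).1, by
          have : ToType.toOrd x.1 < ToType.toOrd a := (OrderIso.lt_iff_lt _).2 x.2
          exact this⟩ : Iio (ToType.toOrd a).1)) := by
      intro x y h
      have h4 := congrArg Subtype.val h
      have h5 : (ToType.toOrd x.1).1 = (ToType.toOrd y.1).1 := h4
      exact Subtype.ext ((ToType.mk.symm).injective (Subtype.ext h5))
    exact Set.countable_coe_iff.1 h3.countable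
  · intro h
    have h1 : Countable W := Set.countable_univ_iff.1 h
    have h2 : Countable (Iio (ω_ 1 : Ordinal.{0})) :=
      Countable.of_equiv W (ToType.mk (o := ω_ 1)).symm.toEquiv
    rw [Set.countable_coe_iff, countable_iff_lt] at h2
    exact lt_irrefl _ h2

end Run7.h95
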