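import Pool.Agent.Run7.h95.Rho

/-!
# Good pairs and the solvability of the induced systems of equations
-/

set_option autoImplicit false

namespace Run7.h95

open Set Filter

universe u v

/-- A system of equations `c (hi i) = c (lo i)` with distinct `hi i` can be solved by an extension
of any given start. -/
theorem solve {X : Type v} [Nonempty X] {ι : Type u} (Δ : Set ι) (lo hi : ι → ℕ) (n : ℕ)
    (c₀ : ℕ → X) (h1 : ∀ i ∈ Δ, lo i < hi i) (h2 : ∀ i ∈ Δ, n ≤ hi i)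
    (h3 : ∀ i ∈ Δ, ∀ j ∈ Δ, hi i = hi j → lo i = lo j) :
    ∃ c : ℕ → X, (∀ m < n, c m = c₀ m) ∧ ∀ i ∈ Δ, c (hi i) = c (lo i) := by
  classical
  obtain ⟨c, hc⟩ := exists_rec (Ω := ℕ) (X := X)
    (fun m c x => (m < n → x = c₀ m) ∧ ∀ i ∈ Δ, hi i = m → x = c (lo i)) (by
      intro m c c' x hcc hx
      refine ⟨hx.1, fun i hi' hm => ?_⟩
      rw [← hcc (lo i) (hm ▸ h1 i hi')]
      exact hx.2 i hi' hm) (by
      intro m c _
      by_cases hm : m < n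
      · refine ⟨c₀ m, fun _ => rfl, fun i hi' him => ?_⟩
        have := h2 i hi'
        omega
      · by_cases hex : ∃ i ∈ Δ, hi i = m
        · obtain ⟨i, hi1, hi2⟩ := hex
          refine ⟨c (lo i), fun h => absurd h hm, fun j hj1 hj2 => ?_⟩
          rw [h3 i hi1 j hj1 (hi2.trans hj2.symm)]
        · push Not at hex
          exact ⟨c₀ m, fun h => absurd h hm, fun j hj1 hj2 => absurd hj2 (hex j hj1)⟩)
  exact ⟨c, fun m hm => (hc m).1 hm, fun i hi' => (hc (hi i)).2 i hi' rfl⟩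

variable {Ω : Type u} [LinearOrder Ω]

/-- The `Δ`-system argument, by means of an ultrafilter. -/
theorem IsG.limit {g : Ω → Ω → ℕ} (hg : IsG g) {b : ℕ → Ω} (hb : StrictMono b) (n : ℕ) :
    ∃ (E : Set Ω) (a : Ω → ℕ), E.Finite ∧
      (∀ ξ ∈ E, ∀ᶠ i in (hyperfilter ℕ : Filter ℕ), ξ < b i ∧ g (b i) ξ = a ξ) ∧
      ∀ ξ, ξ ∉ E → (∃ k, ξ < b k) →
        ∀ᶠ i in (hyperfilter ℕ : Filter ℕ), ξ < b i ∧ n ≤ g (b i) ξ := by
  classical
  let E : Set Ω := {ξ | ∀ᶠ i in (hyperfilter ℕ : Filter ℕ), ξ < b i ∧ g (b i) ξ < n}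
  have ha : ∀ ξ, ∃ a : ℕ, ξ ∈ E →
      a < n ∧ ∀ᶠ i in (hyperfilter ℕ : Filter ℕ), ξ < b i ∧ g (b i) ξ = a := by
    intro ξ
    by_cases hξ : ξ ∈ E
    · have h1 : ∀ᶠ i in (hyperfilter ℕ : Filter ℕ), ∃ a ∈ Iio n, ξ < b i ∧ g (b i) ξ = a := by
        have h2 : ∀ᶠ i in (hyperfilter ℕ : Filter ℕ), ξ < b i ∧ g (b i) ξ < n := hξ
        filter_upwards [h2] with i hi
        exact ⟨g (b i) ξ, hi.2, hi.1, rfl⟩
      rw [Ultrafilter.eventually_exists_mem_iff (Set.finite_Iio n)] at h1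
      obtain ⟨a, ha, h2⟩ := h1
      exact ⟨a, fun _ => ⟨ha, h2⟩⟩
    · exact ⟨0, fun h => absurd h hξ⟩
  choose a ha using ha
  refine ⟨E, a, ?_, fun ξ hξ => (ha ξ hξ).2, ?_⟩
  · have h1 : MapsTo a E (Iio n) := fun ξ hξ => (ha ξ hξ).1
    have h2 : InjOn a E := by
      intro ξ hξ ξ' hξ' h
      have h3 := (ha ξ hξ).2
      have h4 := (ha ξ' hξ').2
      obtain ⟨i, hi, hi'⟩ := (h3.and h4).exists
      exact hg.inj (b i) ξ ξ' hi.1 hi'.1 (by rw [hi.2, hi'.2, h])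
    exact Set.Finite.of_injOn h1 h2 (Set.finite_Iio n)
  · rintro ξ hξ ⟨k, hk⟩
    have h1 : ∀ᶠ i in (hyperfilter ℕ : Filter ℕ), ¬ (ξ < b i ∧ g (b i) ξ < n) :=
      Ultrafilter.eventually_not.2 hξ
    have h2 : ∀ᶠ i in (hyperfilter ℕ : Filter ℕ), k ≤ i :=
      Nat.hyperfilter_le_atTop (eventually_ge_atTop k)
    filter_upwards [h1, h2] with i h3 h4
    have h5 : ξ < b i := hk.trans_le (hb.monotone h4)
    refine ⟨h5, ?_⟩
    by_contra h6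
    push Not at h6
    exact h3 ⟨h5, h6⟩

/-- For an increasing sequence there are `i < j` such that no `ξ` has two different small values. -/
theorem IsG.good_pair {g : Ω → Ω → ℕ} (hg : IsG g) {b : ℕ → Ω} (hb : StrictMono b) (n : ℕ) :
    ∃ i j, i < j ∧ ∀ ξ < b i, g (b i) ξ ≠ g (b j) ξ → n ≤ max (g (b i) ξ) (g (b j) ξ) := by
  classical
  obtain ⟨E, a, hE, h1, h2⟩ := hg.limit hb n
  have h3 : ∀ᶠ i in (hyperfilter ℕ : Filter ℕ), ∀ ξ ∈ E, ξ < b i ∧ g (b i) ξ = a ξ := by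
    rw [Set.Finite.eventually_all hE] 
    exact h1
  obtain ⟨i, hi⟩ := h3.exists
  let K : Set Ω := {ξ | ξ < b i ∧ g (b i) ξ < n ∧ ξ ∉ E}
  have hK : K.Finite := by
    refine Set.Finite.of_injOn (f := g (b i)) (t := Iio n) (fun ξ hξ => hξ.2.1) ?_
      (Set.finite_Iio n)
    intro ξ hξ ξ' hξ' h
    exact hg.inj (b i) ξ ξ' hξ.1 hξ'.1 h
  have h4 : ∀ᶠ j in (hyperfilter ℕ : Filter ℕ), ∀ ξ ∈ K, ξ < b j ∧ n ≤ g (b j) ξ := by
    rw [Set.Finite.eventually_all hK] 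
    intro ξ hξ
    exact h2 ξ hξ.2.2 ⟨i, hξ.1⟩
  have h5 : ∀ᶠ j in (hyperfilter ℕ : Filter ℕ), i < j :=
    Nat.hyperfilter_le_atTop (eventually_gt_atTop i)
  obtain ⟨j, ⟨hj1, hj2⟩, hj3⟩ := ((h3.and h4).and h5).exists
  refine ⟨i, j, hj3, fun ξ hξ hne => ?_⟩
  by_cases hξE : ξ ∈ E
  · exact absurd ((hi ξ hξE).2.trans (hj1 ξ hξE).2.symm) hne
  · by_cases hξn : g (b i) ξ < n
    · exact (hj2 ξ ⟨hξ, hξn, hξE⟩).2.trans (le_max_right _ _)
    · exact (not_lt.1 hξn).trans (le_max_left _ _)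

end Run7.h95
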