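import Pool.Agent.Run7.h95.Base

/-!
# A subadditive finite-to-one function on pairs, and the injections it induces
-/

set_option autoImplicit false

namespace Run7.h95

open Set

universe u

variable {Ω : Type u} [LinearOrder Ω]

/-- subadditivity of `r γ · ` over the rows below `γ` -/
structure RowOK (γ : Ω) (r : Ω → Ω → ℕ) (f : Ω → ℕ) : Prop where
  diag : f γ = 0
  a : ∀ α β, α ≤ β → β < γ → f α ≤ max (r β α) (f β)
  b : ∀ α β, α ≤ β → β < γ → r β α ≤ max (f α) (f β)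
  fin : ∀ n, {ξ | ξ ≤ γ ∧ f ξ ≤ n}.Finite

/-- the properties of `ρ` -/
structure IsRho (r : Ω → Ω → ℕ) : Prop where
  diag : ∀ α, r α α = 0
  a : ∀ α β γ, α ≤ β → β ≤ γ → r γ α ≤ max (r β α) (r γ β)
  b : ∀ α β γ, α ≤ β → β ≤ γ → r β α ≤ max (r γ α) (r γ β)
  fin : ∀ α n, {ξ | ξ ≤ α ∧ r α ξ ≤ n}.Finite

theorem exists_row (hΩ : ∀ a : Ω, (Iio a).Countable) (γ : Ω) (r : Ω → Ω → ℕ)
    (hr : ∀ β < γ, RowOK β r (r β)) : ∃ f, RowOK γ r f := by
  classical
  -- the properties of the rows below `γ`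
  have hd : ∀ β < γ, r β β = 0 := fun β hβ => (hr β hβ).diag
  have ha : ∀ α β δ, α ≤ β → β ≤ δ → δ < γ → r δ α ≤ max (r β α) (r δ β) := by
    intro α β δ h1 h2 h3
    rcases h2.lt_or_eq with h | h
    · exact (hr δ h3).a α β h1 h
    · subst h
      exact le_max_left _ _
  have hb : ∀ α β δ, α ≤ β → β ≤ δ → δ < γ → r β α ≤ max (r δ α) (r δ β) := by
    intro α β δ h1 h2 h3
    rcases h2.lt_or_eq with h | h
    · exact (hr δ h3).b α β h1 h
    · subst h
      exact le_max_left _ _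
  have hfin : ∀ β < γ, ∀ n, {ξ | ξ ≤ β ∧ r β ξ ≤ n}.Finite := fun β hβ n => (hr β hβ).fin n
  by_cases hne : (Iio γ).Nonempty
  · -- a nondecreasing cofinal sequence
    obtain ⟨h0, hh0⟩ := (hΩ γ).exists_eq_range hne
    have hcof : ∃ g : ℕ → Ω, Monotone g ∧ (∀ k, g k < γ) ∧ ∀ ξ < γ, ∃ k, ξ ≤ g k := by
      refine ⟨partialSups h0, (partialSups h0).monotone, ?_, ?_⟩
      · intro k
        rw [partialSups_apply, Finset.sup'_lt_iff]
        intro i _
        have : h0 i ∈ Iio γ := by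
          rw [hh0]
          exact ⟨i, rfl⟩
        exact this
      · intro ξ hξ
        have : ξ ∈ range h0 := by
          rw [← hh0]
          exact hξ
        obtain ⟨k, hk⟩ := this
        exact ⟨k, hk ▸ le_partialSups h0 k⟩
    obtain ⟨g, hg1, hg2, hg3⟩ := hcof
    -- the scale
    let N : ℕ → ℕ := fun k => Nat.rec 0 (fun j m => max (m + 1) (r (g (j + 1)) (g j))) k
    have hN : ∀ j, N (j + 1) = max (N j + 1) (r (g (j + 1)) (g j)) := fun j => rfl
    have hN1 : ∀ j, N j < N (j + 1) := fun j => by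
      rw [hN]
      exact lt_of_lt_of_le (Nat.lt_succ_self _) (le_max_left _ _)
    have hNm : StrictMono N := strictMono_nat_of_lt_succ hN1
    have hNk : ∀ k, k ≤ N k := fun k => hNm.le_apply
    have L : ∀ α k j, k ≤ j → α ≤ g k → r (g j) α ≤ max (r (g k) α) (N j) := by
      intro α k j hkj hα
      induction j, hkj using Nat.le_induction with
      | base => exact le_max_left _ _
      | succ j hkj ih =>
        have h1 := ha α (g j) (g (j + 1)) (hα.trans (hg1 hkj)) (hg1 (Nat.le_succ j)) (hg2 _)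
        refine h1.trans (max_le (ih.trans (max_le (le_max_left _ _) ?_)) ?_)
        · exact ((hN1 j).le).trans (le_max_right _ _)
        · rw [hN]
          exact (le_max_right _ _).trans (le_max_right _ _)
    let P : Ω → ℕ → Prop := fun α n => ∃ k, N k ≤ n ∧ α ≤ g k ∧ r (g k) α ≤ n
    have hP : ∀ α < γ, ∃ n, P α n := by
      intro α hα
      obtain ⟨k, hk⟩ := hg3 α hα
      refine ⟨N (max k (r (g k) α)), max k (r (g k) α), le_rfl,
        hk.trans (hg1 (le_max_left _ _)), ?_⟩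
      refine (L α k _ (le_max_left _ _) hk).trans (max_le ?_ le_rfl)
      exact (le_max_right k _).trans (hNk _)
    have hPmono : ∀ α n m, n ≤ m → P α n → P α m := by
      rintro α n m hnm ⟨k, h1, h2, h3⟩
      exact ⟨k, h1.trans hnm, h2, h3.trans hnm⟩
    have hmin : ∀ α, ∃ n, (α = γ → n = 0) ∧ (α < γ → P α n ∧ ∀ m, P α m → n ≤ m) := by
      intro α
      by_cases hα : α < γ
      · obtain ⟨n, hn, hn'⟩ : ∃ n, P α n ∧ ∀ m, P α m → n ≤ m := by
          obtain ⟨n, hn, hn'⟩ := (Nat.lt_wfRel.wf).has_min {n | P α n} (hP α hα)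
          exact ⟨n, hn, fun m hm => not_lt.1 (hn' m hm)⟩
        exact ⟨n, fun h => absurd h hα.ne, fun _ => ⟨hn, hn'⟩⟩
      · exact ⟨0, fun _ => rfl, fun h => absurd h hα⟩
    choose f hf0 hfm using hmin
    have hf : ∀ α < γ, P α (f α) := fun α hα => (hfm α hα).1
    have hf' : ∀ α < γ, ∀ n, P α n → f α ≤ n := fun α hα => (hfm α hα).2
    refine ⟨f, ⟨hf0 γ rfl, ?_, ?_, ?_⟩⟩
    · intro α β hαβ hβ
      refine hf' α (hαβ.trans_lt hβ) _ ?_
      obtain ⟨k, h1, h2, h3⟩ := hf β hβ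
      refine ⟨k, h1.trans (le_max_right _ _), hαβ.trans h2, ?_⟩
      refine (ha α β (g k) hαβ h2 (hg2 k)).trans (max_le (le_max_left _ _) ?_)
      exact h3.trans (le_max_right _ _)
    · intro α β hαβ hβ
      obtain ⟨k, h1, h2, h3⟩ := hPmono α _ _ (le_max_left _ (f β)) (hf α (hαβ.trans_lt hβ))
      obtain ⟨l, h4, h5, h6⟩ := hPmono β _ _ (le_max_right (f α) _) (hf β hβ)
      have h7 : N (max k l) ≤ max (f α) (f β) := by
        rcases le_total k l with h | h
        · rw [max_eq_right h]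
          exact h4
        · rw [max_eq_left h]
          exact h1
      have h8 := (L α k (max k l) (le_max_left _ _) h2).trans (max_le h3 h7)
      have h9 := (L β l (max k l) (le_max_right _ _) h5).trans (max_le h6 h7)
      exact (hb α β (g (max k l)) hαβ (h5.trans (hg1 (le_max_right _ _))) (hg2 _)).trans
        (max_le h8 h9)
    · intro n
      have h1 : {ξ | ξ ≤ γ ∧ f ξ ≤ n} ⊆
          insert γ (⋃ k ∈ Finset.range (n + 1), {ξ | ξ ≤ g k ∧ r (g k) ξ ≤ n}) := by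
        rintro ξ ⟨h1, h2⟩
        rcases h1.lt_or_eq with h | h
        · right
          obtain ⟨k, h3, h4, h5⟩ := hPmono ξ _ _ h2 (hf ξ h)
          simp only [mem_iUnion]
          refine ⟨k, ?_, h4, h5⟩
          rw [Finset.mem_range]
          have := hNk k
          omega
        · left
          exact h
      refine Set.Finite.subset ?_ h1
      refine Set.Finite.insert _ ?_
      exact Set.Finite.biUnion (Finset.finite_toSet _) fun k _ => hfin (g k) (hg2 k) n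
  · rw [not_nonempty_iff_eq_empty] at hne
    have hno : ∀ β, ¬ β < γ := fun β hβ => by
      have : β ∈ Iio γ := hβ
      rw [hne] at this
      exact this
    refine ⟨fun _ => 0, ⟨rfl, fun α β _ h => absurd h (hno β), fun α β _ h => absurd h (hno β), ?_⟩⟩
    intro n
    refine (Set.finite_singleton γ).subset ?_
    rintro ξ ⟨h1, -⟩
    rcases h1.lt_or_eq with h | h
    · exact absurd h (hno ξ)
    · exact h

theorem exists_rho [WellFoundedLT Ω] (hΩ : ∀ a : Ω, (Iio a).Countable) :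
    ∃ r : Ω → Ω → ℕ, IsRho r := by
  obtain ⟨r, hr⟩ := exists_rec (Ω := Ω) (X := Ω → ℕ) (fun γ r f => RowOK γ r f) (by
    intro γ r r' f hrr hf
    refine ⟨hf.diag, ?_, ?_, hf.fin⟩
    · intro α β h1 h2
      rw [← hrr β h2]
      exact hf.a α β h1 h2
    · intro α β h1 h2
      rw [← hrr β h2]
      exact hf.b α β h1 h2) (fun γ r hr => exists_row hΩ γ r hr)
  refine ⟨r, ⟨fun α => (hr α).diag, ?_, ?_, fun α n => (hr α).fin n⟩⟩
  · intro α β γ h1 h2
    rcases h2.lt_or_eq with h | h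
    · exact (hr γ).a α β h1 h
    · subst h
      exact le_max_left _ _
  · intro α β γ h1 h2
    rcases h2.lt_or_eq with h | h
    · exact (hr γ).b α β h1 h
    · subst h
      exact le_max_left _ _

/-- What we use of the induced injections: a family `g β : Iio β → ℕ`. -/
structure IsG (g : Ω → Ω → ℕ) : Prop where
  inj : ∀ β ξ ξ', ξ < β → ξ' < β → g β ξ = g β ξ' → ξ = ξ'
  coh : ∀ β γ, β < γ → {ξ | ξ < β ∧ g β ξ ≠ g γ ξ}.Finite
  hi : ∀ β γ ξ ξ', β < γ → ξ < β → ξ' < β → g β ξ ≠ g γ ξ → g β ξ' ≠ g γ ξ' →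
    max (g β ξ) (g γ ξ) = max (g β ξ') (g γ ξ') → ξ = ξ'
  hi2 : ∀ β γ ξ ξ', β < γ → ξ < β → ξ' < β → g β ξ ≠ g γ ξ →
    max (g β ξ) (g γ ξ) = g γ ξ' → ξ = ξ'

theorem pair_lt {L l H h : ℕ} (h1 : l < L) (h2 : h ≤ H) : Nat.pair l h < Nat.pair L H := by
  rcases h2.lt_or_eq with h3 | h3
  · exact (Nat.pair_lt_pair_right l h3).trans (Nat.pair_lt_pair_left H h1)
  · subst h3
    exact Nat.pair_lt_pair_left h h1

theorem IsRho.exists_g {r : Ω → Ω → ℕ} (hr : IsRho r) : ∃ g : Ω → Ω → ℕ, IsG g := by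
  classical
  let F : Ω → ℕ → Finset Ω := fun α n => (hr.fin α n).toFinset
  have hF : ∀ α n ξ, ξ ∈ F α n ↔ ξ ≤ α ∧ r α ξ ≤ n := fun α n ξ => by
    simp [F]
  let h : ℕ → Ω → ℕ := fun n α => (F α n).card
  have hmono : ∀ n m α, n ≤ m → h n α ≤ h m α := by
    intro n m α hnm
    refine Finset.card_le_card fun ξ hξ => ?_
    rw [hF] at hξ ⊢
    exact ⟨hξ.1, hξ.2.trans hnm⟩
  have hlt : ∀ n α β, α < β → r β α ≤ n → h n α < h n β := by
    intro n α β hαβ hn
    refine Finset.card_lt_card ⟨fun ξ hξ => ?_, fun hsub => ?_⟩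
    · rw [hF] at hξ ⊢
      exact ⟨hξ.1.trans hαβ.le, (hr.a ξ α β hξ.1 hαβ.le).trans (max_le hξ.2 hn)⟩
    · have h1 : β ∈ F β n := by
        rw [hF, hr.diag]
        exact ⟨le_rfl, Nat.zero_le _⟩
      have h2 := hsub h1
      rw [hF] at h2
      exact absurd h2.1 (not_le.2 hαβ)
  refine ⟨fun β ξ => Nat.pair (r β ξ) (h (r β ξ) ξ), ⟨?_, ?_, ?_, ?_⟩⟩
  · intro β ξ ξ' h1 h2 h3
    simp only [Nat.pair_eq_pair] at h3
    obtain ⟨h4, h5⟩ := h3
    rcases lt_trichotomy ξ ξ' with h6 | h6 | h6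
    · have h7 := hr.b ξ ξ' β h6.le h2.le
      have h8 := hlt (r β ξ) ξ ξ' h6 (h7.trans (max_le le_rfl h4.ge))
      rw [← h4] at h5
      omega
    · exact h6
    · have h7 := hr.b ξ' ξ β h6.le h1.le
      have h8 := hlt (r β ξ) ξ' ξ h6 (h7.trans (max_le h4.ge le_rfl))
      rw [← h4] at h5
      omega
  · intro β γ hβγ
    refine (hr.fin β (r γ β)).subset ?_
    rintro ξ ⟨h1, h2⟩
    refine ⟨h1.le, ?_⟩
    by_contra h3
    push Not at h3
    apply h2
    have h4 := hr.a ξ β γ h1.le hβγ.le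
    have h5 := hr.b ξ β γ h1.le hβγ.le
    have h6 : r β ξ = r γ ξ := by
      rcases le_max_iff.1 h4 with h | h <;> rcases le_max_iff.1 h5 with h' | h' <;> omega
    rw [h6]
  · intro β γ ξ ξ' hβγ h1 h2 h3 h4 h5
    have key : ∀ ζ, Nat.pair (r β ζ) (h (r β ζ) ζ) ≠ Nat.pair (r γ ζ) (h (r γ ζ) ζ) →
        max (Nat.pair (r β ζ) (h (r β ζ) ζ)) (Nat.pair (r γ ζ) (h (r γ ζ) ζ)) =
          Nat.pair (max (r β ζ) (r γ ζ)) (h (max (r β ζ) (r γ ζ)) ζ) := by
      intro ζ hζ
      rcases lt_trichotomy (r β ζ) (r γ ζ) with h6 | h6 | h6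
      · rw [max_eq_right h6.le, max_eq_right (pair_lt h6 (hmono _ _ _ h6.le)).le]
      · exact absurd (by rw [h6]) hζ
      · rw [max_eq_left h6.le, max_eq_left (pair_lt h6 (hmono _ _ _ h6.le)).le]
    rw [key ξ h3, key ξ' h4, Nat.pair_eq_pair] at h5
    obtain ⟨h6, h7⟩ := h5
    rcases lt_trichotomy ξ ξ' with h8 | h8 | h8
    · have h9 : r ξ' ξ ≤ max (r β ξ) (r γ ξ) := by
        refine (hr.b ξ ξ' β h8.le h2.le).trans (max_le (le_max_left _ _) ?_)
        rw [h6]
        exact le_max_left _ _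
      have h10 := hlt _ ξ ξ' h8 h9
      rw [← h6] at h7
      omega
    · exact h8
    · have h9 : r ξ ξ' ≤ max (r β ξ) (r γ ξ) := by
        refine (hr.b ξ' ξ β h8.le h1.le).trans (max_le ?_ (le_max_left _ _))
        rw [h6]
        exact le_max_left _ _
      have h10 := hlt _ ξ' ξ h8 h9
      rw [← h6] at h7
      omega
  · intro β γ ξ ξ' hβγ h1 h2 h3 h5
    have key : ∀ ζ, Nat.pair (r β ζ) (h (r β ζ) ζ) ≠ Nat.pair (r γ ζ) (h (r γ ζ) ζ) →
        max (Nat.pair (r β ζ) (h (r β ζ) ζ)) (Nat.pair (r γ ζ) (h (r γ ζ) ζ)) =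
          Nat.pair (max (r β ζ) (r γ ζ)) (h (max (r β ζ) (r γ ζ)) ζ) := by
      intro ζ hζ
      rcases lt_trichotomy (r β ζ) (r γ ζ) with h6 | h6 | h6
      · rw [max_eq_right h6.le, max_eq_right (pair_lt h6 (hmono _ _ _ h6.le)).le]
      · exact absurd (by rw [h6]) hζ
      · rw [max_eq_left h6.le, max_eq_left (pair_lt h6 (hmono _ _ _ h6.le)).le]
    rw [key ξ h3, Nat.pair_eq_pair] at h5
    obtain ⟨h6, h7⟩ := h5
    rw [← h6] at h7
    rcases lt_trichotomy ξ ξ' with h8 | h8 | h8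
    · have h9 : r ξ' ξ ≤ max (r β ξ) (r γ ξ) := by
        refine (hr.b ξ ξ' γ h8.le (h2.trans hβγ).le).trans (max_le (le_max_right _ _) ?_)
        rw [← h6]
      have h10 := hlt _ ξ ξ' h8 h9
      omega
    · exact h8
    · have h9 : r ξ ξ' ≤ max (r β ξ) (r γ ξ) := by
        refine (hr.b ξ' ξ γ h8.le (h1.trans hβγ).le).trans (max_le ?_ (le_max_right _ _))
        rw [← h6]
      have h10 := hlt _ ξ' ξ h8 h9
      omega

end Run7.h95
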