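import Pool.Agent.Run7.h95.Case1

/-!
# Sealing dense sets: a coherent Souslin tree from the club principle and a cofinal family of dense
sets of finite sequences
-/

set_option autoImplicit false

namespace Run7.h95

open Set

/-- A cofinal family, indexed by `Ω`, of dense sets of finite sequences. -/
def CofDense (Ω : Type) : Prop :=
  ∃ E : Ω → Set (List ℕ), (∀ i s, ∃ t ∈ E i, s <+: t) ∧
    ∀ D : Set (List ℕ), (∀ s, ∃ t ∈ D, s <+: t) → (∀ s t, s ∈ D → s <+: t → t ∈ D) →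
      ∃ i, E i ⊆ D

variable {Ω : Type} [LinearOrder Ω]

/-- the function given by a raw node -/
def vl (e : Ω → Ω → ℤ) (p : Ω × (Ω →₀ ℤ)) (ξ : Ω) : ℤ := e p.1 ξ + p.2 ξ

/-- the order of raw nodes -/
def rle (e : Ω → Ω → ℤ) (p q : Ω × (Ω →₀ ℤ)) : Prop :=
  p.1 ≤ q.1 ∧ ∀ ξ < p.1, vl e p ξ = vl e q ξ

theorem rle_trans {e : Ω → Ω → ℤ} {p q r : Ω × (Ω →₀ ℤ)} (h1 : rle e p q) (h2 : rle e q r) :
    rle e p r :=
  ⟨h1.1.trans h2.1, fun ξ hξ => (h1.2 ξ hξ).trans (h2.2 ξ (hξ.trans_le h1.1))⟩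

open Classical in
/-- one step of the coding of nodes by finite sequences -/
noncomputable def step (ν : ℕ → Ω × (Ω →₀ ℤ)) (e : Ω → Ω → ℤ) (p : Ω × (Ω →₀ ℤ)) (m : ℕ) :
    Ω × (Ω →₀ ℤ) :=
  if rle e p (ν m) then ν m else p

/-- the coding of nodes by finite sequences -/
noncomputable def phi (ν : ℕ → Ω × (Ω →₀ ℤ)) (e : Ω → Ω → ℤ) (p₀ : Ω × (Ω →₀ ℤ))
    (s : List ℕ) : Ω × (Ω →₀ ℤ) :=
  s.foldl (step ν e) p₀

theorem step_ge (ν : ℕ → Ω × (Ω →₀ ℤ)) (e : Ω → Ω → ℤ) (p : Ω × (Ω →₀ ℤ)) (m : ℕ) :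
    rle e p (step ν e p m) := by
  rw [step]
  split_ifs with h
  · exact h
  · exact ⟨le_rfl, fun _ _ => rfl⟩

theorem foldl_ge (ν : ℕ → Ω × (Ω →₀ ℤ)) (e : Ω → Ω → ℤ) (s : List ℕ) :
    ∀ p : Ω × (Ω →₀ ℤ), rle e p (s.foldl (step ν e) p) := by
  induction s with
  | nil => exact fun p => ⟨le_rfl, fun _ _ => rfl⟩
  | cons m s ih =>
    intro p
    rw [List.foldl_cons]
    exact rle_trans (step_ge ν e p m) (ih _)

theorem phi_mono (ν : ℕ → Ω × (Ω →₀ ℤ)) (e : Ω → Ω → ℤ) (p₀ : Ω × (Ω →₀ ℤ)) {s t : List ℕ}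
    (h : s <+: t) : rle e (phi ν e p₀ s) (phi ν e p₀ t) := by
  obtain ⟨u, rfl⟩ := h
  rw [phi, phi, List.foldl_append]
  exact foldl_ge ν e u _

theorem phi_mem {ν : ℕ → Ω × (Ω →₀ ℤ)} {e : Ω → Ω → ℤ} {p₀ : Ω × (Ω →₀ ℤ)}
    {B : Set (Ω × (Ω →₀ ℤ))} (h0 : p₀ ∈ B) (hν : ∀ m, ν m ∈ B) (s : List ℕ) :
    phi ν e p₀ s ∈ B := by
  have key : ∀ (s : List ℕ) (p : Ω × (Ω →₀ ℤ)), p ∈ B → s.foldl (step ν e) p ∈ B := by
    intro s
    induction s with
    | nil => exact fun p hp => hp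
    | cons m s ih =>
      intro p hp
      rw [List.foldl_cons]
      apply ih
      rw [step]
      split_ifs
      · exact hν m
      · exact hp
  exact key s p₀ h0

theorem phi_congr {ν : ℕ → Ω × (Ω →₀ ℤ)} {e e' : Ω → Ω → ℤ} {p₀ : Ω × (Ω →₀ ℤ)} {α : Ω}
    (h0 : p₀.1 < α) (hν : ∀ m, (ν m).1 < α) (he : ∀ β < α, e β = e' β) (s : List ℕ) :
    phi ν e p₀ s = phi ν e' p₀ s := by
  have hr : ∀ p q : Ω × (Ω →₀ ℤ), p.1 < α → q.1 < α → (rle e p q ↔ rle e' p q) := by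
    intro p q hp hq
    simp only [rle, vl, he p.1 hp, he q.1 hq]
  have key : ∀ (s : List ℕ) (p : Ω × (Ω →₀ ℤ)), p.1 < α →
      s.foldl (step ν e) p = s.foldl (step ν e') p := by
    intro s
    induction s with
    | nil => exact fun p _ => rfl
    | cons m s ih =>
      intro p hp
      have h1 : step ν e p m = step ν e' p m := by
        rw [step, step]
        by_cases h : rle e p (ν m)
        · rw [if_pos h, if_pos ((hr p _ hp (hν m)).1 h)]
        · rw [if_neg h, if_neg fun h' => h ((hr p _ hp (hν m)).2 h')]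
      have h2 : (step ν e' p m).1 < α := by
        rw [step]
        split_ifs
        · exact hν m
        · exact hp
      rw [List.foldl_cons, List.foldl_cons, h1]
      exact ih _ h2
  exact key s p₀ h0

/-- extending a coherent sequence -/
theorem exists_extend [WellFoundedLT Ω] (hΩ : Om1 Ω) {δ : Ω} {e : Ω → Ω → ℤ} (he : CohB e δ) :
    ∃ e' : Ω → Ω → ℤ, Coh e' ∧ ∀ β < δ, e' β = e β := by
  obtain ⟨e', he'⟩ := exists_rec (Ω := Ω) (X := Ω → ℤ)
    (fun γ e' x => (γ < δ → x = e γ) ∧ ∀ β < γ, {ξ | ξ < β ∧ x ξ ≠ e' β ξ}.Finite) (by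
      intro γ f f' x hff hx
      refine ⟨hx.1, fun β hβ => ?_⟩
      rw [← hff β hβ]
      exact hx.2 β hβ) (by
      intro γ f hγ
      by_cases h : γ < δ
      · refine ⟨e γ, fun _ => rfl, fun β hβ => ?_⟩
        rw [(hγ β hβ).1 (hβ.trans h)]
        exact (he β γ hβ h).subset fun ξ hξ => ⟨hξ.1, Ne.symm hξ.2⟩
      · have hf : CohB f γ := by
          intro α β h1 h2
          exact ((hγ β h2).2 α h1).subset fun ξ hξ => ⟨hξ.1, Ne.symm hξ.2⟩
        obtain ⟨x, hx⟩ := exists_plain hΩ hf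
        exact ⟨x, fun h' => absurd h' h, hx⟩)
  exact ⟨e', fun α β h => ((he' β).2 α h).subset fun ξ hξ => ⟨hξ.1, Ne.symm hξ.2⟩,
    fun β hβ => (he' β).1 hβ⟩

/-- sealing a dense set at a limit -/
theorem sealing [WellFoundedLT Ω] (hΩ : Om1 Ω) {δ : Ω} (hδ : Lim δ) {e : Ω → Ω → ℤ} (he : Coh e)
    (D : Set (CT e)) (hD : ∀ t : CT e, t.lv < δ → ∃ u ∈ D, u.lv < δ ∧ t ≤ u) :
    ∃ x : Ω → ℤ, (∀ β < δ, {ξ | ξ < β ∧ x ξ ≠ e β ξ}.Finite) ∧
      ∀ r : Ω →₀ ℤ, (∀ ξ, ¬ ξ < δ → r ξ = 0) →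
        ∃ u ∈ D, u.lv < δ ∧ ∀ ξ < u.lv, x ξ + r ξ = u.val ξ := by
  classical
  obtain ⟨d, hd⟩ := (hΩ.seg δ).exists_eq_range hδ.1
  have hd1 : ∀ n, d n < δ := fun n => by
    have : d n ∈ Iio δ := by
      rw [hd]
      exact ⟨n, rfl⟩
    exact this
  have hctb : {r : Ω →₀ ℤ | ∀ ξ, ¬ ξ < δ → r ξ = 0}.Countable := by
    refine Set.Countable.mono ?_ ((countable_raw hΩ δ).image fun p => p.2)
    intro r hr
    exact ⟨(δ, r), ⟨le_rfl, hr⟩, rfl⟩
  obtain ⟨R, hR⟩ := hctb.exists_eq_range ⟨0, fun _ _ => rfl⟩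
  have hRs : ∀ n ξ, ¬ ξ < δ → R n ξ = 0 := fun n => by
    have : R n ∈ {r : Ω →₀ ℤ | ∀ ξ, ¬ ξ < δ → r ξ = 0} := by
      rw [hR]
      exact ⟨n, rfl⟩
    exact this
  -- one step
  have hstep : ∀ (n : ℕ) (p : CT e), ∃ q : CT e, p.lv < δ → q.lv < δ ∧ p ≤ q ∧ d n ≤ q.lv ∧
      ∃ u ∈ D, u.lv = q.lv ∧ ∀ ξ < u.lv, q.val ξ + R n ξ = u.val ξ := by
    intro n p
    by_cases hp : p.lv < δ
    · -- a level above everything relevant
      obtain ⟨b, hbδ, hb⟩ : ∃ b < δ, ∀ ξ ∈ insert p.lv (insert (d n) (R n).support), ξ ≤ b := by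
        obtain ⟨b, hb1, hb2⟩ := Finset.exists_maximal (s := insert p.lv (insert (d n)
          (R n).support)) ⟨p.lv, Finset.mem_insert_self _ _⟩
        refine ⟨b, ?_, fun ξ hξ => ?_⟩
        · rw [Finset.mem_insert, Finset.mem_insert] at hb1
          rcases hb1 with h | h | h
          · rw [h]
            exact hp
          · rw [h]
            exact hd1 n
          · by_contra hcon
            rw [Finsupp.mem_support_iff] at h
            exact h (hRs n b hcon)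
        · rcases le_total ξ b with h | h
          · exact h
          · exact hb2 hξ h
      obtain ⟨γ, hγ1, hγ2⟩ := hδ.2 b hbδ
      have hpγ : p.lv ≤ γ := (hb _ (Finset.mem_insert_self _ _)).trans hγ1.le
      let u₀ : Ω → ℤ := fun ξ => (if ξ < p.lv then p.val ξ else e γ ξ) + R n ξ
      have hfin : {ξ | ξ < γ ∧ u₀ ξ ≠ e γ ξ}.Finite := by
        refine ((p.fin he le_rfl).union ((he.symm p.lv γ).union
          (R n).hasFiniteSupport)).subset ?_
        rintro ξ ⟨h1, h2⟩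
        by_cases h3 : R n ξ = 0
        · by_cases h4 : ξ < p.lv
          · simp only [u₀, if_pos h4, h3, add_zero] at h2
            by_cases h5 : p.val ξ = e p.lv ξ
            · rw [h5] at h2
              exact Or.inr (Or.inl ⟨h4, h1, h2⟩)
            · exact Or.inl ⟨h4, h5⟩
          · simp only [u₀, if_neg h4, h3, add_zero] at h2
            exact absurd rfl h2
        · exact Or.inr (Or.inr h3)
      obtain ⟨u, hu1, hu2, hu3⟩ := hD (CT.mk' e γ u₀) hγ2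
      have hq : {ξ | ξ < u.lv ∧ u.val ξ - R n ξ ≠ e u.lv ξ}.Finite := by
        refine ((u.fin he le_rfl).union (R n).hasFiniteSupport).subset ?_
        rintro ξ ⟨h1, h2⟩
        by_cases h3 : R n ξ = 0
        · rw [h3, sub_zero] at h2
          exact Or.inl ⟨h1, h2⟩
        · exact Or.inr h3
      refine ⟨CT.mk' e u.lv fun ξ => u.val ξ - R n ξ, fun _ => ⟨hu2, ⟨hpγ.trans hu3.1, ?_⟩, ?_,
        u, hu1, rfl, ?_⟩⟩
      · intro ξ hξ
        have h1 : ξ < u.lv := hξ.trans_le (hpγ.trans hu3.1)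
        have h2 := hu3.2 ξ (hξ.trans_le hpγ)
        rw [CT.mk'_val hfin (hξ.trans_le hpγ)] at h2
        rw [CT.mk'_val hq h1, ← h2]
        simp only [u₀, if_pos hξ]
        ring
      · exact ((hb (d n) (Finset.mem_insert_of_mem (Finset.mem_insert_self _ _))).trans
          hγ1.le).trans hu3.1
      · intro ξ hξ
        rw [CT.mk'_val hq hξ]
        ring
    · exact ⟨p, fun h => absurd h hp⟩
  choose st hst using hstep
  obtain ⟨b₀, hb₀⟩ := hδ.1
  let p : ℕ → CT e := fun n => Nat.rec (CT.mk' e b₀ (e b₀)) (fun n q => st n q) n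
  have hp : ∀ n, p (n + 1) = st n (p n) := fun n => rfl
  have hplt : ∀ n, (p n).lv < δ := by
    intro n
    induction n with
    | zero => exact hb₀
    | succ n ih =>
      rw [hp]
      exact (hst n (p n) ih).1
  have hpm : ∀ m n, m ≤ n → p m ≤ p n := by
    intro m n hmn
    induction n, hmn using Nat.le_induction with
    | base => exact le_rfl
    | succ n _ ih => exact ih.trans (by rw [hp]; exact (hst n (p n) (hplt n)).2.1)
  have hcof : ∀ β < δ, ∃ n, β ≤ (p n).lv := by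
    intro β hβ
    have : β ∈ range d := by
      rw [← hd]
      exact hβ
    obtain ⟨n, rfl⟩ := this
    exact ⟨n + 1, by rw [hp]; exact (hst n (p n) (hplt n)).2.2.1⟩
  have hx : ∀ ξ, ∃ v : ℤ, ∀ n, ξ < (p n).lv → (p n).val ξ = v := by
    intro ξ
    by_cases hex : ∃ n, ξ < (p n).lv
    · obtain ⟨n, hn⟩ := hex
      refine ⟨(p n).val ξ, fun m hm => ?_⟩
      rcases le_total m n with h | h
      · exact (hpm m n h).2 ξ hm
      · exact ((hpm n m h).2 ξ hn).symm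
    · exact ⟨0, fun n hn => absurd ⟨n, hn⟩ hex⟩
  choose x hx using hx
  refine ⟨x, fun β hβ => ?_, fun r hr => ?_⟩
  · obtain ⟨n, hn⟩ := hcof β hβ
    refine ((p n).fin he hn).subset ?_
    rintro ξ ⟨h1, h2⟩
    refine ⟨h1, ?_⟩
    rw [hx ξ n (h1.trans_le hn)]
    exact h2
  · have hr' : r ∈ range R := by
      rw [← hR]
      exact hr
    obtain ⟨n, rfl⟩ := hr'
    obtain ⟨h1, h2, h3, u, hu1, hu2, hu3⟩ := hst n (p n) (hplt n)
    refine ⟨u, hu1, by rw [hu2]; exact h1, fun ξ hξ => ?_⟩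
    rw [← hu3 ξ hξ, ← hx ξ (n + 1) (by rw [hp, ← hu2]; exact hξ), hp]

end Run7.h95
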