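import Pool.Agent.Run7.h95.Seal

/-!
# The club principle and a cofinal family of dense sets give a coherent Souslin tree
-/

set_option autoImplicit false

namespace Run7.h95

open Set

variable {Ω : Type} [LinearOrder Ω]

/-- closure points of a function -/
theorem closure_pt [WellFoundedLT Ω] (hΩ : Om1 Ω) (h : Ω → Ω) (β : Ω) :
    ∃ α, β < α ∧ ∀ γ < α, h γ < α := by
  have hstep : ∀ b : Ω, ∃ b', b < b' ∧ ∀ γ ≤ b, h γ < b' := by
    intro b
    obtain ⟨b', hb'⟩ := hΩ.bdd (((hΩ.iic b).image h).insert b)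
    exact ⟨b', hb' b (mem_insert _ _), fun γ hγ => hb' _ (mem_insert_of_mem _ ⟨γ, hγ, rfl⟩)⟩
  choose st hst1 hst2 using hstep
  let b : ℕ → Ω := fun n => Nat.rec β (fun _ x => st x) n
  have hb : ∀ n, b (n + 1) = st (b n) := fun n => rfl
  obtain ⟨c, hc⟩ := hΩ.bdd (countable_range b)
  obtain ⟨α, hα1, hα2⟩ := (wellFounded_lt (α := Ω)).has_min {a | ∀ n, b n < a}
    ⟨c, fun n => hc _ ⟨n, rfl⟩⟩
  refine ⟨α, hα1 0, fun γ hγ => ?_⟩
  have h1 : ¬ ∀ n, b n < γ := fun h => hα2 γ h hγ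
  push Not at h1
  obtain ⟨n, hn⟩ := h1
  exact (hst2 (b n) γ hn).trans (by rw [← hb]; exact hα1 (n + 1))

/-- raw nodes of level below `α` -/
def RawLt (α : Ω) : Set (Ω × (Ω →₀ ℤ)) := {p | p.1 < α ∧ ∀ ξ, ¬ ξ < p.1 → p.2 ξ = 0}

theorem rawLt_subset (α : Ω) : RawLt α ⊆ Raw α := by
  rintro p ⟨h1, h2⟩
  exact ⟨h1.le, h2⟩

/-- a sequence of guesses of dense sets -/
structure SeqB (A : Ω → Set Ω) (cd : Ω × Ω → Ω) (b₀ δ : Ω) (w : ℕ → Ω × Ω) : Prop where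
  mem : ∀ n, cd (w n) ∈ A δ
  lt : ∀ n, (w n).1 < δ
  pos : ∀ n, b₀ < (w n).1
  cof : ∀ β < δ, ∃ n, β < (w n).1

theorem noAnti_of_cofDense [WellFoundedLT Ω] (hΩ : Om1 Ω) (hclub : ClubOn Ω)
    (hC : CofDense Ω) (hcd : ∃ cd : Ω × Ω → Ω, Function.Injective cd) :
    ∃ e : Ω → Ω → ℤ, Coh e ∧ NoAnti e := by
  classical
  obtain ⟨A, hA1, hA2⟩ := hclub
  obtain ⟨cd, hcd⟩ := hcd
  obtain ⟨E, hE1, hE2⟩ := hC
  have : Nonempty Ω := hΩ.nonempty
  obtain ⟨b₀, -, hb₀⟩ := (wellFounded_lt (α := Ω)).has_min univ univ_nonempty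
  have hbot : ∀ a : Ω, b₀ ≤ a := fun a => not_lt.1 (hb₀ a (mem_univ _))
  let p₀ : Ω × (Ω →₀ ℤ) := (b₀, 0)
  have hν : ∀ α : Ω, ∃ ν : ℕ → Ω × (Ω →₀ ℤ), b₀ < α → RawLt α = range ν := by
    intro α
    by_cases hα : b₀ < α
    · obtain ⟨ν, hν⟩ := ((countable_raw hΩ α).mono (rawLt_subset α)).exists_eq_range
        ⟨p₀, hα, fun _ _ => rfl⟩
      exact ⟨ν, fun _ => hν⟩
    · exact ⟨fun _ => p₀, fun h => absurd h hα⟩
  choose ν hν using hν
  have hνm : ∀ α, b₀ < α → ∀ m, ν α m ∈ RawLt α := by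
    intro α hα m
    rw [hν α hα]
    exact ⟨m, rfl⟩
  have hp₀ : ∀ α, b₀ < α → p₀ ∈ RawLt α := fun α hα => ⟨hα, fun _ _ => rfl⟩
  have hphi : ∀ α, b₀ < α → ∀ (e : Ω → Ω → ℤ) s, phi (ν α) e p₀ s ∈ RawLt α := fun α hα e s =>
    phi_mem (hp₀ α hα) (hνm α hα) s
  obtain ⟨e, he⟩ := exists_rec (Ω := Ω) (X := Ω → ℤ)
    (fun δ e x => (∀ β < δ, {ξ | ξ < β ∧ x ξ ≠ e β ξ}.Finite) ∧
      ((Lim δ ∧ ∃ w, SeqB A cd b₀ δ w) → ∃ w, SeqB A cd b₀ δ w ∧
        ∀ r : Ω →₀ ℤ, (∀ ξ, ¬ ξ < δ → r ξ = 0) → ∃ n, ∃ s ∈ E (w n).2,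
          ∀ ξ < (phi (ν (w n).1) e p₀ s).1, x ξ + r ξ = vl e (phi (ν (w n).1) e p₀ s) ξ)) (by
      intro δ e e' x hee hx
      refine ⟨fun β hβ => ?_, fun hw => ?_⟩
      · rw [← hee β hβ]
        exact hx.1 β hβ
      · obtain ⟨w, hw1, hw2⟩ := hx.2 hw
        refine ⟨w, hw1, fun r hr => ?_⟩
        obtain ⟨n, s, hs, hn⟩ := hw2 r hr
        refine ⟨n, s, hs, ?_⟩
        have h1 : phi (ν (w n).1) e p₀ s = phi (ν (w n).1) e' p₀ s :=
          phi_congr (hw1.pos n) (fun m => (hνm _ (hw1.pos n) m).1)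
            (fun β hβ => hee β (hβ.trans (hw1.lt n))) s
        rw [← h1]
        intro ξ hξ
        rw [hn ξ hξ, vl, vl, hee _ ((hphi _ (hw1.pos n) e s).1.trans (hw1.lt n))]) (by
      intro δ e hδ
      have he : CohB e δ := by
        intro α β h1 h2
        refine ((hδ β h2).1 α h1).subset fun ξ hξ => ⟨hξ.1, Ne.symm hξ.2⟩
      by_cases hex : Lim δ ∧ ∃ w, SeqB A cd b₀ δ w
      · obtain ⟨hlim, w, hw⟩ := hex
        obtain ⟨e', he', hee⟩ := exists_extend hΩ he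
        have hee' : ∀ n s, phi (ν (w n).1) e' p₀ s = phi (ν (w n).1) e p₀ s := fun n s =>
          phi_congr (hw.pos n) (fun m => (hνm _ (hw.pos n) m).1)
            (fun β hβ => hee β (hβ.trans (hw.lt n))) s
        obtain ⟨x, hx1, hx2⟩ := sealing hΩ hlim he'
          {t : CT e' | ∃ n, ∃ s ∈ E (w n).2, phi (ν (w n).1) e' p₀ s = (t.lv, t.md)} (by
          intro t ht
          obtain ⟨n, hn⟩ := hw.cof t.lv ht
          have h1 : (t.lv, t.md) ∈ RawLt (w n).1 := ⟨hn, t.supp⟩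
          rw [hν _ (hw.pos n)] at h1
          obtain ⟨m, hm⟩ := h1
          obtain ⟨s, hs1, hs2⟩ := hE1 (w n).2 [m]
          have h2 := hphi _ (hw.pos n) e' s
          refine ⟨⟨(phi (ν (w n).1) e' p₀ s).1, (phi (ν (w n).1) e' p₀ s).2, h2.2⟩,
            ⟨n, s, hs1, rfl⟩, h2.1.trans (hw.lt n), ?_⟩
          have h3 : phi (ν (w n).1) e' p₀ [m] = (t.lv, t.md) := by
            show step (ν (w n).1) e' p₀ m = _
            rw [step, if_pos, hm]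
            exact ⟨hbot _, fun ξ hξ => absurd hξ (not_lt.2 (hbot ξ))⟩
          have h4 := phi_mono (ν (w n).1) e' p₀ hs2
          rw [h3] at h4
          exact h4)
        refine ⟨x, fun β hβ => ?_, fun _ => ⟨w, hw, fun r hr => ?_⟩⟩
        · rw [← hee β hβ]
          exact hx1 β hβ
        · obtain ⟨u, ⟨n, s, hs, hu1⟩, hu2, hu3⟩ := hx2 r hr
          refine ⟨n, s, hs, ?_⟩
          rw [← hee' n s, hu1]
          intro ξ hξ
          rw [hu3 ξ hξ]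
          show e' u.lv ξ + u.md ξ = e u.lv ξ + u.md ξ
          rw [hee _ hu2]
      · obtain ⟨x, hx⟩ := exists_plain hΩ he
        exact ⟨x, hx, fun h => absurd h hex⟩)
  have hcoh : Coh e := fun α β hαβ =>
    ((he β).1 α hαβ).subset fun ξ hξ => ⟨hξ.1, Ne.symm hξ.2⟩
  refine ⟨e, hcoh, fun X hX => ?_⟩
  by_contra hanti
  push Not at hanti
  -- the dense set
  let D : Set (CT e) := {t | (∃ x ∈ X, x ≤ t) ∨ ∀ s, t ≤ s → ∀ x ∈ X, ¬ x ≤ s}
  have hDopen : ∀ t s, t ∈ D → t ≤ s → s ∈ D := by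
    rintro t s (⟨x, hx, hxt⟩ | h) hts
    · exact Or.inl ⟨x, hx, hxt.trans hts⟩
    · exact Or.inr fun s' hs' => h s' (hts.trans hs')
  have hDdense : ∀ t : CT e, ∃ u, t ≤ u ∧ u ∈ D := by
    intro t
    by_cases ht : t ∈ D
    · exact ⟨t, le_rfl, ht⟩
    · have h1 : ¬ ∀ s, t ≤ s → ∀ x ∈ X, ¬ x ≤ s := fun h => ht (Or.inr h)
      push Not at h1
      obtain ⟨s, hs, x, hx, hxs⟩ := h1
      exact ⟨s, hs, Or.inl ⟨x, hx, hxs⟩⟩
  choose dn hdn1 hdn2 using hDdense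
  have hh : ∀ γ : Ω, ∃ b, ∀ t : CT e, t.lv ≤ γ → (dn t).lv < b := by
    intro γ
    obtain ⟨b, hb⟩ := hΩ.bdd ((CT.countable_le (e := e) hΩ γ).image fun t => (dn t).lv)
    exact ⟨b, fun t ht => hb _ ⟨t, ht, rfl⟩⟩
  choose h hh using hh
  -- nodes from raw nodes
  have hnode : ∀ α (p : Ω × (Ω →₀ ℤ)), p ∈ RawLt α → ∃ t : CT e, (t.lv, t.md) = p :=
    fun α p hp => ⟨⟨p.1, p.2, hp.2⟩, rfl⟩
  have hi : ∀ α, ∃ i, b₀ < α → (∀ γ < α, h γ < α) → ∀ s ∈ E i, ∀ t : CT e,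
      (t.lv, t.md) = phi (ν α) e p₀ s → t ∈ D := by
    intro α
    by_cases hα : b₀ < α ∧ ∀ γ < α, h γ < α
    · obtain ⟨i, hi⟩ := hE2 {s | ∀ t : CT e, (t.lv, t.md) = phi (ν α) e p₀ s → t ∈ D} (by
        intro s
        obtain ⟨t, ht⟩ := hnode α _ (hphi α hα.1 e s)
        have h1 : t.lv < α := by
          have h2 := (hphi α hα.1 e s).1
          rw [← ht] at h2
          exact h2
        have h2 : ((dn t).lv, (dn t).md) ∈ RawLt α :=
          ⟨(hh t.lv t le_rfl).trans (hα.2 t.lv h1), (dn t).supp⟩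
        rw [hν α hα.1] at h2
        obtain ⟨m, hm⟩ := h2
        refine ⟨s ++ [m], ?_, List.prefix_append _ _⟩
        intro t' ht'
        have h3 : phi (ν α) e p₀ (s ++ [m]) = ((dn t).lv, (dn t).md) := by
          rw [phi, List.foldl_append, List.foldl_cons, List.foldl_nil]
          show step (ν α) e (phi (ν α) e p₀ s) m = _
          rw [step, if_pos, hm]
          rw [← ht, hm]
          exact hdn1 t
        rw [h3, Prod.mk.injEq] at ht'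
        have h4 : t' = dn t := by
          obtain ⟨a, r, hr⟩ := t'
          generalize dn t = v at *
          obtain ⟨b, q, hq⟩ := v
          simp only at ht'
          obtain ⟨h5, h6⟩ := ht'
          subst h5
          subst h6
          rfl
        rw [h4]
        exact hdn2 t) (by
        intro s s' hs hss t' ht'
        obtain ⟨t, ht⟩ := hnode α _ (hphi α hα.1 e s)
        refine hDopen t t' (hs t ht) ?_
        have h1 := phi_mono (ν α) e p₀ hss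
        rw [← ht, ← ht'] at h1
        exact h1)
      exact ⟨i, fun _ _ s hs => hi hs⟩
    · exact ⟨b₀, fun h1 h2 => absurd ⟨h1, h2⟩ hα⟩
  choose i hi using hi
  let P : Ω → Ω × Ω → Prop := fun η w =>
    (b₀ < w.1 ∧ (∀ γ < w.1, h γ < w.1)) ∧ w.2 = i w.1 ∧ η < w.1 ∧ η < cd w
  have hP : ∀ η, ∃ w, P η w := by
    intro η
    have h1 : ¬ ({α | η < α ∧ ∀ γ < α, h γ < α}).Countable := by
      apply hΩ.of_unb
      intro c
      obtain ⟨α, h3, h4⟩ := closure_pt hΩ h (max η c)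
      exact ⟨α, ⟨(le_max_left _ _).trans_lt h3, h4⟩, ((le_max_right _ _).trans_lt h3).le⟩
    have h3 : {α | cd (α, i α) ≤ η}.Countable := by
      refine Set.MapsTo.countable_of_injOn (f := fun α => cd (α, i α)) (t := Iic η)
        (fun α hα => hα) ?_ (hΩ.iic η)
      intro α _ α' _ h
      have h4 := hcd h
      rw [Prod.mk.injEq] at h4
      exact h4.1
    obtain ⟨α, hα1, hα2⟩ : ∃ α ∈ {α | η < α ∧ ∀ γ < α, h γ < α}, α ∉ {α | cd (α, i α) ≤ η} := by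
      by_contra hcon
      push Not at hcon
      exact h1 (h3.mono hcon)
    exact ⟨(α, i α), ⟨(hbot η).trans_lt hα1.1, hα1.2⟩, rfl, hα1.1, not_le.1 hα2⟩
  obtain ⟨w, hw1, hw2⟩ := exists_sep hΩ P hP (by
    rintro η η' w hηη ⟨h1, h2, h3, h4⟩
    exact ⟨h1, h2, hηη.trans_lt h3, hηη.trans_lt h4⟩) (fun w => max w.1 (cd w))
  have hXc : ¬ (range fun β => cd (w β)).Countable := by
    apply hΩ.of_unb
    intro b
    exact ⟨_, ⟨b, rfl⟩, (hw1 b).2.2.2.le⟩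
  obtain ⟨δ, hδ, hAδ⟩ := hA2 _ hXc
  obtain ⟨a, ha1, ha2, ha3⟩ := ladder_seq hΩ hδ (hA1 δ hδ).1 (hA1 δ hδ).2
  have hβ : ∀ n, ∃ β, cd (w β) = a n := fun n => hAδ (ha2 n)
  choose β hβ using hβ
  have hβm : ∀ n, β n < β (n + 1) := by
    intro n
    have h1 := ha1 (Nat.lt_succ_self n)
    rw [← hβ, ← hβ] at h1
    rcases lt_trichotomy (β n) (β (n + 1)) with h | h | h
    · exact h
    · rw [h] at h1
      exact absurd h1 (lt_irrefl _)
    · have h2 := (hw2 _ _ h).2.2.2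
      exact absurd (((le_max_right _ _).trans_lt h2).trans h1) (lt_irrefl _)
  have hseq : SeqB A cd b₀ δ fun n => w (β n) := by
    refine ⟨fun n => ?_, fun n => ?_, fun n => (hw1 _).1.1, fun γ hγ => ?_⟩
    · rw [hβ]
      exact ha2 n
    · have h1 := (hw2 _ _ (hβm n)).2.2.2
      rw [hβ (n + 1)] at h1
      exact ((le_max_left _ _).trans_lt h1).trans ((hA1 δ hδ).1 (ha2 (n + 1)))
    · obtain ⟨n, hn⟩ := ha3 γ hγ
      rw [← hβ] at hn
      exact ⟨n + 1, (hn.trans_le (le_max_right _ _)).trans (hw2 _ _ (hβm n)).2.2.1⟩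
  obtain ⟨v, hv1, hv2⟩ := (he δ).2 ⟨hδ, _, hseq⟩
  obtain ⟨x, hx1, hx2⟩ := CT.exists_gt hΩ hX δ
  obtain ⟨n, s, hs, hn⟩ := hv2 (x.res δ).md (x.res δ).supp
  obtain ⟨b, hb⟩ : ∃ b, w b = v n := by
    obtain ⟨b, hb⟩ := hAδ (hv1.mem n)
    exact ⟨b, hcd hb⟩
  have hPn := hw1 b
  rw [hb] at hPn
  obtain ⟨⟨h1, h2⟩, h3, -, -⟩ := hPn
  obtain ⟨u, hu⟩ := hnode _ _ (hphi _ h1 e s)
  have huD : u ∈ D := hi _ h1 h2 s (h3 ▸ hs) u hu
  have hulv : u.lv < δ := by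
    have h4 := (hphi _ h1 e s).1
    rw [← hu] at h4
    exact h4.trans (hv1.lt n)
  have hux : u ≤ x := by
    refine ⟨(hulv.trans hx2).le, fun ξ hξ => ?_⟩
    have h4 := hn ξ (by rw [← hu]; exact hξ)
    rw [← hu] at h4
    have h5 : (x.res δ).val ξ = x.val ξ := x.res_val hcoh hx2.le (hξ.trans hulv)
    rw [← h5]
    exact h4.symm
  rcases huD with ⟨x', hx', hxu⟩ | h4
  · refine hanti x' hx' x hx1 (CT.lt_iff.2 ⟨?_, (hxu.trans hux).2⟩)
    exact (hxu.1.trans_lt hulv).trans hx2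
  · exact h4 x hux x hx1 le_rfl

end Run7.h95
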