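import Pool.Agent.Run7.h95.Pairs
import Pool.Agent.Run7.h95.Height

/-!
# The tree `T_c`
-/

set_option autoImplicit false

namespace Run7.h95

open Set Filter

universe u v

/-- Criterion for nowhere density in sequence spaces. -/
theorem nwd_of {X : Type v} [TopologicalSpace X] [DiscreteTopology X] (N : Set (ℕ → X))
    (h : ∀ (c₀ : ℕ → X) (n : ℕ), ∃ (m : ℕ) (c₁ : ℕ → X), (∀ k < n, c₁ k = c₀ k) ∧
      ∀ c, (∀ k < m, c k = c₁ k) → c ∉ N) : IsNowhereDense N := by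
  rw [IsNowhereDense, Set.eq_empty_iff_forall_notMem]
  intro c₀ hc₀
  have h1 : interior (closure N) ∈ nhds c₀ := isOpen_interior.mem_nhds hc₀
  rw [(PiNat.isTopologicalBasis_cylinders (E := fun _ => X)).mem_nhds_iff] at h1
  obtain ⟨_, ⟨x, n, rfl⟩, h2, h3⟩ := h1
  obtain ⟨m, c₁, h4, h5⟩ := h c₀ n
  have h6 : c₁ ∈ PiNat.cylinder (E := fun _ => X) x n := by
    intro k hk
    rw [h4 k hk]
    exact h2 k hk
  have h7 : c₁ ∈ closure N := interior_subset (h3 h6)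
  rw [mem_closure_iff] at h7
  obtain ⟨c, hc1, hc2⟩ := h7 (PiNat.cylinder (E := fun _ => X) c₁ m)
    (PiNat.isOpen_cylinder _ c₁ m) (PiNat.self_mem_cylinder c₁ m)
  exact h5 c (fun k hk => hc1 k hk) hc2

/-- the underlying set of the tree given by `g` and `c` -/
def Tr {Ω : Type} {X : Type} (_ : Ω → Ω → ℕ) (_ : ℕ → X) : Type := Ω

variable {Ω : Type} [LinearOrder Ω] {X : Type}

instance (g : Ω → Ω → ℕ) (c : ℕ → X) : PartialOrder (Tr g c) where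
  le β γ := (show Ω from β) ≤ (show Ω from γ) ∧ ∀ ξ < (show Ω from β), c (g β ξ) = c (g γ ξ)
  le_refl β := ⟨le_refl (show Ω from β), fun _ _ => rfl⟩
  le_trans α β γ h1 h2 := ⟨h1.1.trans h2.1, fun ξ hξ =>
    (h1.2 ξ hξ).trans (h2.2 ξ (lt_of_lt_of_le hξ h1.1))⟩
  le_antisymm α β h1 h2 := le_antisymm (α := Ω) h1.1 h2.1

theorem tr_le {g : Ω → Ω → ℕ} {c : ℕ → X} (β γ : Ω) :
    (show Tr g c from β) ≤ (show Tr g c from γ) ↔ β ≤ γ ∧ ∀ ξ < β, c (g β ξ) = c (g γ ξ) :=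
  Iff.rfl

theorem tr_lt {g : Ω → Ω → ℕ} {c : ℕ → X} {β γ : Ω}
    (h : (show Tr g c from β) < (show Tr g c from γ)) :
    β < γ ∧ ∀ ξ < β, c (g β ξ) = c (g γ ξ) := by
  have h1 := h.le
  rw [tr_le] at h1
  refine ⟨lt_of_le_of_ne h1.1 fun h2 => ?_, h1.2⟩
  subst h2
  exact lt_irrefl _ h

instance [WellFoundedLT Ω] (g : Ω → Ω → ℕ) (c : ℕ → X) : WellFoundedLT (Tr g c) := by
  constructor
  have h1 : WellFounded (fun β γ : Ω => β < γ) := wellFounded_lt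
  exact Subrelation.wf (r := fun β γ : Ω => β < γ) (fun {β γ} h => (tr_lt h).1) h1

/-- The set of those `c` for which `s` is an antichain of `Tr g c`. -/
def NA (g : Ω → Ω → ℕ) (X : Type) (s : Set Ω) : Set (ℕ → X) :=
  {c | ∀ β ∈ s, ∀ γ ∈ s, β < γ → ∃ ξ < β, c (g β ξ) ≠ c (g γ ξ)}

/-- The set of those `c` for which `c ∘ g β` is constant on `s`. -/
def NB (g : Ω → Ω → ℕ) {X : Type} (s : Set Ω) (β : Ω) (b : X) : Set (ℕ → X) :=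
  {c | ∀ ξ ∈ s, c (g β ξ) = b}

theorem nwd_NA [TopologicalSpace X] [DiscreteTopology X] [WellFoundedLT Ω]
    {g : Ω → Ω → ℕ} (hg : IsG g) {s : Set Ω} (hs : s.Infinite) : IsNowhereDense (NA g X s) := by
  classical
  refine nwd_of _ fun c₀ n => ?_
  have : Nonempty X := ⟨c₀ 0⟩
  obtain ⟨b, hb, hbs⟩ := exists_strictMono hs
  obtain ⟨i, j, hij, hgood⟩ := hg.good_pair hb n
  have hlt : b i < b j := hb hij
  let Δ : Set Ω := {ξ | ξ < b i ∧ g (b i) ξ ≠ g (b j) ξ}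
  obtain ⟨c₁, hc1, hc2⟩ := solve Δ (fun ξ => min (g (b i) ξ) (g (b j) ξ))
    (fun ξ => max (g (b i) ξ) (g (b j) ξ)) n c₀ (fun ξ hξ => min_lt_max.2 hξ.2)
    (fun ξ hξ => hgood ξ hξ.1 hξ.2) (by
      intro ξ hξ ξ' hξ' h
      rw [hg.hi (b i) (b j) ξ ξ' hlt hξ.1 hξ'.1 hξ.2 hξ'.2 h])
  have hΔ : Δ.Finite := hg.coh (b i) (b j) hlt
  obtain ⟨m, hm⟩ : ∃ m : ℕ, ∀ ξ ∈ Δ, max (g (b i) ξ) (g (b j) ξ) < m := by
    obtain ⟨m, hm⟩ := (hΔ.image fun ξ => max (g (b i) ξ) (g (b j) ξ)).bddAbove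
    exact ⟨m + 1, fun ξ hξ => Nat.lt_succ_of_le (hm ⟨ξ, hξ, rfl⟩)⟩
  refine ⟨m, c₁, hc1, fun c hc hcN => ?_⟩
  obtain ⟨ξ, hξ1, hξ2⟩ := hcN (b i) (hbs i) (b j) (hbs j) hlt
  have hξΔ : ξ ∈ Δ := ⟨hξ1, fun h => hξ2 (by rw [h])⟩
  apply hξ2
  have h1 := hm ξ hξΔ
  rw [max_lt_iff] at h1
  rw [hc _ h1.1, hc _ h1.2]
  have h2 := hc2 ξ hξΔ
  rcases le_total (g (b i) ξ) (g (b j) ξ) with h3 | h3
  · rw [max_eq_right h3, min_eq_left h3] at h2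
    exact h2.symm
  · rw [max_eq_left h3, min_eq_right h3] at h2
    exact h2

theorem nwd_NB [TopologicalSpace X] [DiscreteTopology X] [Nontrivial X]
    {g : Ω → Ω → ℕ} (hg : IsG g) {s : Set Ω} (hs : s.Infinite) {β : Ω} (hβ : ∀ ξ ∈ s, ξ < β)
    (b : X) : IsNowhereDense (NB g s β b) := by
  classical
  refine nwd_of _ fun c₀ n => ?_
  obtain ⟨ξ, hξ, hn⟩ : ∃ ξ ∈ s, n ≤ g β ξ := by
    by_contra hcon
    push Not at hcon
    exact hs (Set.Finite.of_injOn (f := g β) (t := Iio n) (fun ξ hξ => hcon ξ hξ)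
      (fun ξ hξ ξ' hξ' h => hg.inj β ξ ξ' (hβ ξ hξ) (hβ ξ' hξ') h) (Set.finite_Iio n))
  obtain ⟨b', hb'⟩ := exists_ne b
  refine ⟨g β ξ + 1, Function.update c₀ (g β ξ) b', fun k hk => ?_, fun c hc hcN => ?_⟩
  · rw [Function.update_of_ne (by omega)]
  · have h1 := hcN ξ hξ
    rw [hc _ (Nat.lt_succ_self _), Function.update_self] at h1
    exact hb' h1

/-- If `c` avoids the nowhere dense sets above, then `Tr g c` is a Souslin tree. -/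
theorem souslin_Tr [WellFoundedLT Ω] (hΩ : Om1 Ω) [Finite X]
    {g : Ω → Ω → ℕ} (S : Set (Set Ω)) (hSc : ∀ s ∈ S, s.Countable)
    (hS : ∀ Z : Set Ω, ¬ Z.Countable → ∃ s ∈ S, s ⊆ Z) (c : ℕ → X)
    (hA : ∀ s ∈ S, c ∉ NA g X s) (hB : ∀ s ∈ S, ∀ β, (∀ ξ ∈ s, ξ < β) → ∀ b, c ∉ NB g s β b) :
    IsSouslinTree (Tr g c) := by
  classical
  refine souslin_of hΩ.unc ?_ ?_ ?_ ?_
  · intro t s s' h1 h2
    have h3 := (tr_lt (Ω := Ω) (g := g) (c := c) h1).2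
    have h4 := (tr_lt (Ω := Ω) (g := g) (c := c) h2).2
    rcases le_total (α := Ω) s s' with h | h
    · exact Or.inl ⟨h, fun ξ hξ => (h3 ξ hξ).trans (h4 ξ (lt_of_lt_of_le (α := Ω) hξ h)).symm⟩
    · exact Or.inr ⟨h, fun ξ hξ => (h4 ξ hξ).trans (h3 ξ (lt_of_lt_of_le (α := Ω) hξ h)).symm⟩
  · intro t
    exact (hΩ.seg t).mono fun s hs => (tr_lt (Ω := Ω) (g := g) (c := c) hs).1
  · intro C hC
    by_contra hunc
    have hunb : ∀ ξ : Ω, ∃ β : Ω, ξ < β ∧ β ∈ (show Set Ω from C) := fun ξ => by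
      obtain ⟨β, h1, h2⟩ := hΩ.unb (s := (show Set Ω from C)) hunc ξ
      exact ⟨β, h2, h1⟩
    choose w hw1 hw2 using hunb
    have hz : ∀ ξ : Ω, ∀ β : Ω, ξ < β → β ∈ (show Set Ω from C) →
        c (g β ξ) = c (g (w ξ) ξ) := by
      intro ξ β h1 h2
      by_cases heq : β = w ξ
      · rw [heq]
      · rcases hC h2 (hw2 ξ) heq with h3 | h3
        · exact h3.2 ξ h1
        · exact (h3.2 ξ (hw1 ξ)).symm
    obtain ⟨b, hb⟩ := exists_unc hΩ.unc fun ξ => c (g (w ξ) ξ)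
    obtain ⟨s, hs1, hs2⟩ := hS _ hb
    obtain ⟨β₀, hβ₀⟩ := hΩ.bdd (hSc s hs1)
    have hlt : ∀ ξ ∈ s, ξ < w β₀ := fun ξ hξ => (hβ₀ ξ hξ).trans (hw1 β₀)
    refine hB s hs1 (w β₀) hlt b fun ξ hξ => ?_
    rw [hz ξ (w β₀) (hlt ξ hξ) (hw2 β₀)]
    exact (hs2 hξ).2
  · intro A hA'
    by_contra hunc
    obtain ⟨s, hs1, hs2⟩ := hS _ hunc
    refine hA s hs1 fun β hβ γ hγ hlt => ?_
    by_contra hcon
    push Not at hcon
    exact hA' (hs2 hβ) (hs2 hγ) (fun h => (ne_of_lt hlt) h) ⟨hlt.le, hcon⟩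

end Run7.h95
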